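import Pool.Agent.DRG.Targets
import Pool.Agent.DRB.ADST

/-!
# The elements preserving a sub-structure are stable under the isometry groups (several weights)

Adapted from `Pool/Agent/DRB/ADST.lean`.
-/

set_option autoImplicit false

open Matrix

namespace Pool.Agent.DRG

open Pool.Agent.DRB.ADST_ hiding gT gT' gP gk rel PF_rel phi_inv pres_conj rel_eval
open Pool.Agent.DRB (cx im toC TI tpow dtpow tens dtens Ix Fam tot Sp gsp Pres Fs Bad T_TCNJ T_CXA T_RATL T_LINR p_TMUL)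

namespace ADST_

variable {r k n : ℕ} {d : Fin n → ℕ}

/-- the matrix `Θ` at a point -/
def gT (y : Vars k d → ℂ) : Matrix (Fin k) (Fin k) ℂ :=
  Matrix.of fun i j => y (Sum.inl (Sum.inr (Sum.inl (i, j))))

/-- the matrix `Θ'` at a point -/
def gT' (y : Vars k d → ℂ) : Matrix (Fin k) (Fin k) ℂ :=
  Matrix.of fun i j => y (Sum.inl (Sum.inr (Sum.inr (i, j))))

/-- the matrix `Φ l` at a point -/
def gP (l : Fin n) (y : Vars k d → ℂ) : Matrix (Fin (d l)) (Fin (d l)) ℂ :=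
  Matrix.of fun i j => y (Sum.inr ⟨l, (i, j)⟩)

/-- the number `κ l` at a point -/
def gk (y : Vars k d → ℂ) (l : Fin n) : ℂ := y (Sum.inl (Sum.inl l))

lemma PF_prod (s : Finset (Fin n)) : PF s.card (fun y : Vars k d → ℂ => ∏ l ∈ s, gk y l) := by
  classical
  induction s using Finset.induction_on with
  | empty => simpa using PF.const (ι := Vars k d) 1
  | insert a s ha ih =>
    simp only [Finset.prod_insert ha, Finset.card_insert_of_notMem ha]
    exact (PF.mul (PF.coord (Sum.inl (Sum.inl a))) ih).mono (by omega)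

/-- the function giving the relations -/
noncomputable def rel (u : Pm r k d → ℚ) (q : Pm r k d → ℚ)
    (A0 : Matrix (Fin k) (Fin k) ℚ) (A Q E' : ∀ l, Matrix (Fin (d l)) (Fin (d l)) ℚ)
    (y : Vars k d → ℂ) : ℂ :=
  (∏ l, gk y l) * ∑ i, ((u (Sum.inl i) * q (Sum.inl i) : ℚ) : ℂ)
    + ((∏ l, gk y l) * ∑ p : Fin k × Fin k, (u (Sum.inr (Sum.inl p)) : ℂ) *
        (gT y * toC A0 * gT' y) p.1 p.2
    + ∑ p : (l : Fin n) × (Fin (d l) × Fin (d l)), (∏ l ∈ Finset.univ.erase p.1, gk y l) *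
        ((u (Sum.inr (Sum.inr p)) : ℂ) *
        (gP p.1 y * toC (A p.1) * toC (Q p.1) * (gP p.1 y)ᵀ * toC (E' p.1)) p.2.1 p.2.2))

lemma PF_rel (u : Pm r k d → ℚ) (q : Pm r k d → ℚ)
    (A0 : Matrix (Fin k) (Fin k) ℚ) (A Q E' : ∀ l, Matrix (Fin (d l)) (Fin (d l)) ℚ) :
    PF (n + 2) (rel u q A0 A Q E') := by
  have hk : PF n (fun y : Vars k d → ℂ => ∏ l, gk y l) := by
    simpa using PF_prod (k := k) (d := d) Finset.univ
  have hT : PM 1 (gT : (Vars k d → ℂ) → _) := fun i j => PF.coord _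
  have hT' : PM 1 (gT' : (Vars k d → ℂ) → _) := fun i j => PF.coord _
  have hP : ∀ l, PM 1 (gP l : (Vars k d → ℂ) → _) := fun l i j => PF.coord _
  have hPt : ∀ l, PM 1 (fun y : Vars k d → ℂ => (gP l y)ᵀ) := fun l i j => PF.coord _
  unfold rel
  apply PF.add
  · have h1 : PF (n + 0) (fun y : Vars k d → ℂ =>
        (∏ l, gk y l) * ((∑ i, u (Sum.inl i) * q (Sum.inl i) : ℚ) : ℂ)) := hk.mul (PF.const _)
    simpa using h1.mono (by omega : n + 0 ≤ n + 2)
  apply PF.add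
  · have h1 : PF (n + 2) (fun y : Vars k d → ℂ => (∏ l, gk y l) *
        ∑ p : Fin k × Fin k, (u (Sum.inr (Sum.inl p)) : ℂ) *
        (gT y * toC A0 * gT' y) p.1 p.2) := by
      apply hk.mul
      apply PF.sum
      intro p _
      exact ((PF.const _).mul (((hT.mul (PM.const A0)).mul hT') p.1 p.2)).mono (by norm_num)
    exact h1
  · apply PF.sum
    intro p _
    have h0 : (Finset.univ.erase p.1 : Finset (Fin n)).card ≤ n := by
      have := Finset.card_le_univ (Finset.univ.erase p.1 : Finset (Fin n))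
      simpa using this
    have h2 : PF 2 (fun y : Vars k d → ℂ => (u (Sum.inr (Sum.inr p)) : ℂ) *
        (gP p.1 y * toC (A p.1) * toC (Q p.1) * (gP p.1 y)ᵀ * toC (E' p.1)) p.2.1 p.2.2) :=
      ((PF.const _).mul ((((((hP p.1).mul (PM.const (A p.1))).mul (PM.const (Q p.1))).mul
        (hPt p.1)).mul (PM.const (E' p.1))) p.2.1 p.2.2)).mono (by norm_num)
    exact ((PF_prod (Finset.univ.erase p.1)).mul h2).mono (by omega)

/-! ### Conjugation -/

/-- the forms are invertible -/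
lemma ok_unit {m : ℕ} {E : Matrix (Fin m) (Fin m) ℂ} (h : Ok E) : IsUnit E :=
  h.elim (fun h => h.2) (fun h => h.2.1)


/-- inverse of the comparison matrix -/
lemma phi_inv (S : Setup k n d) (l : Fin n) : S.Φ l * (S.Φ l)⁻¹ = 1 ∧ (S.Φ l)⁻¹ * S.Φ l = 1 := by
  have h1 : IsUnit (toC (S.E l)).det := (isUnit_iff_isUnit_det _).1 (ok_unit (S.hE l))
  have h2 := S.rel l
  have h3 : S.Φ l * ((S.κ l)⁻¹ • (toC (S.Q l) * (S.Φ l)ᵀ * (toC (S.E l))⁻¹)) = 1 := by
    rw [Matrix.mul_smul, ← Matrix.mul_assoc, ← Matrix.mul_assoc, h2, Matrix.smul_mul,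
      Matrix.mul_nonsing_inv _ h1, smul_smul, inv_mul_cancel₀ (S.hκ l), one_smul]
  have h4 : IsUnit (S.Φ l).det := (isUnit_iff_isUnit_det _).1 (IsUnit.of_mul_eq_one _ h3)
  exact ⟨Matrix.mul_nonsing_inv _ h4, Matrix.nonsing_inv_mul _ h4⟩

lemma pres_conj (hC : T_TCNJ) (S : Setup k n d) {a : Fin r → ℕ} {c : Fin r → ℂ}
    {W W' : Submodule ℚ (TI (Ix k d) a → ℚ)} (hS : IsSub S a c W W')
    (x : Fin r → ℂ) (Z0 : Matrix (Fin k) (Fin k) ℂ) (Z : Fam d) :
    Pres a W x Z0 Z ↔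
      Pres a W' x (S.Θ * Z0 * S.Θ') (fun l => S.Φ l * Z l * (S.Φ l)⁻¹) := by
  obtain ⟨hc, him⟩ := hS
  have hΘ' : S.Θ' * S.Θ = 1 := mul_eq_one_comm.1 S.hΘ
  set M := tot S.Θ S.Φ with hM
  set M' := tot S.Θ' (fun l => (S.Φ l)⁻¹) with hM'
  have hMM : M' * M = 1 := by
    rw [hM, hM', tot_mul, hΘ']
    have : (fun l => (S.Φ l)⁻¹ * S.Φ l) = (fun l => 1 : Fam d) := by
      funext l
      exact (phi_inv S l).2
    rw [this, tot_one]
  have hcn := hC (Ix k d) r a c x M M' (tot Z0 Z) hMM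
  have hconj : M * tot Z0 Z * M' = tot (S.Θ * Z0 * S.Θ') (fun l => S.Φ l * Z l * (S.Φ l)⁻¹) := by
    rw [hM, hM', tot_mul, tot_mul]
  rw [hconj] at hcn
  have hinj : ∀ v, (tens a c M) *ᵥ v = 0 → v = 0 := by
    intro v hv
    have h1 := (p_TMUL (Ix k d) r a (fun i => (c i)⁻¹) c M' M).1
    have h2 : (fun i => (c i)⁻¹ * c i) = (1 : Fin r → ℂ) := by
      funext i
      exact inv_mul_cancel₀ (hc i)
    rw [h2, hMM, (p_TMUL (Ix k d) r a c c M M').2] at h1
    have h3 := congrArg (fun y => (tens a (fun i => (c i)⁻¹) M') *ᵥ y) hv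
    simp only [mulVec_mulVec, h1, one_mulVec, mulVec_zero] at h3
    exact h3
  constructor
  · intro hP v hv
    rw [← him] at hv
    obtain ⟨u, hu, rfl⟩ := hv
    have h1 : (tens a c M).mulVecLin u = (tens a c M) *ᵥ u := rfl
    rw [h1, mulVec_mulVec, ← hcn, ← mulVec_mulVec, ← him]
    exact ⟨_, hP u hu, rfl⟩
  · intro hP v hv
    have h1 : (tens a c M) *ᵥ v ∈ cx W' := by
      rw [← him]
      exact ⟨v, hv, rfl⟩
    have h2 := hP _ h1
    rw [mulVec_mulVec, ← hcn, ← mulVec_mulVec, ← him] at h2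
    obtain ⟨u, hu, hu2⟩ := h2
    have h3 : (tens a c M).mulVecLin u = (tens a c M) *ᵥ u := rfl
    rw [h3] at hu2
    have h4 := hinj (u - (dtens a x (tot Z0 Z)) *ᵥ v) (by
      rw [mulVec_sub, hu2, sub_self])
    rw [sub_eq_zero] at h4
    rw [← h4]
    exact hu

lemma rel_eval (S : Setup k n d) (u q : Pm r k d → ℚ) {h : Fam d}
    (hh : ∀ l, h l ∈ Sp (toC (S.E l))) :
    rel u q (A0 q) (Al q) S.Q (fun l => (S.E l)⁻¹) (pt S.κ S.Θ S.Θ' (fun l => h l * S.Φ l))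
      = (∏ l, S.κ l) * ∑ j, (u j : ℂ) * (enc (dx fun j => (q j : ℂ))
          (S.Θ * dX0 (fun j => (q j : ℂ)) * S.Θ')
          (fun l => h l * (S.Φ l * dX (fun j => (q j : ℂ)) l * (S.Φ l)⁻¹) * (h l)⁻¹)
            : Pm r k d → ℂ) j := by
  rw [Fintype.sum_sum_type, Fintype.sum_sum_type, mul_add, mul_add]
  unfold rel
  have e1 : ∀ l, gk (pt S.κ S.Θ S.Θ' (fun l => h l * S.Φ l)) l = S.κ l := fun _ => rfl
  have e2 : gT (pt S.κ S.Θ S.Θ' (fun l => h l * S.Φ l)) = S.Θ := rfl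
  have e3 : gT' (pt S.κ S.Θ S.Θ' (fun l => h l * S.Φ l)) = S.Θ' := rfl
  have e4 : ∀ l, gP l (pt S.κ S.Θ S.Θ' (fun l => h l * S.Φ l)) = h l * S.Φ l := fun _ => rfl
  have e5 : toC (A0 q) = dX0 (fun j => (q j : ℂ)) := rfl
  have e6 : ∀ l, toC (Al q l) = dX (fun j => (q j : ℂ)) l := fun _ => rfl
  rw [e2, e3, e5]
  simp only [e1, e4, e6]
  have e7 : ∀ l, h l * S.Φ l * dX (fun j => (q j : ℂ)) l * toC (S.Q l) * (h l * S.Φ l)ᵀ
      * toC (S.E l)⁻¹
      = S.κ l • (h l * (S.Φ l * dX (fun j => (q j : ℂ)) l * (S.Φ l)⁻¹) * (h l)⁻¹) :=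
    fun l => alg (S.hκ l) (S.rel l) (rational_inv (ok_unit (S.hE l))) (hh l)
  simp only [e7]
  congr 1
  · congr 1
    refine Finset.sum_congr rfl fun i _ => ?_
    push_cast
    rfl
  congr 1
  rw [Finset.mul_sum]
  refine Finset.sum_congr rfl fun p _ => ?_
  rw [← Finset.mul_prod_erase Finset.univ S.κ (Finset.mem_univ p.1)]
  simp only [enc, Sum.elim_inr, Matrix.smul_apply, smul_eq_mul]
  ring

end ADST_

open ADST_ in
theorem p_ADST (h1 : T_TCNJ) (h2 : T_CXA) (h3 : T_RATL) (h4 : T_LINR) : T_ADST := by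
  intro k n d S hBD r a c W W' hS x X0 X hP h hh
  obtain ⟨s, hs⟩ := pres_iff h2 a W
  obtain ⟨s', hs'⟩ := pres_iff h2 a W'
  -- the new statement is linear
  have key : ∀ z : Pm r k d → ℂ,
      z ∈ Submodule.span ℂ {w : Pm r k d → ℂ | ∃ q : Pm r k d → ℚ,
        (∀ u ∈ s, ∑ j, u j * q j = 0) ∧ w = fun j => (q j : ℂ)} →
      Pres a W' (dx z) (S.Θ * dX0 z * S.Θ')
        (fun l => h l * (S.Φ l * dX z l * (S.Φ l)⁻¹) * (h l)⁻¹) := by
    intro z hz
    induction hz using Submodule.span_induction with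
    | mem z hz =>
      obtain ⟨q, hq, rfl⟩ := hz
      have e1 : Pres a W (dx fun j => (q j : ℂ)) (dX0 fun j => (q j : ℂ))
          (dX fun j => (q j : ℂ)) := by
        rw [hs]
        intro u hu
        have e2 := hq u hu
        have e3 : ((∑ j, u j * q j : ℚ) : ℂ) = 0 := by rw [e2]; simp
        push_cast at e3
        exact e3
      rw [pres_conj h1 S hS] at e1
      refine (hs' (enc (dx fun j => (q j : ℂ)) (S.Θ * dX0 (fun j => (q j : ℂ)) * S.Θ')
          (fun l => h l * (S.Φ l * dX (fun j => (q j : ℂ)) l * (S.Φ l)⁻¹) * (h l)⁻¹))).2 ?_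
      intro u hu
      have f1 := (hs' (enc (dx fun j => (q j : ℂ)) (S.Θ * dX0 (fun j => (q j : ℂ)) * S.Θ')
          (fun l => S.Φ l * dX (fun j => (q j : ℂ)) l * (S.Φ l)⁻¹))).1 e1 u hu
      obtain ⟨P, hPd, hPe⟩ := PF_rel u q (A0 q) (Al q) S.Q (fun l => (S.E l)⁻¹)
      have f2 := rel_eval S u q (h := fun _ => 1) (fun l => by
        show (1 : Matrix (Fin (d l)) (Fin (d l)) ℂ) * toC (S.E l) * 1ᵀ = toC (S.E l)
        rw [Matrix.one_mul, Matrix.transpose_one, Matrix.mul_one])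
      simp only [Matrix.one_mul, inv_one, Matrix.mul_one] at f2
      rw [f1, mul_zero, ← hPe] at f2
      have f3 := hBD P hPd f2 h hh
      rw [hPe, rel_eval S u q hh] at f3
      exact (mul_eq_zero.1 f3).resolve_left (Finset.prod_ne_zero_iff.2 fun l _ => S.hκ l)
    | zero =>
      have e := pres_zero (r := r) (k := k) (d := d) (a := a) (W := W')
      have e1 : (dx (0 : Pm r k d → ℂ)) = 0 := rfl
      have e2 : (dX0 (0 : Pm r k d → ℂ)) = 0 := rfl
      have e3 : ∀ l, (dX (0 : Pm r k d → ℂ)) l = 0 := fun _ => rfl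
      have e4 : (fun l => h l * (S.Φ l * dX (0 : Pm r k d → ℂ) l * (S.Φ l)⁻¹) * (h l)⁻¹)
          = (0 : Fam d) := by
        funext l
        rw [e3]
        simp
      rw [e1, e2, e4, Matrix.mul_zero, Matrix.zero_mul]
      exact e
    | add x y _ _ hx hy =>
      have e := pres_lin h4 1 hx hy
      rw [one_smul, one_smul, one_smul] at e
      have e1 : dx (x + y) = dx x + dx y := rfl
      have e2 : dX0 (x + y) = dX0 x + dX0 y := rfl
      have e3 : ∀ l, dX (x + y) l = dX x l + dX y l := fun _ => rfl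
      have e4 : (fun l => h l * (S.Φ l * dX (x + y) l * (S.Φ l)⁻¹) * (h l)⁻¹)
          = (fun l => h l * (S.Φ l * dX x l * (S.Φ l)⁻¹) * (h l)⁻¹)
            + (fun l => h l * (S.Φ l * dX y l * (S.Φ l)⁻¹) * (h l)⁻¹) := by
        funext l
        rw [e3]
        simp only [Pi.add_apply, Matrix.mul_add, Matrix.add_mul]
      rw [e1, e2, e4, Matrix.mul_add, Matrix.add_mul]
      exact e
    | smul c x _ hx =>
      have e := pres_lin h4 c hx pres_zero
      rw [add_zero, add_zero, add_zero] at e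
      have e1 : dx (c • x) = c • dx x := rfl
      have e2 : dX0 (c • x) = c • dX0 x := rfl
      have e3 : ∀ l, dX (c • x) l = c • dX x l := fun _ => rfl
      have e4 : (fun l => h l * (S.Φ l * dX (c • x) l * (S.Φ l)⁻¹) * (h l)⁻¹)
          = c • (fun l => h l * (S.Φ l * dX x l * (S.Φ l)⁻¹) * (h l)⁻¹) := by
        funext l
        rw [e3]
        simp only [Pi.smul_apply, Matrix.mul_smul, Matrix.smul_mul]
      rw [e1, e2, e4, Matrix.mul_smul, Matrix.smul_mul]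
      exact e
  have hΘ' : S.Θ' * S.Θ = 1 := mul_eq_one_comm.1 S.hΘ
  -- the given element
  have g1 : S.Θ * (S.Θ' * X0 * S.Θ) * S.Θ' = X0 := by
    calc S.Θ * (S.Θ' * X0 * S.Θ) * S.Θ' = (S.Θ * S.Θ') * X0 * (S.Θ * S.Θ') := by
          simp only [Matrix.mul_assoc]
      _ = X0 := by rw [S.hΘ, Matrix.one_mul, Matrix.mul_one]
  have g2 : ∀ l, S.Φ l * ((S.Φ l)⁻¹ * X l * S.Φ l) * (S.Φ l)⁻¹ = X l := by
    intro l
    calc S.Φ l * ((S.Φ l)⁻¹ * X l * S.Φ l) * (S.Φ l)⁻¹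
        = (S.Φ l * (S.Φ l)⁻¹) * X l * (S.Φ l * (S.Φ l)⁻¹) := by
          simp only [Matrix.mul_assoc]
      _ = X l := by rw [(phi_inv S l).1, Matrix.one_mul, Matrix.mul_one]
  have g3 : Pres a W x (S.Θ' * X0 * S.Θ) (fun l => (S.Φ l)⁻¹ * X l * S.Φ l) := by
    rw [pres_conj h1 S hS, g1]
    simp only [g2]
    exact hP
  have g4 := (hs (enc x (S.Θ' * X0 * S.Θ) (fun l => (S.Φ l)⁻¹ * X l * S.Φ l))).1 g3
  have g5 := key _ (h3 _ s _ g4)
  rw [dx_enc, dX0_enc, dX_enc, g1] at g5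
  simp only [g2] at g5
  exact g5

end Pool.Agent.DRG
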