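import Pool.Agent.DRG.Targets

/-!
# DRB: CARD, `F` is small
-/

set_option autoImplicit false

open Matrix

namespace Pool.Agent.DRG

open Pool.Agent.DRB (cx im toC TI tpow dtpow tens dtens Ix Fam tot Sp gsp Pres Fs Bad)
open Pool.Agent.DRB (T_JORD)

theorem p_CARD (h1 : T_JORD) (h2 : T_STAB) (h3 : T_SCAO) : T_CARD := by
  intro m
  obtain ⟨J, hJ⟩ := h1 m
  refine ⟨J * 2, fun S hSy hS => ?_⟩
  obtain ⟨A, hAF, h1A, hAmul, hAinv, hAcomm, hAconj, hcard⟩ :=
    hJ S.F S.one_mem S.mul_mem S.inv_mem
  set U : Submodule ℂ (Matrix (Fin m) (Fin m) ℂ) :=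
    Submodule.span ℂ (A : Set (Matrix (Fin m) (Fin m) ℂ)) with hU
  have hUF : ∀ f ∈ S.F, ∀ X ∈ U, f * X * f⁻¹ ∈ U := by
    intro f hf X hX
    induction hX using Submodule.span_induction with
    | mem x hx => exact Submodule.subset_span (hAconj x hx f hf)
    | zero => simp
    | add x y _ _ hx hy =>
      rw [Matrix.mul_add, Matrix.add_mul]
      exact U.add_mem hx hy
    | smul c x _ hx =>
      rw [Matrix.mul_smul, Matrix.smul_mul]
      exact U.smul_mem c hx
  have hUSp := h2 m S hS U hUF
  have hUc : ∀ X ∈ U, ∀ Y ∈ U, X * Y = Y * X := by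
    intro X hX
    induction hX using Submodule.span_induction with
    | mem x hx =>
      intro Y hY
      induction hY using Submodule.span_induction with
      | mem y hy => exact hAcomm x hx y hy
      | zero => simp
      | add y z _ _ hy hz => rw [Matrix.mul_add, Matrix.add_mul, hy, hz]
      | smul c y _ hy => rw [Matrix.mul_smul, Matrix.smul_mul, hy]
    | zero => intro Y _; simp
    | add x y _ _ hx hy =>
      intro Y hY
      rw [Matrix.mul_add, Matrix.add_mul, hx Y hY, hy Y hY]
    | smul c x _ hx =>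
      intro Y hY
      rw [Matrix.mul_smul, Matrix.smul_mul, hx Y hY]
  have hsc := h3 m (toC S.E) hSy U (fun X hX h hh => hUSp h hh X hX) hUc
  have hE0 : toC S.E ≠ 0 := by
    intro h0
    have h5 := S.hE
    rw [h0] at h5
    obtain ⟨b, hb⟩ := h5.exists_right_inv
    rw [Matrix.zero_mul] at hb
    have h6 := congrFun (congrFun hb ⟨0, S.hm⟩) ⟨0, S.hm⟩
    simp at h6
  have hA2 : A ⊆ {1, -1} := by
    intro x hx
    obtain ⟨c, hc⟩ := hsc x (Submodule.subset_span hx)
    have hxE : x * toC S.E * xᵀ = toC S.E := S.sp_mem x (hAF hx)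
    rw [hc, Matrix.transpose_smul, Matrix.transpose_one, Matrix.smul_mul, Matrix.smul_mul,
      Matrix.mul_smul, Matrix.one_mul, Matrix.mul_one, smul_smul] at hxE
    have h4 : (c * c - 1) • toC S.E = 0 := by
      rw [sub_smul, hxE, one_smul, sub_self]
    have h5 : c * c - 1 = 0 := (smul_eq_zero.mp h4).resolve_right hE0
    have h6 : (c - 1) * (c + 1) = 0 := by rw [← h5]; ring
    rw [Finset.mem_insert, Finset.mem_singleton]
    rcases mul_eq_zero.mp h6 with h7 | h7
    · left
      rw [hc, sub_eq_zero.mp h7, one_smul]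
    · right
      rw [hc, eq_neg_of_add_eq_zero_left h7, neg_smul, one_smul]
  have hA3 : A.card ≤ 2 := (Finset.card_le_card hA2).trans Finset.card_le_two
  exact hcard.trans (Nat.mul_le_mul_left J hA3)

end Pool.Agent.DRG
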