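import Pool.Agent.DRG.Targets

/-!
# Rational operators commuting with `F` commute with the symplectic group (COMR)
-/

set_option autoImplicit false

open Matrix

namespace Pool.Agent.DRG

open Pool.Agent.DRB (cx im toC TI tpow dtpow tens dtens Ix Fam tot Sp gsp Pres Fs Bad)
open Pool.Agent.DRB (T_FIXQ)

namespace COMR_

/-- expansion in matrix units -/
lemma expand {m : ℕ} (X : Matrix (Fin m) (Fin m) ℂ) :
    X = ∑ i, ∑ j, X i j • toC (Matrix.single i j (1 : ℚ)) := by
  conv_lhs => rw [Matrix.matrix_eq_sum_single X]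
  refine Finset.sum_congr rfl (fun i _ => Finset.sum_congr rfl (fun j _ => ?_))
  ext p q
  simp only [toC, Matrix.smul_apply, Matrix.map_apply, Matrix.single_apply, smul_eq_mul]
  split_ifs <;> simp

/-- expansion of a linear map -/
lemma lin {m : ℕ} (b : Matrix (Fin m) (Fin m) ℂ →ₗ[ℂ] Matrix (Fin m) (Fin m) ℂ)
    (X : Matrix (Fin m) (Fin m) ℂ) :
    b X = ∑ i, ∑ j, X i j • b (toC (Matrix.single i j (1 : ℚ))) := by
  conv_lhs => rw [expand X]
  simp only [map_sum, map_smul]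

/-- the polynomial of degree two given by an entry of `Ψ A Ψᵀ E'` -/
noncomputable def zp {m : ℕ} (A E' : Matrix (Fin m) (Fin m) ℚ) (p q : Fin m) :
    MvPolynomial (Fin m × Fin m) ℚ :=
  ∑ t, ∑ s, ∑ r, MvPolynomial.C (A r s * E' t q) * (MvPolynomial.X (p, r) * MvPolynomial.X (t, s))

lemma zp_deg {m : ℕ} (A E' : Matrix (Fin m) (Fin m) ℚ) (p q : Fin m) :
    (zp A E' p q).totalDegree ≤ 2 := by
  unfold zp
  refine MvPolynomial.totalDegree_finsetSum_le (fun t _ => ?_)
  refine MvPolynomial.totalDegree_finsetSum_le (fun s _ => ?_)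
  refine MvPolynomial.totalDegree_finsetSum_le (fun r _ => ?_)
  refine (MvPolynomial.totalDegree_mul _ _).trans ?_
  rw [MvPolynomial.totalDegree_C, zero_add]
  refine (MvPolynomial.totalDegree_mul _ _).trans ?_
  rw [MvPolynomial.totalDegree_X, MvPolynomial.totalDegree_X]

lemma zp_eval {m : ℕ} (A E' : Matrix (Fin m) (Fin m) ℚ) (Ψ : Matrix (Fin m) (Fin m) ℂ)
    (p q : Fin m) :
    MvPolynomial.aeval (fun x : Fin m × Fin m => Ψ x.1 x.2) (zp A E' p q) =
      (Ψ * toC A * Ψᵀ * toC E') p q := by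
  unfold zp
  simp only [map_sum, map_mul, MvPolynomial.aeval_C, MvPolynomial.aeval_X, Matrix.mul_apply,
    Matrix.map_apply, Matrix.transpose_apply, Finset.sum_mul, eq_ratCast]
  refine Finset.sum_congr rfl (fun t _ => Finset.sum_congr rfl (fun s _ =>
    Finset.sum_congr rfl (fun r _ => ?_)))
  ring

end COMR_

open COMR_ in
theorem p_COMR (h1 : T_FIXQ) : T_COMR := by
  intro m S hBD b hb hF h hh X
  classical
  -- the rational inverse of `E`
  have hEu := S.hE
  have hEdet : S.E.det ≠ 0 := by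
    intro h0
    have e : (toC S.E).det = ((S.E.det : ℚ) : ℂ) := by
      exact ((Rat.castHom ℂ).map_det S.E).symm
    rw [Matrix.isUnit_iff_isUnit_det, e, h0] at hEu
    simp at hEu
  have hEu' : IsUnit S.E := by
    rw [Matrix.isUnit_iff_isUnit_det]; exact isUnit_iff_ne_zero.2 hEdet
  set Ei : Matrix (Fin m) (Fin m) ℚ := S.E⁻¹ with hEi
  have tmul : ∀ A B : Matrix (Fin m) (Fin m) ℚ, toC (A * B) = toC A * toC B := by
    intro A B
    ext p q
    simp only [toC, Matrix.map_apply, Matrix.mul_apply, Rat.cast_sum, Rat.cast_mul]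
  have tone : toC (1 : Matrix (Fin m) (Fin m) ℚ) = 1 := by
    ext i j
    simp only [toC, Matrix.map_apply, Matrix.one_apply]
    split_ifs <;> simp
  have EEi : toC S.E * toC Ei = 1 := by
    rw [← tmul, hEi, Matrix.mul_nonsing_inv _ ((Matrix.isUnit_iff_isUnit_det _).1 hEu'), tone]
  have EiE : toC Ei * toC S.E = 1 := by
    rw [← tmul, hEi, Matrix.nonsing_inv_mul _ ((Matrix.isUnit_iff_isUnit_det _).1 hEu'), tone]
  -- `Φ` is invertible
  have hΦ1 : S.Φ * (S.κ⁻¹ • (toC S.Q * S.Φᵀ * toC Ei)) = 1 := by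
    rw [Matrix.mul_smul, ← Matrix.mul_assoc, ← Matrix.mul_assoc, S.rel, Matrix.smul_mul, EEi,
      smul_smul, inv_mul_cancel₀ S.hκ, one_smul]
  set Φi : Matrix (Fin m) (Fin m) ℂ := S.κ⁻¹ • (toC S.Q * S.Φᵀ * toC Ei) with hΦi
  have hΦ2 : Φi * S.Φ = 1 := mul_eq_one_comm.1 hΦ1
  have hinv : S.Φ⁻¹ = Φi := Matrix.inv_eq_right_inv hΦ1
  have hQΦ : toC S.Q * S.Φᵀ * toC Ei = S.κ • Φi := by
    rw [hΦi, smul_smul, mul_inv_cancel₀ S.hκ, one_smul]
  -- `b` commutes with `σ`
  choose β hβ using fun i j => hb (Matrix.single i j 1)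
  have hbσ : ∀ (σ : ℂ ≃+* ℂ) (Z : Matrix (Fin m) (Fin m) ℂ), (b Z).map σ = b (Z.map σ) := by
    intro σ Z
    rw [lin b Z, lin b (Z.map σ)]
    ext p q
    simp only [Matrix.map_apply, Matrix.sum_apply, Matrix.smul_apply, smul_eq_mul, map_sum, map_mul,
      hβ, map_ratCast]
  -- the rational matrices `B(X)`
  have hB : ∀ A : Matrix (Fin m) (Fin m) ℚ, ∃ Y : Matrix (Fin m) (Fin m) ℚ,
      Φi * b (S.Φ * toC A * Φi) * S.Φ = toC Y := by
    intro A
    have key : ∀ σ : ℂ ≃+* ℂ, (Φi * b (S.Φ * toC A * Φi) * S.Φ).map σ =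
        Φi * b (S.Φ * toC A * Φi) * S.Φ := by
      intro σ
      obtain ⟨g, hg, s, hs, hgΦ⟩ := S.sig_phi σ
      have hgu := (S.inv_mem g hg).1
      have gg : g * g⁻¹ = 1 := Matrix.mul_nonsing_inv _ ((Matrix.isUnit_iff_isUnit_det _).1 hgu)
      have gg' : g⁻¹ * g = 1 := Matrix.nonsing_inv_mul _ ((Matrix.isUnit_iff_isUnit_det _).1 hgu)
      have mapmul : ∀ U V : Matrix (Fin m) (Fin m) ℂ, (U * V).map σ = U.map σ * V.map σ := by
        intro U V
        ext p q
        simp only [Matrix.map_apply, Matrix.mul_apply, map_sum, map_mul]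
      have hΦiσ : Φi.map σ = s⁻¹ • (Φi * g⁻¹) := by
        have e1 : S.Φ.map σ * Φi.map σ = 1 := by
          rw [← mapmul, hΦ1]
          ext p q
          simp only [Matrix.map_apply, Matrix.one_apply]
          split_ifs <;> simp
        have e2 : (s⁻¹ • (Φi * g⁻¹)) * S.Φ.map σ = 1 := by
          rw [hgΦ, Matrix.smul_mul, Matrix.mul_smul, smul_smul, inv_mul_cancel₀ hs, one_smul,
            Matrix.mul_assoc, ← Matrix.mul_assoc g⁻¹, gg', Matrix.one_mul, hΦ2]
        calc Φi.map σ = ((s⁻¹ • (Φi * g⁻¹)) * S.Φ.map σ) * Φi.map σ := by rw [e2, Matrix.one_mul]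
          _ = _ := by rw [Matrix.mul_assoc, e1, Matrix.mul_one]
      have hAσ : (toC A).map σ = toC A := by
        ext p q
        simp only [Matrix.map_apply, map_ratCast]
      have e3 : S.Φ.map σ * toC A * Φi.map σ = g * (S.Φ * toC A * Φi) * g⁻¹ := by
        rw [hgΦ, hΦiσ]
        simp only [Matrix.smul_mul, Matrix.mul_smul, smul_smul, Matrix.mul_assoc]
        rw [inv_mul_cancel₀ hs, one_smul]
      rw [mapmul, mapmul, hbσ, mapmul, mapmul, hAσ, e3, hF g hg, hΦiσ, hgΦ]
      simp only [Matrix.smul_mul, Matrix.mul_smul, smul_smul, Matrix.mul_assoc]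
      rw [mul_inv_cancel₀ hs, one_smul, ← Matrix.mul_assoc g⁻¹ g, gg', Matrix.one_mul,
        ← Matrix.mul_assoc g⁻¹ g, gg', Matrix.one_mul]
    have key2 : ∀ p q, ∃ y : ℚ, (Φi * b (S.Φ * toC A * Φi) * S.Φ) p q = (y : ℂ) := by
      intro p q
      refine h1 _ (fun σ => ?_)
      have := congrFun (congrFun (key σ) p) q
      simpa [Matrix.map_apply] using this
    choose Y hY using key2
    exact ⟨Matrix.of Y, by ext p q; simp [hY]⟩
  -- symplectic elements
  have hhE : h * toC S.E * hᵀ = toC S.E := hh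
  have hh1 : h * (toC S.E * hᵀ * toC Ei) = 1 := by
    rw [← Matrix.mul_assoc, ← Matrix.mul_assoc, hhE, EEi]
  have hhinv : h⁻¹ = toC S.E * hᵀ * toC Ei := Matrix.inv_eq_right_inv hh1
  have hhT : hᵀ * toC Ei = toC Ei * h⁻¹ := by
    rw [hhinv, ← Matrix.mul_assoc, ← Matrix.mul_assoc, EiE, Matrix.one_mul]
  -- the relations
  have hrel : ∀ A : Matrix (Fin m) (Fin m) ℚ,
      h * b (S.Φ * toC A * Φi) * h⁻¹ = b (h * (S.Φ * toC A * Φi) * h⁻¹) := by
    intro A
    obtain ⟨Y, hY⟩ := hB A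
    have hY2 : b (S.Φ * toC A * Φi) = S.Φ * toC Y * Φi := by
      rw [← hY]
      generalize b (S.Φ * toC A * Φi) = V
      rw [← Matrix.mul_assoc, ← Matrix.mul_assoc, hΦ1, Matrix.one_mul, Matrix.mul_assoc, hΦ1,
        Matrix.mul_one]
    -- evaluation of both sides of the relation
    have ev : ∀ (k : Matrix (Fin m) (Fin m) ℂ), k * toC S.E * kᵀ = toC S.E →
        ∀ C : Matrix (Fin m) (Fin m) ℚ,
        (k * S.Φ) * toC (C * S.Q) * (k * S.Φ)ᵀ * toC Ei = S.κ • (k * (S.Φ * toC C * Φi) * k⁻¹) := by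
      intro k hk C
      have hk1 : k * (toC S.E * kᵀ * toC Ei) = 1 := by
        rw [← Matrix.mul_assoc, ← Matrix.mul_assoc, hk, EEi]
      have hkinv : k⁻¹ = toC S.E * kᵀ * toC Ei := Matrix.inv_eq_right_inv hk1
      have hkT : kᵀ * toC Ei = toC Ei * k⁻¹ := by
        rw [hkinv, ← Matrix.mul_assoc, ← Matrix.mul_assoc, EiE, Matrix.one_mul]
      calc (k * S.Φ) * toC (C * S.Q) * (k * S.Φ)ᵀ * toC Ei
          = k * S.Φ * toC C * (toC S.Q * S.Φᵀ * (kᵀ * toC Ei)) := by
            rw [Matrix.transpose_mul, tmul]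
            simp only [Matrix.mul_assoc]
        _ = k * S.Φ * toC C * ((toC S.Q * S.Φᵀ * toC Ei) * k⁻¹) := by
            rw [hkT]
            simp only [Matrix.mul_assoc]
        _ = S.κ • (k * (S.Φ * toC C * Φi) * k⁻¹) := by
            rw [hQΦ]
            simp only [Matrix.mul_assoc, Matrix.smul_mul, Matrix.mul_smul]
    have main : ∀ p q, (S.κ • (h * (S.Φ * toC Y * Φi) * h⁻¹)) p q =
        (b (S.κ • (h * (S.Φ * toC A * Φi) * h⁻¹))) p q := by
      intro p q
      set P : MvPolynomial (Fin m × Fin m) ℚ := zp (Y * S.Q) Ei p q -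
        ∑ i, ∑ j, MvPolynomial.C (β i j p q) * zp (A * S.Q) Ei i j with hP
      have hdeg : P.totalDegree ≤ 2 := by
        refine (MvPolynomial.totalDegree_sub _ _).trans (max_le (zp_deg _ _ _ _) ?_)
        refine MvPolynomial.totalDegree_finsetSum_le (fun i _ => ?_)
        refine MvPolynomial.totalDegree_finsetSum_le (fun j _ => ?_)
        refine (MvPolynomial.totalDegree_mul _ _).trans ?_
        rw [MvPolynomial.totalDegree_C, zero_add]
        exact zp_deg _ _ _ _
      have hev : ∀ k : Matrix (Fin m) (Fin m) ℂ, k * toC S.E * kᵀ = toC S.E →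
          MvPolynomial.aeval (fun x : Fin m × Fin m => (k * S.Φ) x.1 x.2) P =
          (S.κ • (k * (S.Φ * toC Y * Φi) * k⁻¹)) p q -
          (b (S.κ • (k * (S.Φ * toC A * Φi) * k⁻¹))) p q := by
        intro k hk
        rw [hP, map_sub, zp_eval, ev k hk Y]
        congr 1
        rw [lin b (S.κ • (k * (S.Φ * toC A * Φi) * k⁻¹))]
        simp only [map_sum, map_mul, MvPolynomial.aeval_C, zp_eval, ev k hk A, Matrix.sum_apply,
          hβ, eq_ratCast]
        refine Finset.sum_congr rfl (fun i _ => Finset.sum_congr rfl (fun j _ => ?_))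
        simp only [Matrix.smul_apply, Matrix.map_apply, smul_eq_mul]
        ring
      have h0 : MvPolynomial.aeval (fun x : Fin m × Fin m => S.Φ x.1 x.2) P = 0 := by
        have e := hev 1 (by rw [Matrix.transpose_one, Matrix.one_mul, Matrix.mul_one])
        rw [Matrix.one_mul] at e
        rw [e, inv_one, Matrix.one_mul, Matrix.mul_one, Matrix.one_mul, Matrix.mul_one, map_smul,
          hY2, sub_self]
      have h2 := hBD P hdeg h0 h hh
      rw [hev h hhE] at h2
      exact sub_eq_zero.1 h2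
    have main2 : S.κ • (h * (S.Φ * toC Y * Φi) * h⁻¹) =
        S.κ • b (h * (S.Φ * toC A * Φi) * h⁻¹) := by
      rw [← map_smul]
      ext p q
      exact main p q
    rw [hY2]
    exact smul_right_injective _ S.hκ main2
  -- linearity
  have hW : X = S.Φ * (Φi * X * S.Φ) * Φi := by
    rw [← Matrix.mul_assoc, ← Matrix.mul_assoc, hΦ1, Matrix.one_mul, Matrix.mul_assoc, hΦ1,
      Matrix.mul_one]
  have hex : ∀ W : Matrix (Fin m) (Fin m) ℂ, S.Φ * W * Φi =
      ∑ i, ∑ j, W i j • (S.Φ * toC (Matrix.single i j (1 : ℚ)) * Φi) := by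
    intro W
    conv_lhs => rw [expand W]
    simp only [Matrix.mul_sum, Matrix.sum_mul, Matrix.mul_smul, Matrix.smul_mul]
  rw [hW, hex]
  simp only [Matrix.mul_sum, Matrix.sum_mul, Matrix.mul_smul, Matrix.smul_mul, map_sum, map_smul]
  refine Finset.sum_congr rfl (fun i _ => Finset.sum_congr rfl (fun j _ => ?_))
  rw [hrel]

end Pool.Agent.DRG
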