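import Pool.Agent.DRG.Targets
import Pool.Agent.DRG.ADST

/-!
# DRB-CORE: relations of bounded degree determine all sub-structures
-/

set_option autoImplicit false

namespace Pool.Agent.DRG

open Pool.Agent.DRB (cx im toC TI tpow dtpow tens dtens Ix Fam tot Sp gsp Pres Fs Bad)
open Pool.Agent.DRB (T_FFIN T_TMUL)

open Matrix

namespace CORE_

theorem im_one {J : Type} [Fintype J] [DecidableEq J] (U : Submodule ℂ (J → ℂ)) :
    im (1 : Matrix J J ℂ) U = U := by
  unfold im
  rw [Matrix.mulVecLin_one, Submodule.map_id]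

theorem im_mul {J : Type} [Fintype J] (M N : Matrix J J ℂ) (U : Submodule ℂ (J → ℂ)) :
    im (M * N) U = im M (im N U) := by
  unfold im
  rw [Matrix.mulVecLin_mul, Submodule.map_comp]

theorem tot_mul {k n : ℕ} {d : Fin n → ℕ} (X0 Y0 : Matrix (Fin k) (Fin k) ℂ) (X Y : Fam d) :
    tot X0 X * tot Y0 Y = tot (X0 * Y0) (fun l => X l * Y l) := by
  unfold tot
  rw [Matrix.fromBlocks_multiply, Matrix.blockDiagonal'_mul]
  simp

theorem tot_one {k n : ℕ} {d : Fin n → ℕ} :
    tot (1 : Matrix (Fin k) (Fin k) ℂ) (1 : Fam d) = 1 := by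
  unfold tot
  rw [Matrix.blockDiagonal'_one, Matrix.fromBlocks_one]

theorem one_mem_Sp {m : ℕ} (E : Matrix (Fin m) (Fin m) ℂ) :
    (1 : Matrix (Fin m) (Fin m) ℂ) ∈ Sp E := by
  show 1 * E * 1ᵀ = E
  simp

theorem update_mem {n : ℕ} {d : Fin n → ℕ} (E : Fam d) (l0 : Fin n)
    (g : Matrix (Fin (d l0)) (Fin (d l0)) ℂ) (hg : g ∈ Sp (E l0)) :
    ∀ l, (Function.update (1 : Fam d) l0 g) l ∈ Sp (E l) := by
  intro l
  by_cases h : l = l0
  · subst h
    rw [Function.update_self]
    exact hg
  · rw [Function.update_of_ne h]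
    exact one_mem_Sp _

/-- relations of bounded degree for one factor -/
theorem bd_one {k n : ℕ} {d : Fin n → ℕ} {D D' : ℕ} (hD : D' ≤ D) (S : Setup k n d)
    (hBD : BD D S) (l0 : Fin n) (P : MvPolynomial (Fin (d l0) × Fin (d l0)) ℚ)
    (hP : P.totalDegree ≤ D')
    (h0 : MvPolynomial.aeval (fun p : Fin (d l0) × Fin (d l0) => S.Φ l0 p.1 p.2) P = 0)
    (g : Matrix (Fin (d l0)) (Fin (d l0)) ℂ) (hg : g ∈ Sp (toC (S.E l0))) :
    MvPolynomial.aeval (fun p : Fin (d l0) × Fin (d l0) => (g * S.Φ l0) p.1 p.2) P = 0 := by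
  set f : Fin (d l0) × Fin (d l0) → Vars k d := fun p => Sum.inr ⟨l0, p⟩ with hf
  have h1 := hBD (MvPolynomial.rename f P)
    ((MvPolynomial.totalDegree_rename_le f P).trans (hP.trans hD))
    (by
      rw [MvPolynomial.aeval_rename]
      exact h0)
    (Function.update 1 l0 g) (update_mem (fun l => toC (S.E l)) l0 g hg)
  rw [MvPolynomial.aeval_rename] at h1
  have h2 : (pt S.κ S.Θ S.Θ' (fun l => (Function.update (1 : Fam d) l0 g) l * S.Φ l)) ∘ f =
      fun p : Fin (d l0) × Fin (d l0) => (g * S.Φ l0) p.1 p.2 := by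
    funext p
    simp only [Function.comp, hf, pt, Sum.elim_inr, Function.update_self]
  rw [h2] at h1
  exact h1

end CORE_

open CORE_ in
/-- CORE: relations of bounded degree determine all sub-structures. -/
theorem p_CORE (h1 : T_DICH) (h2 : T_FGRP) (h3 : T_FSIG) (h4 : T_FALG) (h5 : T_FFIN)
    (h6 : T_MAIN) (h7 : T_TMUL) : T_CORE := by
  classical
  intro n d
  choose D' hD' using fun l : Fin n => h6 (d l)
  refine ⟨max (n + 2) (Finset.univ.sup D'), ?_⟩
  intro k S hBD r a c W W' hsub h hh
  have hDl : ∀ l, D' l ≤ max (n + 2) (Finset.univ.sup D') := fun l =>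
    (Finset.le_sup (f := D') (Finset.mem_univ l)).trans (le_max_right _ _)
  -- no factor is bad
  have hbad : ∀ l0, ¬ Bad a W' S.E l0 := by
    intro l0 hb
    have hE := ADST_.ok_unit (S.hE l0)
    have halg := h4 k n d r a W' S.E l0 hE (S.hd l0) hb
    have hfin := h5 k n d r a W' S.E l0 halg
    obtain ⟨g1, g2, g3, g4⟩ := h2 k n d r a W' S.E l0 hE
    have hsig := h3 k n d S r a c W W' hsub l0
    let T : FinSys (d l0) :=
      { κ := S.κ l0
        Q := S.Q l0
        E := S.E l0
        Φ := S.Φ l0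
        F := hfin.toFinset
        hm := S.hd l0
        hκ := S.hκ l0
        hE := hE
        rel := S.rel l0
        one_mem := hfin.mem_toFinset.2 g1
        mul_mem := fun f hf g hg => hfin.mem_toFinset.2
          (g2 f (hfin.mem_toFinset.1 hf) g (hfin.mem_toFinset.1 hg))
        inv_mem := fun f hf => ⟨(g3 f (hfin.mem_toFinset.1 hf)).1,
          hfin.mem_toFinset.2 (g3 f (hfin.mem_toFinset.1 hf)).2⟩
        sp_mem := fun f hf => (hfin.mem_toFinset.1 hf).1
        sig_mem := fun σ f hf => hfin.mem_toFinset.2 (g4 σ f (hfin.mem_toFinset.1 hf))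
        sig_phi := fun σ => by
          obtain ⟨g, hg, s, hs, he⟩ := hsig σ
          exact ⟨g, hfin.mem_toFinset.2 hg, s, hs, he⟩ }
    refine hD' l0 T (S.hE l0) ?_
    intro P hP h0 g hg
    exact bd_one (hDl l0) S hBD l0 P hP h0 g hg
  -- stability under one factor
  have hBD3 : BD (n + 2) S := fun P hP => hBD P (hP.trans (le_max_left _ _))
  have hone : ∀ l0, ∀ g ∈ SG (toC (S.E l0)),
      im (tens a 1 (tot 1 (Function.update 1 l0 g))) (cx W') = cx W' := by
    intro l0
    rcases h1 k n d S hBD3 r a c W W' hsub l0 with hb | hg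
    · exact absurd hb (hbad l0)
    · exact hg
  -- products
  have hprod : ∀ s : Finset (Fin n),
      im (tens a 1 (tot 1 (fun l => if l ∈ s then h l else 1))) (cx W') = cx W' := by
    intro s
    induction s using Finset.induction_on with
    | empty =>
      have e1 : (fun l => if l ∈ (∅ : Finset (Fin n)) then h l else 1) = (1 : Fam d) := by
        funext l
        simp
      rw [e1, tot_one, (h7 (Ix k d) r a 1 1 1 1).2, im_one]
    | insert l0 s hl0 ih =>
      have e1 : tot (1 : Matrix (Fin k) (Fin k) ℂ)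
          (fun l => if l ∈ insert l0 s then h l else 1) =
          tot 1 (Function.update 1 l0 (h l0)) * tot 1 (fun l => if l ∈ s then h l else 1) := by
        rw [tot_mul, Matrix.mul_one]
        congr 1
        funext l
        by_cases hl : l = l0
        · subst hl
          rw [Function.update_self, if_pos (Finset.mem_insert_self _ _), if_neg hl0,
            Matrix.mul_one]
        · rw [Function.update_of_ne hl]
          have : (l ∈ insert l0 s) ↔ l ∈ s := by
            rw [Finset.mem_insert]
            exact or_iff_right hl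
          by_cases hls : l ∈ s
          · rw [if_pos (this.2 hls), if_pos hls]
            exact (Matrix.one_mul _).symm
          · rw [if_neg (fun h => hls (this.1 h)), if_neg hls]
            exact (Matrix.one_mul _).symm
      have e2 := (h7 (Ix k d) r a 1 1 (tot 1 (Function.update 1 l0 (h l0)))
        (tot 1 (fun l => if l ∈ s then h l else 1))).1
      have e3 : (fun i : Fin r => (1 : Fin r → ℂ) i * (1 : Fin r → ℂ) i) = 1 := by
        funext i
        simp
      rw [e3] at e2
      rw [e1, ← e2, im_mul, ih, hone l0 (h l0) (hh l0)]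
  have h8 := hprod Finset.univ
  have h9 : (fun l => if l ∈ (Finset.univ : Finset (Fin n)) then h l else 1) = h := by
    funext l
    simp
  rw [h9] at h8
  exact h8

end Pool.Agent.DRG
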