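import Pool.Agent.DRB.Targets
import Pool.Agent.MUM.OREF
import Pool.Agent.MUM.YODE
import Pool.Agent.GFam.Targets2

/-!
# Sub-de Rham-Betti structures, symplectic and orthogonal, several weights (MP_5d33ca_ag)

Generalisation of `Pool/Agent/DRB` (helper2). Proofs in `Blueprint.lean.txt`.
-/

set_option autoImplicit false

open Matrix

namespace Pool.Agent.DRG

open Pool.Agent.DRB (cx im toC TI tpow dtpow tens dtens Ix Fam tot Sp gsp Pres Fs Bad)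

/-! ### Definitions -/

/-- symmetric and invertible, of size at least `3` -/
def Sy {m : ℕ} (E : Matrix (Fin m) (Fin m) ℂ) : Prop := Eᵀ = E ∧ IsUnit E ∧ 3 ≤ m

/-- the admissible forms -/
def Ok {m : ℕ} (E : Matrix (Fin m) (Fin m) ℂ) : Prop := DRB.Alt E ∨ Sy E

/-- `Sp(E)` for alternating `E`, `SO(E)` for symmetric `E` -/
def SG {m : ℕ} (E : Matrix (Fin m) (Fin m) ℂ) : Set (Matrix (Fin m) (Fin m) ℂ) :=
  {h | h ∈ Sp E ∧ h.det = 1}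

/-- the variables: the `κ l`, the entries of `Θ` and of its inverse, and those of the `Φ l` -/
abbrev Vars (k : ℕ) {n : ℕ} (d : Fin n → ℕ) : Type :=
  (Fin n ⊕ ((Fin k × Fin k) ⊕ (Fin k × Fin k))) ⊕ ((l : Fin n) × (Fin (d l) × Fin (d l)))

/-- the point with the given coordinates -/
def pt {k n : ℕ} {d : Fin n → ℕ} (κ : Fin n → ℂ) (Θ Θ' : Matrix (Fin k) (Fin k) ℂ)
    (Φ : Fam d) : Vars k d → ℂ :=
  Sum.elim (Sum.elim κ (Sum.elim (fun p => Θ p.1 p.2) (fun p => Θ' p.1 p.2)))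
    (fun q => Φ q.1 q.2.1 q.2.2)

/-- the comparison matrices `Θ` of `M_0` and `Φ l` of `V_l`, with polarisations of `V_l` -/
structure Setup (k n : ℕ) (d : Fin n → ℕ) where
  /-- the periods of the Tate structures -/
  κ : Fin n → ℂ
  /-- the comparison matrix of `M_0` -/
  Θ : Matrix (Fin k) (Fin k) ℂ
  /-- its inverse -/
  Θ' : Matrix (Fin k) (Fin k) ℂ
  /-- the de Rham forms -/
  Q : ∀ l, Matrix (Fin (d l)) (Fin (d l)) ℚ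
  /-- the Betti forms -/
  E : ∀ l, Matrix (Fin (d l)) (Fin (d l)) ℚ
  /-- the comparison matrices -/
  Φ : Fam d
  hd : ∀ l, 1 ≤ d l
  hκ : ∀ l, κ l ≠ 0
  hΘ : Θ * Θ' = 1
  hE : ∀ l, Ok (toC (E l))
  rel : ∀ l, Φ l * toC (Q l) * (Φ l)ᵀ = κ l • toC (E l)

/-- relations of degree at most `D` are stable under the product of the isometry groups -/
def BD {k n : ℕ} {d : Fin n → ℕ} (D : ℕ) (S : Setup k n d) : Prop :=
  ∀ P : MvPolynomial (Vars k d) ℚ, P.totalDegree ≤ D →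
    MvPolynomial.aeval (pt S.κ S.Θ S.Θ' S.Φ) P = 0 →
    ∀ h : Fam d, (∀ l, h l ∈ Sp (toC (S.E l))) →
      MvPolynomial.aeval (pt S.κ S.Θ S.Θ' (fun l => h l * S.Φ l)) P = 0

/-- `(W, W')` is a sub-structure of `⊕ i, c i • V ^ ⊗ (a i)` -/
def IsSub {k n : ℕ} {d : Fin n → ℕ} (S : Setup k n d) {r : ℕ} (a : Fin r → ℕ)
    (c : Fin r → ℂ) (W W' : Submodule ℚ (TI (Ix k d) a → ℚ)) : Prop :=
  (∀ i, c i ≠ 0) ∧ im (tens a c (tot S.Θ S.Φ)) (cx W) = cx W'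

/-! ### New linear algebra -/

/-- EXPC: one-parameter groups. -/
def T_EXPC : Prop := ∀ (I : Type) [Fintype I] [DecidableEq I] (r : ℕ) (a : Fin r → ℕ)
  (γ : ℂ → Matrix I I ℂ) (X : Matrix I I ℂ) (U : Submodule ℂ (TI I a → ℂ)), γ 0 = 1 →
  (∀ t i j, HasDerivAt (fun s => γ s i j) ((γ t * X) i j) t) →
  (∀ v ∈ U, (dtens a 0 X) *ᵥ v ∈ U) → ∀ t : ℂ, ∀ v ∈ U, (tens a 1 (γ t)) *ᵥ v ∈ U

/-- GSO: the special orthogonal group is generated by plane rotations. -/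
def T_GSO : Prop := ∀ (m : ℕ) (J g : MUM.Mat m), 2 ≤ m → Jᵀ = J → J.det ≠ 0 →
  gᵀ * J * g = J → g.det = 1 → ∀ G : Submonoid (MUM.Mat m),
  (∀ v b : Fin m → ℂ, v ⬝ᵥ J.mulVec v = 1 → b ⬝ᵥ J.mulVec b = 1 → v ⬝ᵥ J.mulVec b = 0 →
    ∀ t : ℂ, MUM.OREF_.gam (MUM.wd J v b) t ∈ G) → g ∈ G

/-- TRVO: a subspace stable under the isometry groups which has an element with a nonscalar
`l0`-component in `gsp` contains the Lie algebra `so (E l0)`. -/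
def T_TRVO : Prop := ∀ (r k n : ℕ) (d : Fin n → ℕ) (E : Fam d) (l0 : Fin n), Sy (E l0) →
  ∀ U : Submodule ℂ ((Fin r → ℂ) × Matrix (Fin k) (Fin k) ℂ × Fam d),
  (∀ p ∈ U, ∀ h ∈ Sp (E l0),
    (p.1, p.2.1, Function.update p.2.2 l0 (h * p.2.2 l0 * h⁻¹)) ∈ U) →
  ∀ p ∈ U, p.2.2 l0 ∈ gsp (E l0) → (¬ ∃ c : ℂ, p.2.2 l0 = c • 1) →
  ∀ x y : Fin (d l0) → ℂ, ((0 : Fin r → ℂ), (0 : Matrix (Fin k) (Fin k) ℂ),
    (Pi.single l0 (MUM.wd (E l0)⁻¹ x y) : Fam d)) ∈ U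

/-- SCAO: a commutative space of matrices stable under the orthogonal group is scalar. -/
def T_SCAO : Prop := ∀ (m : ℕ) (E : Matrix (Fin m) (Fin m) ℂ), Sy E →
  ∀ U : Submodule ℂ (Matrix (Fin m) (Fin m) ℂ), (∀ X ∈ U, ∀ h ∈ Sp E, h * X * h⁻¹ ∈ U) →
  (∀ X ∈ U, ∀ Y ∈ U, X * Y = Y * X) → ∀ X ∈ U, ∃ c : ℂ, X = c • 1

/-! ### Stability of the stabiliser -/

/-- ADST: the elements preserving `W'` are stable under the isometry groups. -/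
def T_ADST : Prop := ∀ (k n : ℕ) (d : Fin n → ℕ) (S : Setup k n d), BD (n + 2) S →
  ∀ (r : ℕ) (a : Fin r → ℕ) (c : Fin r → ℂ) (W W' : Submodule ℚ (TI (Ix k d) a → ℚ)),
  IsSub S a c W W' → ∀ x X0 X, Pres a W' x X0 X →
  ∀ h : Fam d, (∀ l, h l ∈ Sp (toC (S.E l))) →
    Pres a W' x X0 (fun l => h l * X l * (h l)⁻¹)

/-- DICH: either `l0` is bad or `W'` is stable under the `l0`-th group. -/
def T_DICH : Prop := ∀ (k n : ℕ) (d : Fin n → ℕ) (S : Setup k n d), BD (n + 2) S →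
  ∀ (r : ℕ) (a : Fin r → ℕ) (c : Fin r → ℂ) (W W' : Submodule ℚ (TI (Ix k d) a → ℚ)),
  IsSub S a c W W' → ∀ l0 : Fin n, Bad a W' S.E l0 ∨
    ∀ h ∈ SG (toC (S.E l0)),
      im (tens a 1 (tot 1 (Function.update 1 l0 h))) (cx W') = cx W'

/-! ### The finite group -/

/-- FGRP: `F` is a group stable under field automorphisms. -/
def T_FGRP : Prop := ∀ (k n : ℕ) (d : Fin n → ℕ) (r : ℕ) (a : Fin r → ℕ)
  (W' : Submodule ℚ (TI (Ix k d) a → ℚ)) (E : ∀ l, Matrix (Fin (d l)) (Fin (d l)) ℚ)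
  (l0 : Fin n), IsUnit (toC (E l0)) →
  (1 : Matrix (Fin (d l0)) (Fin (d l0)) ℂ) ∈ Fs a W' E l0 ∧
  (∀ f ∈ Fs a W' E l0, ∀ g ∈ Fs a W' E l0, f * g ∈ Fs a W' E l0) ∧
  (∀ f ∈ Fs a W' E l0, IsUnit f ∧ f⁻¹ ∈ Fs a W' E l0) ∧
  ∀ σ : ℂ ≃+* ℂ, ∀ f ∈ Fs a W' E l0, f.map σ ∈ Fs a W' E l0

/-- FSIG: the conjugates of the comparison matrix. -/
def T_FSIG : Prop := ∀ (k n : ℕ) (d : Fin n → ℕ) (S : Setup k n d)
  (r : ℕ) (a : Fin r → ℕ) (c : Fin r → ℂ) (W W' : Submodule ℚ (TI (Ix k d) a → ℚ)),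
  IsSub S a c W W' → ∀ (l0 : Fin n) (σ : ℂ ≃+* ℂ), ∃ g ∈ Fs a W' S.E l0, ∃ s : ℂ, s ≠ 0 ∧
    (S.Φ l0).map σ = s • (g * S.Φ l0)

/-- FALG: the entries of the elements of `F` are algebraic if `l0` is bad. -/
def T_FALG : Prop := ∀ (k n : ℕ) (d : Fin n → ℕ) (r : ℕ) (a : Fin r → ℕ)
  (W' : Submodule ℚ (TI (Ix k d) a → ℚ)) (E : ∀ l, Matrix (Fin (d l)) (Fin (d l)) ℚ)
  (l0 : Fin n), IsUnit (toC (E l0)) → 1 ≤ d l0 → Bad a W' E l0 →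
  ∀ g ∈ Fs a W' E l0, ∀ i j, IsAlgebraic ℚ (g i j)

/-! ### The contradiction -/

/-- one comparison matrix with a finite group containing the conjugates of it -/
structure FinSys (m : ℕ) where
  /-- the period of the Tate structure -/
  κ : ℂ
  /-- the de Rham form -/
  Q : Matrix (Fin m) (Fin m) ℚ
  /-- the Betti form -/
  E : Matrix (Fin m) (Fin m) ℚ
  /-- the comparison matrix -/
  Φ : Matrix (Fin m) (Fin m) ℂ
  /-- the finite group -/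
  F : Finset (Matrix (Fin m) (Fin m) ℂ)
  hm : 1 ≤ m
  hκ : κ ≠ 0
  hE : IsUnit (toC E)
  rel : Φ * toC Q * Φᵀ = κ • toC E
  one_mem : 1 ∈ F
  mul_mem : ∀ f ∈ F, ∀ g ∈ F, f * g ∈ F
  inv_mem : ∀ f ∈ F, IsUnit f ∧ f⁻¹ ∈ F
  sp_mem : ∀ f ∈ F, f ∈ Sp (toC E)
  sig_mem : ∀ σ : ℂ ≃+* ℂ, ∀ f ∈ F, f.map σ ∈ F
  sig_phi : ∀ σ : ℂ ≃+* ℂ, ∃ g ∈ F, ∃ s : ℂ, s ≠ 0 ∧ Φ.map σ = s • (g * Φ)

/-- relations of degree at most `D` are stable under the isometry group -/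
def BD1 {m : ℕ} (D : ℕ) (S : FinSys m) : Prop :=
  ∀ P : MvPolynomial (Fin m × Fin m) ℚ, P.totalDegree ≤ D →
    MvPolynomial.aeval (fun p => S.Φ p.1 p.2) P = 0 → ∀ h ∈ Sp (toC S.E),
      MvPolynomial.aeval (fun p => (h * S.Φ) p.1 p.2) P = 0

/-- COMR: rational operators commuting with `F` commute with the isometry group. -/
def T_COMR : Prop := ∀ (m : ℕ) (S : FinSys m), BD1 2 S →
  ∀ b : Matrix (Fin m) (Fin m) ℂ →ₗ[ℂ] Matrix (Fin m) (Fin m) ℂ,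
  (∀ X : Matrix (Fin m) (Fin m) ℚ, ∃ Y : Matrix (Fin m) (Fin m) ℚ, b (toC X) = toC Y) →
  (∀ f ∈ S.F, ∀ X, b (f * X * f⁻¹) = f * b X * f⁻¹) →
  ∀ h ∈ Sp (toC S.E), ∀ X, b (h * X * h⁻¹) = h * b X * h⁻¹

/-- COMM: operators commuting with `F` commute with the isometry group. -/
def T_COMM : Prop := ∀ (m : ℕ) (S : FinSys m), BD1 2 S →
  ∀ b : Matrix (Fin m) (Fin m) ℂ →ₗ[ℂ] Matrix (Fin m) (Fin m) ℂ,
  (∀ f ∈ S.F, ∀ X, b (f * X * f⁻¹) = f * b X * f⁻¹) →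
  ∀ h ∈ Sp (toC S.E), ∀ X, b (h * X * h⁻¹) = h * b X * h⁻¹

/-- STAB: subspaces stable under `F` are stable under the isometry group. -/
def T_STAB : Prop := ∀ (m : ℕ) (S : FinSys m), BD1 2 S →
  ∀ U : Submodule ℂ (Matrix (Fin m) (Fin m) ℂ), (∀ f ∈ S.F, ∀ X ∈ U, f * X * f⁻¹ ∈ U) →
  ∀ h ∈ Sp (toC S.E), ∀ X ∈ U, h * X * h⁻¹ ∈ U

/-- CARD: `F` is small. -/
def T_CARD : Prop := ∀ m : ℕ, ∃ J : ℕ, ∀ S : FinSys m, Sy (toC S.E) → BD1 2 S → S.F.card ≤ J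

/-- MINP: the ratios of the entries of `Φ` satisfy polynomials of degree at most `|F|`. -/
def T_MINP : Prop := ∀ (m : ℕ) (S : FinSys m) (i k a : Fin m), S.Φ k a ≠ 0 →
  ∃ p : Polynomial ℚ, p.Monic ∧ p.natDegree ≤ S.F.card ∧
    Polynomial.aeval (S.Φ i a / S.Φ k a) p = 0

/-- HOMG: a relation between two entries gives a contradiction. -/
def T_HOMG : Prop := ∀ (m : ℕ) (S : FinSys m) (D : ℕ), Sy (toC S.E) → BD1 D S →
  (∀ i k a : Fin m, S.Φ k a ≠ 0 → ∃ p : Polynomial ℚ, p.Monic ∧ p.natDegree ≤ D ∧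
    Polynomial.aeval (S.Φ i a / S.Φ k a) p = 0) → False

/-- MAIN: relations of bounded degree exclude finite groups. -/
def T_MAIN : Prop := ∀ m : ℕ, ∃ D : ℕ, ∀ S : FinSys m, Ok (toC S.E) → BD1 D S → False

/-- CORE: relations of bounded degree determine all sub-structures. -/
def T_CORE : Prop := ∀ (n : ℕ) (d : Fin n → ℕ), ∃ D : ℕ, ∀ (k : ℕ) (S : Setup k n d),
  BD D S → ∀ (r : ℕ) (a : Fin r → ℕ) (c : Fin r → ℂ)
    (W W' : Submodule ℚ (TI (Ix k d) a → ℚ)), IsSub S a c W W' →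
    ∀ h : Fam d, (∀ l, h l ∈ SG (toC (S.E l))) →
      im (tens a 1 (tot 1 h)) (cx W') = cx W'

/-! ### Families of period matrices -/

/-- families of matrices given by values of G-functions at `1 / N` and `log N`; `V N` is a set of
matrices at which all the functional relations hold -/
def PFam (m : ℕ) (Y V : ℕ → Set (MUM.Mat m)) : Prop :=
  ∃ (M κ N0 : ℕ) (f : Fin M → PowerSeries ℚ) (w : Fin κ → ℂ)
    (S : Fin m × Fin m → MvPolynomial (Fin κ ⊕ Option (Fin M)) ℤ),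
    (∀ i, LEG.IsG (f i)) ∧
    (∃ (T : Polynomial ℚ) (A : Fin M → Fin M → Polynomial ℚ), Squarefree T ∧
      (∀ i j, (A i j).degree < T.degree) ∧ LEG.Hor T A f) ∧
    (∀ N, N0 ≤ N → ∀ X ∈ Y N, ∀ p, X p.1 p.2 =
      MvPolynomial.aeval (Sum.elim w (fun o : Option (Fin M) => o.elim ((Real.log N : ℝ) : ℂ)
        (fun i => ((LEG.ev (f i) (1 / (N : ℝ)) : ℝ) : ℂ)))) (S p)) ∧
    ∀ N, N0 ≤ N → ∀ X ∈ V N, ∃ v : Option (Fin M) → ℂ,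
      (∀ R : MvPolynomial (Fin M) (Polynomial ℚ),
        MvPolynomial.eval₂ (Polynomial.coeToPowerSeries.ringHom) f R = 0 →
        MvPolynomial.eval₂ ((algebraMap ℚ ℂ).comp (Polynomial.evalRingHom (1 / (N : ℚ))))
          (fun i => v (some i)) R = 0) ∧
      ∀ p, X p.1 p.2 = MvPolynomial.aeval (Sum.elim w v) (S p)

/-- the variables: the entries of `n` matrices of sizes `m_l` -/
abbrev Var {n : ℕ} (m : Fin n → ℕ) : Type := (l : Fin n) × (Fin (m l) × Fin (m l))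

/-- MIX: relations of bounded degree for mixed products of families (from GFam.T_GFIN). -/
def T_MIX : Prop := ∀ (n k D : ℕ) (m : Fin n → ℕ) (Y V : ∀ l, ℕ → Set (MUM.Mat (m l))),
  (∀ l, PFam (m l) (Y l) (V l)) →
  ∃ K : ℕ, 1 ≤ K ∧ ∀ (T : ℕ) (θ : Fin k → ℂ), 1 ≤ T →
    (({N : Fin n → ℕ | (∀ l, 1 ≤ N l ∧ N l ≤ T) ∧
      ∃ (X : ∀ l, MUM.Mat (m l)) (P : MvPolynomial (Fin k ⊕ Var m) ℤ),
        (∀ l, X l ∈ Y l (N l)) ∧ P.totalDegree ≤ D ∧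
        MvPolynomial.aeval (Sum.elim θ (fun p : Var m => X p.1 p.2.1 p.2.2)) P = 0 ∧
        ∃ X' : ∀ l, MUM.Mat (m l), (∀ l, X' l ∈ V l (N l)) ∧
          MvPolynomial.aeval (Sum.elim θ (fun p : Var m => X' p.1 p.2.1 p.2.2)) P ≠ 0}).ncard
        : ℝ) ≤ K * (T : ℝ) ^ ((n : ℝ) - 1 / (K : ℝ))

/-- PHG: hypergeometric families. -/
def T_PHG : Prop := ∀ (m : ℕ) (α : Fin m → ℚ) (c : ℚ) (e : ℕ), MUM.Sym m α → c ≠ 0 → 1 ≤ e →
  PFam m (fun N => {X | X = MUM.Yv α ((c : ℂ) / (N : ℂ) ^ e)})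
    (fun N => {X | Xᵀ * MUM.Bz α ((c : ℂ) / (N : ℂ) ^ e) * X = MUM.Jm m})

/-- PHE: hyperelliptic families. -/
def T_PHE : Prop := ∀ (g : ℕ) (h : Polynomial ℚ), 1 ≤ g → h.coeff 0 ≠ 0 →
  (∃ e : Fin (2 * g) → ℝ, StrictMono e ∧
    h.map (algebraMap ℚ ℝ) = ∏ i, (Polynomial.X - Polynomial.C (e i))) →
  PFam (2 * g) (fun N => {X | ∃ b : Fin (2 * g + 1) → ℝ, StrictMono b ∧
      h.map (algebraMap ℚ ℝ) * (Polynomial.X - Polynomial.C (1 / (N : ℝ))) =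
        ∏ i, (Polynomial.X - Polynomial.C (b i)) ∧ ∀ a j, X a j = (HEP.per b a j : ℂ)})
    (fun N => {X | HEP.Riem (h.map (algebraMap ℚ ℂ) *
      (Polynomial.X - Polynomial.C (1 / (N : ℂ)))) X})

/-- the matrix of Riemann's relations -/
noncomputable def Bh (g : ℕ) (P : Polynomial ℚ) : Matrix (Fin (2 * g)) (Fin (2 * g)) ℚ :=
  Matrix.of fun a c => (((a : ℕ) : ℚ) - ((c : ℕ) : ℚ)) / 2 * P.coeff ((a : ℕ) + c + 2)

/-- the pairing of the real cycles -/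
noncomputable def Jh (g : ℕ) : Matrix (Fin (2 * g)) (Fin (2 * g)) ℂ :=
  Matrix.of fun j k => (if (k : ℕ) = j + 1 then (-1) ^ ((j : ℕ) + 1) * (Real.pi : ℂ) else 0) -
    (if (j : ℕ) = k + 1 then (-1) ^ ((k : ℕ) + 1) * (Real.pi : ℂ) else 0)

/-- RIE: Riemann's relations as a matrix identity. -/
def T_RIE : Prop := ∀ (g : ℕ) (P : Polynomial ℚ) (X : MUM.Mat (2 * g)),
  HEP.Riem (P.map (algebraMap ℚ ℂ)) X ↔ Xᵀ * toC (Bh g P) * X = Jh g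

/-- DRM: the general theorem (from T_MIX and T_CORE). -/
def T_DRM : Prop := ∀ (n k : ℕ) (m : Fin n → ℕ) (Y : ∀ l, ℕ → Set (MUM.Mat (m l)))
  (B : ∀ l, ℕ → Matrix (Fin (m l)) (Fin (m l)) ℚ) (J : ∀ l, MUM.Mat (m l)),
  (∀ l, 1 ≤ m l) →
  (∀ l, PFam (m l) (Y l) (fun N => {X | Xᵀ * toC (B l N) * X = J l})) →
  (∀ l N, ∀ X ∈ Y l N, Xᵀ * toC (B l N) * X = J l) →
  ∃ K : ℕ, 1 ≤ K ∧ ∀ (T : ℕ) (Θ Θ' : Matrix (Fin k) (Fin k) ℂ) (C : ∀ l, MUM.Mat (m l))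
    (κ : Fin n → ℂ) (E : ∀ l, Matrix (Fin (m l)) (Fin (m l)) ℚ), 1 ≤ T → Θ * Θ' = 1 →
    (∀ l, κ l ≠ 0 ∧ Ok (toC (E l)) ∧ (C l)ᵀ * J l * C l = κ l • toC (E l)) →
    (({N : Fin n → ℕ | (∀ l, 1 ≤ N l ∧ N l ≤ T) ∧
      ∃ X : Fam m, (∀ l, X l ∈ Y l (N l)) ∧
        ∃ (r : ℕ) (a : Fin r → ℕ) (c : Fin r → ℂ) (W W' : Submodule ℚ (TI (Ix k m) a → ℚ)),
          (∀ i, c i ≠ 0) ∧ im (tens a c (tot Θ (fun l => (X l * C l)ᵀ))) (cx W) = cx W' ∧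
          ∃ h : Fam m, (∀ l, h l ∈ SG (toC (E l))) ∧
            im (tens a 1 (tot 1 h)) (cx W') ≠ cx W'}).ncard : ℝ) ≤
      K * (T : ℝ) ^ ((n : ℝ) - 1 / (K : ℝ))

end Pool.Agent.DRG
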