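import Mathlib
import Pool.Agent.DRG.Targets
import Pool.Agent.MUM.OREF
import Pool.Agent.MUM.OGEN

/-!
# Orthogonal geometry: tools for SCAO and HOMG
-/

set_option autoImplicit false

open Matrix

namespace Pool.Agent.DRG

namespace H21_

variable {m : ℕ}

/-- the bilinear form -/
noncomputable def B (J : Matrix (Fin m) (Fin m) ℂ) (a b : Fin m → ℂ) : ℂ := a ⬝ᵥ J.mulVec b

theorem B_symm {J : Matrix (Fin m) (Fin m) ℂ} (hJ : Jᵀ = J) (a b : Fin m → ℂ) :
    B J a b = B J b a := by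
  unfold B
  rw [Matrix.dotProduct_mulVec, ← Matrix.mulVec_transpose, hJ, dotProduct_comm]

theorem B_add_left (J : Matrix (Fin m) (Fin m) ℂ) (a b c : Fin m → ℂ) :
    B J (a + b) c = B J a c + B J b c := by simp [B, add_dotProduct]

theorem B_add_right (J : Matrix (Fin m) (Fin m) ℂ) (a b c : Fin m → ℂ) :
    B J a (b + c) = B J a b + B J a c := by simp [B, Matrix.mulVec_add, dotProduct_add]

theorem B_sub_left (J : Matrix (Fin m) (Fin m) ℂ) (a b c : Fin m → ℂ) :
    B J (a - b) c = B J a c - B J b c := by simp [B, sub_dotProduct]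

theorem B_sub_right (J : Matrix (Fin m) (Fin m) ℂ) (a b c : Fin m → ℂ) :
    B J a (b - c) = B J a b - B J a c := by simp [B, Matrix.mulVec_sub, dotProduct_sub]

theorem B_smul_left (J : Matrix (Fin m) (Fin m) ℂ) (s : ℂ) (a c : Fin m → ℂ) :
    B J (s • a) c = s * B J a c := by simp [B, smul_dotProduct]

theorem B_smul_right (J : Matrix (Fin m) (Fin m) ℂ) (s : ℂ) (a c : Fin m → ℂ) :
    B J a (s • c) = s * B J a c := by simp [B, Matrix.mulVec_smul, dotProduct_smul]

theorem eq_zero_of {J : Matrix (Fin m) (Fin m) ℂ} (hdet : J.det ≠ 0) {y : Fin m → ℂ}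
    (h : ∀ x, B J x y = 0) : y = 0 := by
  have h5 : J.mulVec y = 0 := by
    funext i
    have := h (Pi.single i 1)
    simpa [B] using this
  exact Matrix.eq_zero_of_mulVec_eq_zero hdet h5

/-- the operator `x ↦ B(b, x) a` -/
def O (J : Matrix (Fin m) (Fin m) ℂ) (a b : Fin m → ℂ) : Matrix (Fin m) (Fin m) ℂ :=
  vecMulVec a b * J

theorem O_mulVec (J : Matrix (Fin m) (Fin m) ℂ) (a b x : Fin m → ℂ) :
    (O J a b).mulVec x = B J b x • a := by
  unfold O B
  rw [← Matrix.mulVec_mulVec, Matrix.vecMulVec_mulVec, op_smul_eq_smul]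

theorem O_trace (J : Matrix (Fin m) (Fin m) ℂ) (a b : Fin m → ℂ) :
    (O J a b).trace = B J b a := by
  unfold O B
  rw [Matrix.vecMulVec_mul, Matrix.trace_vecMulVec, dotProduct_comm,
    Matrix.dotProduct_mulVec b J a]

theorem ext_mulVec {M N : Matrix (Fin m) (Fin m) ℂ} (h : ∀ x, M.mulVec x = N.mulVec x) : M = N :=
  Matrix.ext_of_mulVec_single fun _ => h _

/-- reflections -/
theorem rf_mulVec (J : Matrix (Fin m) (Fin m) ℂ) (u x : Fin m → ℂ) :
    (MUM.rf J u).mulVec x = x - (2 * B J u x / B J u u) • u := MUM.OGEN_.rf_mulVec J u x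

theorem isometry_mem {E g : Matrix (Fin m) (Fin m) ℂ} (hE : IsUnit E)
    (h : gᵀ * E⁻¹ * g = E⁻¹) : g ∈ DRB.Sp E := by
  have hdet : IsUnit E.det := (Matrix.isUnit_iff_isUnit_det E).1 hE
  have h1 : gᵀ * (E⁻¹ * g * E) = 1 := by
    rw [← Matrix.mul_assoc, ← Matrix.mul_assoc, h, Matrix.nonsing_inv_mul E hdet]
  have h2 : (E⁻¹ * g * E) * gᵀ = 1 := mul_eq_one_comm.mp h1
  show g * E * gᵀ = E
  calc g * E * gᵀ = E * ((E⁻¹ * g * E) * gᵀ) := by
        simp only [← Matrix.mul_assoc]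
        rw [Matrix.mul_nonsing_inv E hdet, Matrix.one_mul]
    _ = E := by rw [h2, Matrix.mul_one]

theorem inv_symm {E : Matrix (Fin m) (Fin m) ℂ} (hE : Eᵀ = E) : (E⁻¹)ᵀ = E⁻¹ := by
  rw [Matrix.transpose_nonsing_inv, hE]

theorem inv_det {E : Matrix (Fin m) (Fin m) ℂ} (hE : IsUnit E) : (E⁻¹).det ≠ 0 := by
  have hdet : IsUnit E.det := (Matrix.isUnit_iff_isUnit_det E).1 hE
  intro h0
  have h1 := congrArg Matrix.det (Matrix.nonsing_inv_mul E hdet)
  rw [Matrix.det_mul, h0, zero_mul, Matrix.det_one] at h1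
  exact zero_ne_one h1

theorem rf_mem {E : Matrix (Fin m) (Fin m) ℂ} (hE : Eᵀ = E) (hu : IsUnit E) {v : Fin m → ℂ}
    (hv : B E⁻¹ v v ≠ 0) : MUM.rf E⁻¹ v ∈ DRB.Sp E :=
  isometry_mem hu (MUM.OGEN_.rf_form E⁻¹ (inv_symm hE) v hv)

theorem rf_sq (J : Matrix (Fin m) (Fin m) ℂ) {v : Fin m → ℂ} (hv : B J v v ≠ 0) :
    MUM.rf J v * MUM.rf J v = 1 := MUM.OGEN_.rf_sq J v hv

theorem rf_isom {J : Matrix (Fin m) (Fin m) ℂ} (hJ : Jᵀ = J) {v : Fin m → ℂ}
    (hv : B J v v ≠ 0) (x y : Fin m → ℂ) :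
    B J ((MUM.rf J v).mulVec x) ((MUM.rf J v).mulVec y) = B J x y :=
  MUM.OGEN_.rf_isom J hJ v hv x y

/-- conjugation of `O` by a reflection -/
theorem rf_conj_O {J : Matrix (Fin m) (Fin m) ℂ} (hJ : Jᵀ = J) {v : Fin m → ℂ}
    (hv : B J v v ≠ 0) (a b : Fin m → ℂ) :
    MUM.rf J v * O J a b * MUM.rf J v =
      O J ((MUM.rf J v).mulVec a) ((MUM.rf J v).mulVec b) := by
  apply ext_mulVec
  intro x
  rw [← Matrix.mulVec_mulVec, ← Matrix.mulVec_mulVec, O_mulVec, O_mulVec, Matrix.mulVec_smul]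
  congr 1
  rw [← rf_isom hJ hv b ((MUM.rf J v).mulVec x), Matrix.mulVec_mulVec, rf_sq J hv,
    Matrix.one_mulVec]

/-- a nonisotropic vector can be scaled to a unit vector -/
theorem exists_unit (J : Matrix (Fin m) (Fin m) ℂ) {v : Fin m → ℂ} (hv : B J v v ≠ 0) :
    ∃ s : ℂ, s ≠ 0 ∧ B J (s • v) (s • v) = 1 := by
  obtain ⟨x, hx⟩ := IsAlgClosed.exists_pow_nat_eq (B J v v) (n := 2) (by norm_num)
  have hx0 : x ≠ 0 := by rintro rfl; apply hv; rw [← hx]; norm_num
  refine ⟨x⁻¹, inv_ne_zero hx0, ?_⟩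
  rw [B_smul_left, B_smul_right, ← hx]
  field_simp

/-- polarisation -/
theorem polar {J : Matrix (Fin m) (Fin m) ℂ} (hJ : Jᵀ = J) (W : Submodule ℂ (Fin m → ℂ))
    (h : ∀ x ∈ W, B J x x = 0) : ∀ x ∈ W, ∀ y ∈ W, B J x y = 0 := by
  intro x hx y hy
  have h1 := h (x + y) (W.add_mem hx hy)
  rw [B_add_left, B_add_right, B_add_right, h x hx, h y hy, B_symm hJ y x] at h1
  have h2 : 2 * B J x y = 0 := by linear_combination h1
  simpa using h2

/-- a unit vector orthogonal to a unit vector -/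
theorem exists_orth1 {J : Matrix (Fin m) (Fin m) ℂ} (hJ : Jᵀ = J) (hdet : J.det ≠ 0)
    (hm : 2 ≤ m) {v : Fin m → ℂ} (hv : B J v v = 1) : ∃ x, B J x x = 1 ∧ B J v x = 0 := by
  by_contra hcon
  push Not at hcon
  let W : Submodule ℂ (Fin m → ℂ) :=
    { carrier := {x | B J v x = 0}
      add_mem' := fun {a b} ha hb => by
        simp only [Set.mem_ofPred_eq] at ha hb ⊢
        rw [B_add_right, ha, hb, add_zero]
      zero_mem' := by simp [B]
      smul_mem' := fun c x hx => by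
        simp only [Set.mem_ofPred_eq] at hx ⊢
        rw [B_smul_right, hx, mul_zero] }
  have hW : ∀ x, x ∈ W ↔ B J v x = 0 := fun x => Iff.rfl
  have hiso : ∀ x ∈ W, B J x x = 0 := by
    intro x hx
    by_contra hne
    obtain ⟨s, _, hs⟩ := exists_unit J hne
    exact hcon (s • x) hs (by rw [B_smul_right, (hW x).1 hx, mul_zero])
  have hpol := polar hJ W hiso
  have hz : ∀ x, x - B J v x • v = 0 := by
    intro x
    have hmem : ∀ x, x - B J v x • v ∈ W := fun x => by
      rw [hW, B_sub_right, B_smul_right, hv, mul_one, sub_self]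
    apply eq_zero_of hdet
    intro y
    have h1 := hpol (y - B J v y • v) (hmem y) (x - B J v x • v) (hmem x)
    rw [B_sub_left, B_smul_left, (hW _).1 (hmem x), mul_zero, sub_zero] at h1
    exact h1
  have h1 : (1 : Matrix (Fin m) (Fin m) ℂ) = O J v v := by
    apply ext_mulVec
    intro x
    rw [Matrix.one_mulVec, O_mulVec]
    exact sub_eq_zero.mp (hz x)
  have h2 := congrArg Matrix.trace h1
  rw [O_trace J, hv, Matrix.trace_one, Fintype.card_fin] at h2
  have h3 : m = 1 := by exact_mod_cast h2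
  omega

/-- a unit vector orthogonal to two orthonormal vectors -/
theorem exists_orth2 {J : Matrix (Fin m) (Fin m) ℂ} (hJ : Jᵀ = J) (hdet : J.det ≠ 0)
    (hm : 3 ≤ m) {v w : Fin m → ℂ} (hv : B J v v = 1) (hw : B J w w = 1) (hvw : B J v w = 0) :
    ∃ x, B J x x = 1 ∧ B J v x = 0 ∧ B J w x = 0 := by
  have hwv : B J w v = 0 := by rw [B_symm hJ]; exact hvw
  by_contra hcon
  push Not at hcon
  let W : Submodule ℂ (Fin m → ℂ) :=
    { carrier := {x | B J v x = 0 ∧ B J w x = 0}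
      add_mem' := fun {a b} ha hb => by
        simp only [Set.mem_ofPred_eq] at ha hb ⊢
        rw [B_add_right, B_add_right, ha.1, hb.1, ha.2, hb.2, add_zero]
        exact ⟨rfl, rfl⟩
      zero_mem' := by simp [B]
      smul_mem' := fun c x hx => by
        simp only [Set.mem_ofPred_eq] at hx ⊢
        rw [B_smul_right, B_smul_right, hx.1, hx.2, mul_zero]
        exact ⟨rfl, rfl⟩ }
  have hW : ∀ x, x ∈ W ↔ B J v x = 0 ∧ B J w x = 0 := fun x => Iff.rfl
  have hiso : ∀ x ∈ W, B J x x = 0 := by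
    intro x hx
    by_contra hne
    obtain ⟨s, _, hs⟩ := exists_unit J hne
    exact hcon (s • x) hs (by rw [B_smul_right, ((hW x).1 hx).1, mul_zero])
      (by rw [B_smul_right, ((hW x).1 hx).2, mul_zero])
  have hpol := polar hJ W hiso
  have hz : ∀ x, x - B J v x • v - B J w x • w = 0 := by
    intro x
    have hmem : ∀ x, x - B J v x • v - B J w x • w ∈ W := fun x => by
      rw [hW]
      constructor
      · rw [B_sub_right, B_sub_right, B_smul_right, B_smul_right, hv, hvw]; ring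
      · rw [B_sub_right, B_sub_right, B_smul_right, B_smul_right, hw, hwv]; ring
    apply eq_zero_of hdet
    intro y
    have h1 := hpol _ (hmem y) _ (hmem x)
    rw [B_sub_left, B_sub_left, B_smul_left, B_smul_left, ((hW _).1 (hmem x)).1,
      ((hW _).1 (hmem x)).2, mul_zero, mul_zero, sub_zero, sub_zero] at h1
    exact h1
  have h1 : (1 : Matrix (Fin m) (Fin m) ℂ) = O J v v + O J w w := by
    apply ext_mulVec
    intro x
    rw [Matrix.one_mulVec, Matrix.add_mulVec, O_mulVec, O_mulVec]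
    have := hz x
    rw [sub_sub, sub_eq_zero] at this
    exact this
  have h2 := congrArg Matrix.trace h1
  rw [Matrix.trace_add, O_trace J, O_trace J, hv, hw, Matrix.trace_one, Fintype.card_fin] at h2
  have h3 : (m : ℂ) = ((2 : ℕ) : ℂ) := by rw [h2]; norm_num
  have h4 : m = 2 := by exact_mod_cast h3
  omega

end H21_

end Pool.Agent.DRG
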