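import Mathlib
import Pool.Agent.DRG.Targets
import Pool.Agent.DRG.H21Tools
import Pool.Agent.DRB.DICH

/-!
# DRG-DICH: either `l0` is bad or `W'` is stable under the isometry group
-/

set_option autoImplicit false

open Matrix

namespace Pool.Agent.DRG

open Pool.Agent.DRB (cx im toC TI tpow dtpow tens dtens Ix Fam tot Sp gsp Pres Fs Bad)

namespace DICH_

open Pool.Agent.DRB.DICH_

theorem tot_deriv {k n : ℕ} {d : Fin n → ℕ} (l0 : Fin n)
    {γ : ℂ → Matrix (Fin (d l0)) (Fin (d l0)) ℂ} {D : Matrix (Fin (d l0)) (Fin (d l0)) ℂ} {t : ℂ}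
    (h : ∀ i j, HasDerivAt (fun s => γ s i j) (D i j) t) :
    ∀ i j : Ix k d, HasDerivAt
      (fun s => tot (1 : Matrix (Fin k) (Fin k) ℂ) (Function.update (1 : Fam d) l0 (γ s)) i j)
      (tot (0 : Matrix (Fin k) (Fin k) ℂ) (Pi.single l0 D : Fam d) i j) t := by
  rintro (i | ⟨l, i⟩) (j | ⟨l', j⟩)
  · exact hasDerivAt_const t _
  · exact hasDerivAt_const t _
  · exact hasDerivAt_const t _
  · by_cases hll : l = l'
    · subst hll
      have e1 : ∀ M : Fam d, tot (1 : Matrix (Fin k) (Fin k) ℂ) M (Sum.inr ⟨l, i⟩)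
          (Sum.inr ⟨l, j⟩) = M l i j := fun M => by
        unfold tot
        rw [Matrix.fromBlocks_apply₂₂, Matrix.blockDiagonal'_apply_eq]
      have e2 : ∀ M : Fam d, tot (0 : Matrix (Fin k) (Fin k) ℂ) M (Sum.inr ⟨l, i⟩)
          (Sum.inr ⟨l, j⟩) = M l i j := fun M => by
        unfold tot
        rw [Matrix.fromBlocks_apply₂₂, Matrix.blockDiagonal'_apply_eq]
      simp only [e1, e2]
      by_cases hl : l = l0
      · subst hl
        simp only [Function.update_self, Pi.single_eq_same]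
        exact h i j
      · simp only [Function.update_of_ne hl, Pi.single_eq_of_ne hl]
        exact hasDerivAt_const t _
    · have e1 : ∀ (X0 : Matrix (Fin k) (Fin k) ℂ) (M : Fam d), tot X0 M (Sum.inr ⟨l, i⟩)
          (Sum.inr ⟨l', j⟩) = 0 := fun X0 M => by
        unfold tot
        rw [Matrix.fromBlocks_apply₂₂, Matrix.blockDiagonal'_apply_ne _ _ _ hll]
      simp only [e1]
      exact hasDerivAt_const t _

theorem form_of_mem {m : ℕ} {E h : Matrix (Fin m) (Fin m) ℂ} (hE : IsUnit E) (hh : h ∈ Sp E) :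
    hᵀ * E⁻¹ * h = E⁻¹ := by
  have hdet : IsUnit E.det := (Matrix.isUnit_iff_isUnit_det E).1 hE
  have h0 : h * E * hᵀ = E := hh
  have h1 : h * (E * hᵀ * E⁻¹) = 1 := by
    rw [← Matrix.mul_assoc, ← Matrix.mul_assoc, h0, Matrix.mul_nonsing_inv E hdet]
  have h2 : (E * hᵀ * E⁻¹) * h = 1 := mul_eq_one_comm.mp h1
  calc hᵀ * E⁻¹ * h = (E⁻¹ * E) * (hᵀ * E⁻¹ * h) := by
        rw [Matrix.nonsing_inv_mul E hdet, Matrix.one_mul]
    _ = E⁻¹ * ((E * hᵀ * E⁻¹) * h) := by simp only [Matrix.mul_assoc]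
    _ = E⁻¹ := by rw [h2, Matrix.mul_one]

/-- a set of matrices closed under inverses which stabilises `cx W'` -/
theorem im_eq (h6 : DRB.T_TMUL) {k n : ℕ} {d : Fin n → ℕ} {r : ℕ} (a : Fin r → ℕ)
    (W' : Submodule ℚ (TI (Ix k d) a → ℚ)) (l0 : Fin n)
    (h : Matrix (Fin (d l0)) (Fin (d l0)) ℂ) (hdh : IsUnit h.det)
    (hh : h ∈ GG h6 a W' l0) (hinv : h⁻¹ ∈ GG h6 a W' l0) :
    im (tens a 1 (tot 1 (Function.update 1 l0 h))) (cx W') = cx W' := by
  apply le_antisymm
  · rintro w ⟨v, hv, rfl⟩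
    exact hh v hv
  · intro w hw
    refine ⟨(tens a 1 (tot (1 : Matrix (Fin k) (Fin k) ℂ)
      (Function.update (1 : Fam d) l0 h⁻¹))) *ᵥ w, hinv w hw, ?_⟩
    have h8 := (h6 (Ix k d) r a 1 1
      (tot (1 : Matrix (Fin k) (Fin k) ℂ) (Function.update (1 : Fam d) l0 h))
      (tot (1 : Matrix (Fin k) (Fin k) ℂ) (Function.update (1 : Fam d) l0 h⁻¹))).1
    rw [tot_mul, upd_mul, one_mul, Matrix.mul_nonsing_inv _ hdh] at h8
    have e1 : (fun i => (1 : Fin r → ℂ) i * (1 : Fin r → ℂ) i) = 1 := by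
      funext i
      exact one_mul _
    have e3 : Function.update (1 : Fam d) l0 1 = 1 := Function.update_eq_self l0 1
    rw [e1, e3, tot_one, (h6 (Ix k d) r a 1 1 1 1).2] at h8
    rw [Matrix.mulVecLin_apply, Matrix.mulVec_mulVec, h8, Matrix.one_mulVec]

end DICH_

open DICH_ Pool.Agent.DRB.DICH_ in
theorem p_DICH (h1 : T_ADST) (h2 : DRB.T_TRVS) (h3 : DRB.T_TVSP) (h4 : DRB.T_TEXP)
    (h5 : DRB.T_GENT) (h6 : DRB.T_TMUL) (h7 : DRB.T_LINR) (h8 : T_EXPC) (h9 : T_GSO)
    (h10 : T_TRVO) : T_DICH := by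
  intro k n d S hBD r a c W W' hsub l0
  by_cases hbad : Bad a W' S.E l0
  · exact Or.inl hbad
  right
  unfold DRB.Bad at hbad
  push Not at hbad
  obtain ⟨x, X0, X, hX, hXg, hXn⟩ := hbad
  -- stability of the subspace
  have hU : ∀ p ∈ PU h7 a W', ∀ h ∈ Sp (toC (S.E l0)),
      (p.1, p.2.1, Function.update p.2.2 l0 (h * p.2.2 l0 * h⁻¹)) ∈ PU h7 a W' := by
    intro p hp h hh
    have key := h1 k n d S hBD r a c W W' hsub p.1 p.2.1 p.2.2 hp
      (Function.update (1 : Fam d) l0 h) (by
        intro l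
        by_cases hl : l = l0
        · subst hl
          rw [Function.update_self]
          exact hh
        · rw [Function.update_of_ne hl]
          exact sp_one _)
    have e1 : (fun l => Function.update (1 : Fam d) l0 h l * p.2.2 l *
        (Function.update (1 : Fam d) l0 h l)⁻¹) =
        Function.update p.2.2 l0 (h * p.2.2 l0 * h⁻¹) := by
      funext l
      by_cases hl : l = l0
      · subst hl
        rw [Function.update_self, Function.update_self]
      · rw [Function.update_of_ne hl, Function.update_of_ne hl, Pi.one_apply, inv_one, one_mul,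
          mul_one]
    rw [e1] at key
    exact key
  have hXn' : ¬ ∃ c : ℂ, X l0 = c • 1 := by
    rintro ⟨c, hc⟩
    exact hXn c hc
  rcases S.hE l0 with hE | hE
  · -- the alternating case
    have hN := h2 r k n d (fun l => toC (S.E l)) l0 hE (PU h7 a W') hU (x, X0, X) hX hXg hXn'
    have htv : ∀ (v : Fin (d l0) → ℂ) (s : ℂ),
        1 + s • DRB.tv (toC (S.E l0)) v ∈ GG h6 a W' l0 := by
      intro v s
      set N : Matrix (Ix k d) (Ix k d) ℂ :=
        tot 0 (Pi.single l0 (DRB.tv (toC (S.E l0)) v) : Fam d) with hNdef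
      have hNN : N * N = 0 := by
        rw [hNdef, tot_mul, mul_zero]
        have e1 : (fun l => (Pi.single l0 (DRB.tv (toC (S.E l0)) v) : Fam d) l *
            (Pi.single l0 (DRB.tv (toC (S.E l0)) v) : Fam d) l) = 0 := by
          funext l
          by_cases hl : l = l0
          · subst hl
            rw [Pi.single_eq_same]
            exact (h3 (d l) (toC (S.E l)) hE v s).2.1
          · rw [Pi.single_eq_of_ne hl, mul_zero]
            rfl
        rw [e1, tot_zero]
      have hst : ∀ w ∈ cx W', (dtens a 0 N) *ᵥ w ∈ cx W' := fun w hw => hN v w hw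
      have key := h4 (Ix k d) r a N (cx W') hNN hst s
      intro w hw
      have h8' := key w hw
      have e2 : (1 : Matrix (Ix k d) (Ix k d) ℂ) + s • N =
          tot (1 : Matrix (Fin k) (Fin k) ℂ)
            (Function.update (1 : Fam d) l0 (1 + s • DRB.tv (toC (S.E l0)) v)) := by
        have h9' := tot_lin s 0 (1 : Matrix (Fin k) (Fin k) ℂ)
          (Pi.single l0 (DRB.tv (toC (S.E l0)) v) : Fam d) 1
        rw [tot_one, smul_zero, zero_add, ← hNdef] at h9'
        rw [add_comm, ← h9']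
        congr 1
        funext l
        by_cases hl : l = l0
        · subst hl
          rw [Function.update_self, Pi.add_apply, Pi.smul_apply, Pi.single_eq_same, Pi.one_apply,
            add_comm]
        · rw [Function.update_of_ne hl, Pi.add_apply, Pi.smul_apply, Pi.single_eq_of_ne hl,
            smul_zero, zero_add]
      rw [e2] at h8'
      exact h8'
    have hall : ∀ h ∈ Sp (toC (S.E l0)), h ∈ GG h6 a W' l0 := h5 _ _ hE _ htv
    intro h hh
    obtain ⟨hdh, hinv⟩ := sp_inv _ hE.2 h hh.1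
    exact im_eq h6 a W' l0 h hdh (hall h hh.1) (hall _ hinv)
  · -- the symmetric case
    obtain ⟨hsym, hunit, hm⟩ := hE
    set J := (toC (S.E l0))⁻¹ with hJdef
    have hJ : Jᵀ = J := H21_.inv_symm hsym
    have hdet : J.det ≠ 0 := H21_.inv_det hunit
    have hN := h10 r k n d (fun l => toC (S.E l)) l0 ⟨hsym, hunit, hm⟩ (PU h7 a W') hU
      (x, X0, X) hX hXg hXn'
    have hgam : ∀ v b : Fin (d l0) → ℂ, v ⬝ᵥ J.mulVec v = 1 → b ⬝ᵥ J.mulVec b = 1 →
        v ⬝ᵥ J.mulVec b = 0 → ∀ t : ℂ, MUM.OREF_.gam (MUM.wd J v b) t ∈ GG h6 a W' l0 := by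
      intro v b hv hb hvb t
      set A := MUM.wd J v b with hA
      have hA3 : A * A * A = -A := MUM.OREF_.wd_cube hJ hv hb hvb
      set N : Matrix (Ix k d) (Ix k d) ℂ := tot 0 (Pi.single l0 A : Fam d) with hNdef
      have hst : ∀ w ∈ cx W', (dtens a 0 N) *ᵥ w ∈ cx W' := fun w hw => hN v b w hw
      have key := h8 (Ix k d) r a
        (fun s => tot (1 : Matrix (Fin k) (Fin k) ℂ)
          (Function.update (1 : Fam d) l0 (MUM.OREF_.gam A s))) N (cx W') (by
          rw [MUM.OREF_.gam_zero]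
          have e3 : Function.update (1 : Fam d) l0 1 = 1 := Function.update_eq_self l0 1
          rw [e3, tot_one]) (by
          intro s i j
          have h11 := tot_deriv (k := k) l0 (fun i j => MUM.OREF_.gam_deriv hA3 s i j) i j
          have h12 : tot (1 : Matrix (Fin k) (Fin k) ℂ)
              (Function.update (1 : Fam d) l0 (MUM.OREF_.gam A s)) * N =
              tot (0 : Matrix (Fin k) (Fin k) ℂ)
                (Pi.single l0 (MUM.OREF_.gam A s * A) : Fam d) := by
            rw [hNdef, tot_mul, mul_zero]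
            congr 1
            funext l
            by_cases hl : l = l0
            · subst hl
              rw [Function.update_self, Pi.single_eq_same, Pi.single_eq_same]
            · rw [Pi.single_eq_of_ne hl, Pi.single_eq_of_ne hl, mul_zero]
          rw [h12]
          exact h11) hst t
      intro w hw
      exact key w hw
    have hall : ∀ h ∈ SG (toC (S.E l0)), h ∈ GG h6 a W' l0 := by
      intro h hh
      exact h9 (d l0) J h (by omega) hJ hdet (form_of_mem hunit hh.1) hh.2 _ hgam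
    intro h hh
    obtain ⟨hdh, hinv⟩ := sp_inv _ hunit h hh.1
    refine im_eq h6 a W' l0 h hdh (hall h hh) (hall _ ⟨hinv, ?_⟩)
    rw [Matrix.det_nonsing_inv, hh.2, Ring.inverse_one]

end Pool.Agent.DRG
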