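import Mathlib
import Pool.Agent.DRG.Targets

/-!
# DRM: the general theorem
-/

set_option autoImplicit false

open Matrix

namespace Pool.Agent.DRG

open Pool.Agent.DRB (cx im toC TI tpow dtpow tens dtens Ix Fam tot Sp gsp Pres Fs Bad)

namespace DRM_

/-- total degree of a substitution -/
theorem totalDegree_aeval_le {σ τ : Type} (f : σ → MvPolynomial τ ℤ) (c : ℕ)
    (hf : ∀ i, (f i).totalDegree ≤ c) (P : MvPolynomial σ ℤ) :
    (MvPolynomial.aeval f P).totalDegree ≤ c * P.totalDegree := by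
  classical
  rw [MvPolynomial.aeval_def, MvPolynomial.eval₂_eq]
  refine MvPolynomial.totalDegree_finsetSum_le fun d hd => ?_
  refine (MvPolynomial.totalDegree_mul _ _).trans ?_
  have h1 : (algebraMap ℤ (MvPolynomial τ ℤ) (MvPolynomial.coeff d P)).totalDegree = 0 :=
    MvPolynomial.totalDegree_C _
  rw [h1, zero_add]
  refine (MvPolynomial.totalDegree_finsetProd _ _).trans ?_
  have h2 : ∑ i ∈ d.support, (f i ^ d i).totalDegree ≤ ∑ i ∈ d.support, d i * c :=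
    Finset.sum_le_sum fun i _ =>
      (MvPolynomial.totalDegree_pow _ _).trans (Nat.mul_le_mul_left _ (hf i))
  refine h2.trans ?_
  rw [← Finset.sum_mul, mul_comm]
  refine Nat.mul_le_mul_left _ ?_
  have := MvPolynomial.le_totalDegree hd
  simpa [Finsupp.sum] using this

/-- clearing denominators -/
theorem clear {σ : Type} (P : MvPolynomial σ ℚ) :
    ∃ (b : ℤ) (P1 : MvPolynomial σ ℤ), b ≠ 0 ∧ P1.totalDegree ≤ P.totalDegree ∧
      ∀ x : σ → ℂ, MvPolynomial.aeval x P1 = (b : ℂ) * MvPolynomial.aeval x P := by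
  classical
  obtain ⟨b, hb⟩ := IsLocalization.exist_integer_multiples_of_finset (nonZeroDivisors ℤ)
    (P.support.image (fun s => P.coeff s))
  have hb' : ∀ s, ∃ z : ℤ, s ∈ P.support → (z : ℚ) = ((b : ℤ) : ℚ) * P.coeff s := by
    intro s
    by_cases hs : s ∈ P.support
    · obtain ⟨z, hz⟩ := hb _ (Finset.mem_image_of_mem (fun s => P.coeff s) hs)
      refine ⟨z, fun _ => ?_⟩
      have h1 : (algebraMap ℤ ℚ) z = (z : ℚ) := rfl
      rw [← h1, hz, zsmul_eq_mul]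
    · exact ⟨0, fun h => absurd h hs⟩
  choose z hz using hb'
  refine ⟨b, ∑ s ∈ P.support, MvPolynomial.monomial s (z s), nonZeroDivisors.ne_zero b.2, ?_, ?_⟩
  · refine MvPolynomial.totalDegree_finsetSum_le fun s hs => ?_
    exact (MvPolynomial.totalDegree_monomial_le _ _).trans (MvPolynomial.le_totalDegree hs)
  · intro x
    have h1 : MvPolynomial.map (algebraMap ℤ ℚ)
        (∑ s ∈ P.support, MvPolynomial.monomial s (z s)) =
        MvPolynomial.C ((b : ℤ) : ℚ) * P := by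
      rw [map_sum]
      conv_rhs => rw [P.as_sum, Finset.mul_sum]
      refine Finset.sum_congr rfl fun s hs => ?_
      rw [MvPolynomial.map_monomial, MvPolynomial.C_mul_monomial, ← hz s hs]
      rfl
    have h2 : (algebraMap ℚ ℂ) ((b : ℤ) : ℚ) = ((b : ℤ) : ℂ) := by simp
    rw [← MvPolynomial.aeval_map_algebraMap ℚ x, h1, map_mul, MvPolynomial.aeval_C, h2]

/-- the substitution -/
noncomputable def sb {k n : ℕ} {m : Fin n → ℕ} {k' : ℕ} (e : Vars k m ≃ Fin k') :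
    Vars k m → MvPolynomial (Fin k' ⊕ Var m) ℤ :=
  Sum.elim (fun q => MvPolynomial.X (Sum.inl (e (Sum.inl q))))
    (fun q => ∑ s : Fin (m q.1), MvPolynomial.X (Sum.inr ⟨q.1, (q.2.2, s)⟩) *
      MvPolynomial.X (Sum.inl (e (Sum.inr ⟨q.1, (s, q.2.1)⟩))))

theorem sb_inl {k n : ℕ} {m : Fin n → ℕ} {k' : ℕ} (e : Vars k m ≃ Fin k')
    (q : Fin n ⊕ ((Fin k × Fin k) ⊕ (Fin k × Fin k))) :
    sb e (Sum.inl q) = MvPolynomial.X (Sum.inl (e (Sum.inl q))) := rfl

theorem sb_inr {k n : ℕ} {m : Fin n → ℕ} {k' : ℕ} (e : Vars k m ≃ Fin k')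
    (q : (l : Fin n) × (Fin (m l) × Fin (m l))) :
    sb e (Sum.inr q) = ∑ s : Fin (m q.1), MvPolynomial.X (Sum.inr ⟨q.1, (q.2.2, s)⟩) *
      MvPolynomial.X (Sum.inl (e (Sum.inr ⟨q.1, (s, q.2.1)⟩))) := rfl

theorem pt_inr {k n : ℕ} {m : Fin n → ℕ} (κ : Fin n → ℂ)
    (Θ Θ' : Matrix (Fin k) (Fin k) ℂ) (C : Fam m)
    (q : (l : Fin n) × (Fin (m l) × Fin (m l))) :
    pt κ Θ Θ' C (Sum.inr q) = C q.1 q.2.1 q.2.2 := rfl

theorem pt_inl {k n : ℕ} {m : Fin n → ℕ} (κ : Fin n → ℂ)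
    (Θ Θ' : Matrix (Fin k) (Fin k) ℂ) (C C' : Fam m)
    (q : Fin n ⊕ ((Fin k × Fin k) ⊕ (Fin k × Fin k))) :
    pt κ Θ Θ' C (Sum.inl q) = pt κ Θ Θ' C' (Sum.inl q) := rfl

theorem sb_deg {k n : ℕ} {m : Fin n → ℕ} {k' : ℕ} (e : Vars k m ≃ Fin k') (v : Vars k m) :
    (sb e v).totalDegree ≤ 2 := by
  rcases v with q | q
  · rw [sb_inl, MvPolynomial.totalDegree_X]
    norm_num
  · rw [sb_inr]
    refine MvPolynomial.totalDegree_finsetSum_le fun s _ => ?_
    refine (MvPolynomial.totalDegree_mul _ _).trans ?_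
    rw [MvPolynomial.totalDegree_X, MvPolynomial.totalDegree_X]

theorem sb_eval {k n : ℕ} {m : Fin n → ℕ} {k' : ℕ} (e : Vars k m ≃ Fin k') (κ : Fin n → ℂ)
    (Θ Θ' : Matrix (Fin k) (Fin k) ℂ) (C X : Fam m) (P : MvPolynomial (Vars k m) ℤ) :
    MvPolynomial.aeval (Sum.elim (fun i => pt κ Θ Θ' C (e.symm i))
      (fun p : Var m => X p.1 p.2.1 p.2.2)) (MvPolynomial.aeval (sb e) P) =
    MvPolynomial.aeval (pt κ Θ Θ' (fun l => (X l * C l)ᵀ)) P := by
  rw [MvPolynomial.comp_aeval_apply]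
  congr 2
  funext v
  rcases v with q | q
  · rw [sb_inl, MvPolynomial.aeval_X, Sum.elim_inl, Equiv.symm_apply_apply]
    exact pt_inl _ _ _ _ _ q
  · rw [sb_inr, pt_inr, Matrix.transpose_apply, map_sum, Matrix.mul_apply]
    refine Finset.sum_congr rfl fun s _ => ?_
    rw [map_mul, MvPolynomial.aeval_X, MvPolynomial.aeval_X, Sum.elim_inl, Sum.elim_inr,
      Equiv.symm_apply_apply, pt_inr]

theorem ok_unit {m : ℕ} {E : Matrix (Fin m) (Fin m) ℂ} (h : Ok E) : IsUnit E := by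
  rcases h with h | h
  · exact h.2
  · exact h.2.1

/-- the matrix `C` is invertible -/
theorem unitC {m : ℕ} {J C E : Matrix (Fin m) (Fin m) ℂ} {κ : ℂ} (hκ : κ ≠ 0) (hE : IsUnit E)
    (h : Cᵀ * J * C = κ • E) : IsUnit C.det := by
  have h1 : IsUnit (κ • E).det := by
    rw [Matrix.det_smul]
    refine IsUnit.mul ?_ ((Matrix.isUnit_iff_isUnit_det _).1 hE)
    exact (isUnit_iff_ne_zero.2 hκ).pow _
  rw [← h, Matrix.det_mul] at h1
  exact isUnit_of_mul_isUnit_right h1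

/-- the modified matrices -/
theorem modX {m : ℕ} {J C E B X h : Matrix (Fin m) (Fin m) ℂ} {κ : ℂ} (hC : IsUnit C.det)
    (hrel : Cᵀ * J * C = κ • E) (hX : Xᵀ * B * X = J) (hh : h ∈ Sp E) :
    (X * C * hᵀ * C⁻¹)ᵀ * B * (X * C * hᵀ * C⁻¹) = J ∧
      (X * C * hᵀ * C⁻¹ * C)ᵀ = h * (X * C)ᵀ := by
  have hh' : h * E * hᵀ = E := hh
  have hCT : IsUnit Cᵀ.det := by rwa [Matrix.det_transpose]
  have c1 : C⁻¹ * C = 1 := Matrix.nonsing_inv_mul C hC
  have c2 : C * C⁻¹ = 1 := Matrix.mul_nonsing_inv C hC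
  have c3 : (C⁻¹)ᵀ * Cᵀ = 1 := by
    rw [← Matrix.transpose_mul, c2, Matrix.transpose_one]
  constructor
  · have e1 : (X * C * hᵀ * C⁻¹)ᵀ * B * (X * C * hᵀ * C⁻¹) =
        (C⁻¹)ᵀ * (h * (Cᵀ * (Xᵀ * B * X) * C) * hᵀ) * C⁻¹ := by
      simp only [Matrix.transpose_mul, Matrix.transpose_transpose, Matrix.mul_assoc]
    have e2 : h * (κ • E) * hᵀ = κ • E := by
      rw [Matrix.mul_smul, Matrix.smul_mul, hh']
    rw [e1, hX, hrel, e2, ← hrel]
    calc (C⁻¹)ᵀ * (Cᵀ * J * C) * C⁻¹ = ((C⁻¹)ᵀ * Cᵀ) * J * (C * C⁻¹) := by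
          simp only [Matrix.mul_assoc]
      _ = J := by rw [c3, c2, Matrix.one_mul, Matrix.mul_one]
  · rw [Matrix.mul_assoc (X * C * hᵀ), c1, Matrix.mul_one, Matrix.transpose_mul,
      Matrix.transpose_transpose]

end DRM_

open DRM_

theorem p_DRM (h1 : T_CORE) (h2 : T_MIX) : T_DRM := by
  classical
  intro n k m Y B J hm hP hJ
  obtain ⟨D, hD⟩ := h1 n m
  let k' : ℕ := Fintype.card (Vars k m)
  let e : Vars k m ≃ Fin k' := Fintype.equivFin _
  obtain ⟨K, hK1, hK⟩ := h2 n k' (2 * D) m Y (fun l N => {X | Xᵀ * toC (B l N) * X = J l}) hP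
  refine ⟨K, hK1, ?_⟩
  intro T Θ Θ' C κ E hT hΘ hrel
  refine le_trans ?_ (hK T (fun i => pt κ Θ Θ' C (e.symm i)) hT)
  rw [Nat.cast_le]
  refine Set.ncard_le_ncard ?_ ?_
  swap
  · refine Set.Finite.subset (Set.Finite.pi' (fun l : Fin n => Set.finite_Icc 1 T)) ?_
    rintro N ⟨hN, -⟩ l
    exact hN l
  rintro N ⟨hN, X, hXY, r, a, c, W, W', hc, him, h, hh, hne⟩
  refine ⟨hN, ?_⟩
  by_contra hcon
  apply hne
  have hXJ : ∀ l, (X l)ᵀ * toC (B l (N l)) * X l = J l := fun l => hJ l (N l) (X l) (hXY l)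
  have hCu : ∀ l, IsUnit (C l).det := fun l =>
    unitC (hrel l).1 (ok_unit (hrel l).2.1) (hrel l).2.2
  let S : Setup k n m :=
    { κ := κ
      Θ := Θ
      Θ' := Θ'
      Q := fun l => B l (N l)
      E := E
      Φ := fun l => (X l * C l)ᵀ
      hd := hm
      hκ := fun l => (hrel l).1
      hΘ := hΘ
      hE := fun l => (hrel l).2.1
      rel := fun l => by
        rw [Matrix.transpose_transpose]
        have e1 : (X l * C l)ᵀ * toC (B l (N l)) * (X l * C l) =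
            (C l)ᵀ * ((X l)ᵀ * toC (B l (N l)) * X l) * C l := by
          simp only [Matrix.transpose_mul, Matrix.mul_assoc]
        rw [e1, hXJ l, (hrel l).2.2] }
  have hBD : BD D S := by
    intro P hPd hP0 g hg
    obtain ⟨b, P1, hb, hP1d, hP1⟩ := clear P
    have hbC : (b : ℂ) ≠ 0 := by exact_mod_cast hb
    have hz : MvPolynomial.aeval (Sum.elim (fun i => pt κ Θ Θ' C (e.symm i))
      (fun p : Var m => X p.1 p.2.1 p.2.2)) (MvPolynomial.aeval (sb e) P1) = 0 := by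
      rw [sb_eval, hP1]
      have : MvPolynomial.aeval (pt κ Θ Θ' (fun l => (X l * C l)ᵀ)) P = 0 := hP0
      rw [this, mul_zero]
    have hdeg : (MvPolynomial.aeval (sb e) P1).totalDegree ≤ 2 * D :=
      (totalDegree_aeval_le (sb e) 2 (sb_deg e) P1).trans
        (Nat.mul_le_mul_left _ (hP1d.trans hPd))
    have hmod := fun l => modX (hCu l) (hrel l).2.2 (hXJ l) (hg l)
    obtain ⟨X', hX'⟩ : ∃ X' : Fam m, ∀ l, X' l = X l * C l * (g l)ᵀ * (C l)⁻¹ :=
      ⟨fun l => X l * C l * (g l)ᵀ * (C l)⁻¹, fun l => rfl⟩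
    have hz' : MvPolynomial.aeval (Sum.elim (fun i => pt κ Θ Θ' C (e.symm i))
      (fun p : Var m => X' p.1 p.2.1 p.2.2)) (MvPolynomial.aeval (sb e) P1) = 0 := by
      by_contra hne'
      refine hcon ⟨X, _, hXY, hdeg, hz, X', fun l => ?_, hne'⟩
      show (X' l)ᵀ * toC (B l (N l)) * X' l = J l
      rw [hX']
      exact (hmod l).1
    rw [sb_eval, hP1] at hz'
    have hz'' := (mul_eq_zero.1 hz').resolve_left hbC
    have e1 : (fun l => (X' l * C l)ᵀ : Fam m) =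
        fun l => g l * (X l * C l)ᵀ := funext fun l => by
          rw [hX']
          exact (hmod l).2
    rw [e1] at hz''
    exact hz''
  exact hD k S hBD r a c W W' ⟨hc, him⟩ h hh

end Pool.Agent.DRG
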