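import Pool.Agent.DRG.Targets
import Pool.Agent.DRG.ADST
import Pool.Agent.HEP.All
import Pool.Agent.MUM.All

set_option autoImplicit false

open Matrix

namespace Pool.Agent.DRG

open Pool.Agent.DRB (cx im toC TI tpow dtpow tens dtens Ix Fam tot Sp gsp Pres Fs Bad)

namespace FAM_

/-- `PFam` is monotone in the set of matrices of values -/
theorem PFam_mono {m : ℕ} {Y Y' V : ℕ → Set (MUM.Mat m)} (h : PFam m Y V)
    (hY : ∀ N, Y' N ⊆ Y N) : PFam m Y' V := by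
  obtain ⟨M, κ, N0, f, w, S, h1, h2, h3, h4⟩ := h
  exact ⟨M, κ, N0, f, w, S, h1, h2, fun N hN X hX => h3 N hN X (hY N hX), h4⟩

/-- the diagonal matrix of the `i ^ j` -/
def Di (m : ℕ) : MUM.Mat m := Matrix.diagonal fun j => Complex.I ^ (j : ℕ)

/-- the pairing of the cycles -/
noncomputable def Jp (m : ℕ) : MUM.Mat m := Matrix.of fun i j => -(Complex.I * Real.pi) *
      ((if (j : ℕ) = i + 1 then 1 else 0) - (if (i : ℕ) = j + 1 then 1 else 0))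

theorem Jp_transpose (m : ℕ) : (Jp m)ᵀ = -Jp m := by
  ext i j
  rw [Matrix.transpose_apply, Matrix.neg_apply]
  unfold Jp
  rw [Matrix.of_apply, Matrix.of_apply]
  ring

theorem Di_J (g : ℕ) : (Di (2 * g))ᵀ * Jh g * Di (2 * g) = Jp (2 * g) := by
  unfold Di
  rw [Matrix.diagonal_transpose]
  ext i j
  rw [Matrix.mul_diagonal, Matrix.diagonal_mul]
  unfold Jp Jh
  rw [Matrix.of_apply, Matrix.of_apply]
  have hI : ∀ n : ℕ, Complex.I ^ n * Complex.I ^ n = (-1) ^ n := fun n => by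
    rw [← mul_pow, Complex.I_mul_I]
  by_cases h1 : (j : ℕ) = i + 1
  · have h2 : ¬ (i : ℕ) = j + 1 := by omega
    rw [if_pos h1, if_neg h2, if_pos h1, if_neg h2, h1]
    have h3 : Complex.I ^ (i : ℕ) * ((-1) ^ ((i : ℕ) + 1) * (Real.pi : ℂ) - 0) *
        Complex.I ^ ((i : ℕ) + 1) =
        (Complex.I ^ (i : ℕ) * Complex.I ^ (i : ℕ)) * (-1) ^ (i : ℕ) *
          (-(Complex.I * (Real.pi : ℂ))) := by
      rw [pow_succ, pow_succ]
      ring
    rw [h3, hI, ← mul_pow]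
    norm_num
  · by_cases h2 : (i : ℕ) = j + 1
    · rw [if_neg h1, if_pos h2, if_neg h1, if_pos h2, h2]
      have h3 : Complex.I ^ ((j : ℕ) + 1) * (0 - (-1) ^ ((j : ℕ) + 1) * (Real.pi : ℂ)) *
          Complex.I ^ (j : ℕ) =
          (Complex.I ^ (j : ℕ) * Complex.I ^ (j : ℕ)) * (-1) ^ (j : ℕ) *
            (Complex.I * (Real.pi : ℂ)) := by
        rw [pow_succ, pow_succ]
        ring
      rw [h3, hI, ← mul_pow]
      norm_num
    · rw [if_neg h1, if_neg h2, if_neg h1, if_neg h2]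
      simp

/-- the hyperelliptic families -/
theorem hyp (hPHE : T_PHE) (hRIE : T_RIE) (g : ℕ) (h : Polynomial ℚ) (hg : 1 ≤ g)
    (h0 : h.coeff 0 ≠ 0) (he : ∃ e : Fin (2 * g) → ℝ, StrictMono e ∧
      h.map (algebraMap ℚ ℝ) = ∏ i, (Polynomial.X - Polynomial.C (e i))) :
    ∃ (Y : ℕ → Set (MUM.Mat (2 * g))) (B : ℕ → Matrix (Fin (2 * g)) (Fin (2 * g)) ℚ)
      (J D : MUM.Mat (2 * g)),
      PFam (2 * g) Y (fun N => {X | Xᵀ * toC (B N) * X = J}) ∧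
      (∀ N, ∀ X ∈ Y N, Xᵀ * toC (B N) * X = J) ∧
      (∀ (N : ℕ) (b : Fin (2 * g + 1) → ℝ), StrictMono b →
        h.map (algebraMap ℚ ℝ) * (Polynomial.X - Polynomial.C (1 / (N : ℝ))) =
          ∏ i, (Polynomial.X - Polynomial.C (b i)) →
        ∃ X ∈ Y N, (Matrix.of fun j a : Fin (2 * g) => Complex.I ^ (j : ℕ) *
          ((∫ x in (b j.castSucc)..(b j.succ),
            x ^ (a : ℕ) / Real.sqrt |∏ i, (x - b i)| : ℝ) : ℂ)) = (X * D)ᵀ) ∧
      Dᵀ * J * D = Jp (2 * g) := by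
  have hP : ∀ N : ℕ, (h * (Polynomial.X - Polynomial.C (1 / (N : ℚ)))).map (algebraMap ℚ ℂ) =
      h.map (algebraMap ℚ ℂ) * (Polynomial.X - Polynomial.C (1 / (N : ℂ))) := by
    intro N
    rw [Polynomial.map_mul, Polynomial.map_sub, Polynomial.map_X, Polynomial.map_C]
    congr 3
    simp
  refine ⟨fun N => {X | ∃ b : Fin (2 * g + 1) → ℝ, StrictMono b ∧
      h.map (algebraMap ℚ ℝ) * (Polynomial.X - Polynomial.C (1 / (N : ℝ))) =
        ∏ i, (Polynomial.X - Polynomial.C (b i)) ∧ ∀ a j, X a j = (HEP.per b a j : ℂ)},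
    fun N => Bh g (h * (Polynomial.X - Polynomial.C (1 / (N : ℚ)))), Jh g,
    Di (2 * g), ?_, ?_, ?_, Di_J g⟩
  · have h1 := hPHE g h hg h0 he
    have h2 : (fun N : ℕ => {X : MUM.Mat (2 * g) | HEP.Riem (h.map (algebraMap ℚ ℂ) *
        (Polynomial.X - Polynomial.C (1 / (N : ℂ)))) X}) =
        fun N : ℕ => {X | Xᵀ * toC (Bh g (h * (Polynomial.X - Polynomial.C (1 / (N : ℚ))))) * X =
          Jh g} := by
      funext N
      ext X
      rw [Set.mem_ofPred_eq, Set.mem_ofPred_eq, ← hRIE, hP]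
    rw [h2] at h1
    exact h1
  · rintro N X ⟨b, hb, hbe, hX⟩
    have hX' : X = Matrix.of fun a j => (HEP.per b a j : ℂ) := by
      ext a j
      rw [hX]
      rfl
    have h1 := HEP.riemannRelations b hb
    have h2 : (∏ i, (Polynomial.X - Polynomial.C (b i : ℂ))) =
        (h * (Polynomial.X - Polynomial.C (1 / (N : ℚ)))).map (algebraMap ℚ ℂ) := by
      have h3 := congrArg (Polynomial.map (algebraMap ℝ ℂ)) hbe
      rw [Polynomial.map_mul, Polynomial.map_map, Polynomial.map_prod, Polynomial.map_sub,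
        Polynomial.map_X, Polynomial.map_C, ← IsScalarTower.algebraMap_eq ℚ ℝ ℂ] at h3
      rw [hP]
      have h4 : (algebraMap ℝ ℂ) (1 / (N : ℝ)) = 1 / (N : ℂ) := by simp
      rw [h4] at h3
      rw [h3]
      refine Finset.prod_congr rfl fun i _ => ?_
      rw [Polynomial.map_sub, Polynomial.map_X, Polynomial.map_C]
      rfl
    rw [h2] at h1
    rw [hX']
    exact (hRIE g _ _).1 h1
  · intro N b hb hbe
    refine ⟨Matrix.of fun a j => (HEP.per b a j : ℂ), ⟨b, hb, hbe, fun a j => rfl⟩, ?_⟩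
    ext j a
    unfold Di
    rw [Matrix.transpose_apply, Matrix.mul_diagonal, Matrix.of_apply, Matrix.of_apply, mul_comm]
    rfl

/-- the rational pairing -/
noncomputable def Bq {m : ℕ} (α : Fin m → ℚ) (z : ℚ) : Matrix (Fin m) (Fin m) ℚ :=
  Matrix.of fun a b => (if (a : ℕ) + b + 1 = m then (-1) ^ (b : ℕ) else 0) + z * MUM.b1 α a b

theorem Bq_eq {m : ℕ} (α : Fin m → ℚ) (z : ℚ) : toC (Bq α z) = MUM.Bz α (z : ℂ) := by
  ext a b
  show ((Bq α z a b : ℚ) : ℂ) = MUM.Bz α (z : ℂ) a b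
  unfold Bq MUM.Bz
  rw [Matrix.of_apply, Matrix.of_apply]
  by_cases h : (a : ℕ) + b + 1 = m
  · rw [if_pos h, if_pos h]
    push_cast
    ring
  · rw [if_neg h, if_neg h]
    push_cast
    ring

theorem Jm_transpose (m : ℕ) : (MUM.Jm m)ᵀ = -(-1 : ℂ) ^ m • MUM.Jm m := (MUM.a_NJ m).2.2.2.2.2.2.2.1

/-- the hypergeometric families -/
theorem hgm (hPHG : T_PHG) (m : ℕ) (α : Fin m → ℚ) (c : ℚ) (e : ℕ) (hα : MUM.Sym m α)
    (hc : c ≠ 0) (he : 1 ≤ e) :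
    ∃ (Y : ℕ → Set (MUM.Mat m)) (B : ℕ → Matrix (Fin m) (Fin m) ℚ) (J D : MUM.Mat m),
      PFam m Y (fun N => {X | Xᵀ * toC (B N) * X = J}) ∧
      (∀ N, ∀ X ∈ Y N, Xᵀ * toC (B N) * X = J) ∧
      (∀ N : ℕ, |(c : ℝ)| < (N : ℝ) ^ e →
        ∃ X ∈ Y N, (MUM.Yv α ((c : ℂ) / (N : ℂ) ^ e))ᵀ = (X * D)ᵀ) ∧
      Dᵀ * J * D = MUM.Jm m := by
  have hB : ∀ N : ℕ, toC (Bq α (c / (N : ℚ) ^ e)) = MUM.Bz α ((c : ℂ) / (N : ℂ) ^ e) := by
    intro N
    rw [Bq_eq]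
    congr 1
    push_cast
    rfl
  refine ⟨fun N => {X | |(c : ℝ)| < (N : ℝ) ^ e ∧ X = MUM.Yv α ((c : ℂ) / (N : ℂ) ^ e)},
    fun N => Bq α (c / (N : ℚ) ^ e), MUM.Jm m, 1, ?_, ?_, ?_, ?_⟩
  · have h1 := hPHG m α c e hα hc he
    have h2 : (fun N : ℕ => {X : MUM.Mat m | Xᵀ * MUM.Bz α ((c : ℂ) / (N : ℂ) ^ e) * X =
        MUM.Jm m}) = fun N : ℕ => {X | Xᵀ * toC (Bq α (c / (N : ℚ) ^ e)) * X = MUM.Jm m} := by
      funext N
      rw [hB]
    rw [h2] at h1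
    exact PFam_mono h1 fun N X hX => hX.2
  · rintro N X ⟨hN, rfl⟩
    rw [hB]
    refine MUM.Yv_bil MUM.a_AN MUM.a_NJ α hα ?_
    have hNp : 0 < (N : ℝ) ^ e := lt_of_le_of_lt (abs_nonneg _) hN
    have h3 : ‖(c : ℂ) / (N : ℂ) ^ e‖ = |(c : ℝ)| / (N : ℝ) ^ e := by
      rw [norm_div, norm_pow, Complex.norm_natCast]
      congr 1
      have : (c : ℂ) = ((c : ℝ) : ℂ) := by push_cast; rfl
      rw [this, Complex.norm_real, Real.norm_eq_abs]
    rw [h3, div_lt_one hNp]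
    exact hN
  · intro N hN
    exact ⟨_, ⟨hN, rfl⟩, by rw [Matrix.mul_one]⟩
  · rw [Matrix.transpose_one, Matrix.one_mul, Matrix.mul_one]

end FAM_

end Pool.Agent.DRG
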