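import Pool.Agent.DRG.Targets
import Pool.Agent.MUM.OGEN

set_option autoImplicit false

/-!
# GSO: the special orthogonal group is generated by plane rotations
-/

open Matrix

namespace Pool.Agent.DRG

namespace GSO_

open Pool.Agent.MUM Pool.Agent.MUM.OREF_

variable {m : ℕ}

theorem rf_mulVec' (J : Mat m) (u x : Fin m → ℂ) :
    (rf J u).mulVec x = x - (2 * B J u x / B J u u) • u :=
  OGEN_.rf_mulVec J u x

theorem rf_sq' (J : Mat m) {u : Fin m → ℂ} (hu : B J u u ≠ 0) : rf J u * rf J u = 1 :=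
  OGEN_.rf_sq J u hu

/-- a reflection has determinant `-1` -/
theorem det_rf (J : Mat m) {u : Fin m → ℂ} (hu : B J u u ≠ 0) : (rf J u).det = -1 := by
  have hu' : u ⬝ᵥ J.mulVec u ≠ 0 := hu
  have h1 : rf J u = 1 + Matrix.replicateCol Unit (-(2 / (u ⬝ᵥ J.mulVec u)) • u) *
      Matrix.replicateRow Unit (u ᵥ* J) := by
    unfold rf
    rw [← Matrix.vecMulVec_eq, Matrix.vecMulVec_mul, Matrix.smul_vecMulVec, neg_smul,
      ← sub_eq_add_neg]
  rw [h1, Matrix.det_one_add_replicateCol_mul_replicateRow, dotProduct_smul,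
    ← Matrix.dotProduct_mulVec, smul_eq_mul]
  field_simp
  norm_num

/-- the reflection in `v` anticommutes with `v ∧ b` -/
theorem rf_wd {J : Mat m} (hJ : J.transpose = J) {v b : Fin m → ℂ} (hv : B J v v = 1)
    (hvb : B J v b = 0) : rf J v * wd J v b * rf J v = -wd J v b := by
  have hbv : B J b v = 0 := by rw [B_symm hJ]; exact hvb
  apply ext_mulVec
  intro x
  rw [← Matrix.mulVec_mulVec, ← Matrix.mulVec_mulVec, Matrix.neg_mulVec]
  simp only [rf_mulVec', wd_mulVec, sub_eq_add_neg, ← neg_smul, B_add_right, B_smul_right, hv,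
    hvb, hbv]
  match_scalars <;> ring

theorem rf_gam {J : Mat m} (hJ : J.transpose = J) {v b : Fin m → ℂ} (hv : B J v v = 1)
    (hvb : B J v b = 0) (t : ℂ) :
    rf J v * gam (wd J v b) (-t) * rf J v = gam (wd J v b) t := by
  have h1 := rf_wd hJ hv hvb
  have h2 : rf J v * rf J v = 1 := rf_sq' J (by rw [hv]; norm_num)
  have h3 : rf J v * (wd J v b * wd J v b) * rf J v = wd J v b * wd J v b := by
    calc rf J v * (wd J v b * wd J v b) * rf J v
        = rf J v * (wd J v b * 1 * wd J v b) * rf J v := by rw [mul_one]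
      _ = (rf J v * wd J v b * rf J v) * (rf J v * wd J v b * rf J v) := by
          rw [← h2]; noncomm_ring
      _ = wd J v b * wd J v b := by rw [h1, neg_mul_neg]
  unfold gam
  rw [Complex.sin_neg, Complex.cos_neg, mul_add, mul_add, add_mul, add_mul, mul_one, h2,
    mul_smul_comm, smul_mul_assoc, h1, mul_smul_comm, smul_mul_assoc, h3]
  module

/-- the hypothesis on `G` -/
def Rot (J : Mat m) (G : Submonoid (Mat m)) : Prop :=
  ∀ v b : Fin m → ℂ, B J v v = 1 → B J b b = 1 → B J v b = 0 → ∀ t : ℂ, gam (wd J v b) t ∈ G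

theorem pair1 {J : Mat m} (hJ : J.transpose = J) {G : Submonoid (Mat m)} (hG : Rot J G)
    {v u : Fin m → ℂ} (hv : B J v v = 1) (hu : B J u u = 1) (huv : B J u v ^ 2 ≠ 1) :
    rf J u * rf J v ∈ G := by
  obtain ⟨t, ht⟩ := Complex.cos_surjective (B J u v)
  have hcs : Complex.sin t ^ 2 + Complex.cos t ^ 2 = 1 := Complex.sin_sq_add_cos_sq t
  have hd : Complex.sin t ≠ 0 := by
    intro h0
    apply huv
    rw [← ht]
    rw [h0] at hcs
    linear_combination hcs
  set c := Complex.cos t with hc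
  set d := Complex.sin t with hdd
  set b : Fin m → ℂ := (-d⁻¹) • (u + (-c) • v) with hbdef
  have hvu : B J v u = c := by rw [B_symm hJ]; exact ht.symm
  have hvb : B J v b = 0 := by
    rw [hbdef, B_smul_right, B_add_right, B_smul_right, hv, hvu]
    ring
  have hb : B J b b = 1 := by
    have : B J (u + (-c) • v) b = -d⁻¹ * d ^ 2 := by
      rw [hbdef, B_smul_right, B_add_left, B_add_right, B_add_right, B_smul_left, B_smul_left,
        B_smul_right, B_smul_right, hv, hvu, hu, ← ht]
      linear_combination (-d⁻¹) * (-hcs)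
    rw [show B J b b = -d⁻¹ * B J (u + (-c) • v) b by
      conv_lhs => rw [hbdef, B_smul_left]
      , this]
    field_simp
  have hA := wd_cube hJ hv hb hvb
  have hgu : (gam (wd J v b) t).mulVec v = u := by
    rw [gam_v hJ hv hb hvb, hbdef, smul_smul, ← hdd, ← hc]
    have : d * -d⁻¹ = -1 := by field_simp
    rw [this]
    module
  have h1 := rf_conj hv hu (gam_inv hA t) hgu (gam_transpose_mul hJ v b t)
  have h2 : rf J u * rf J v = gam (wd J v b) t * gam (wd J v b) t := by
    rw [← h1, mul_assoc, mul_assoc, ← mul_assoc (rf J v), rf_gam hJ hv hvb]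
  rw [h2]
  exact G.mul_mem (hG v b hv hb hvb t) (hG v b hv hb hvb t)

theorem pair2 {J : Mat m} (hJ : J.transpose = J) {G : Submonoid (Mat m)} (hG : Rot J G)
    {v u : Fin m → ℂ} (hv : B J v v ≠ 0) (hu : B J u u ≠ 0)
    (huv : B J u v ^ 2 ≠ B J u u * B J v v) : rf J u * rf J v ∈ G := by
  obtain ⟨x, hx⟩ := IsAlgClosed.exists_pow_nat_eq (B J v v) (n := 2) (by norm_num)
  obtain ⟨y, hy⟩ := IsAlgClosed.exists_pow_nat_eq (B J u u) (n := 2) (by norm_num)
  have hx0 : x ≠ 0 := by rintro rfl; apply hv; rw [← hx]; norm_num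
  have hy0 : y ≠ 0 := by rintro rfl; apply hu; rw [← hy]; norm_num
  rw [← rf_smul J (inv_ne_zero hy0) u, ← rf_smul J (inv_ne_zero hx0) v]
  refine pair1 hJ hG ?_ ?_ ?_
  · rw [B_smul_left, B_smul_right, ← hx]; field_simp
  · rw [B_smul_left, B_smul_right, ← hy]; field_simp
  · rw [B_smul_left, B_smul_right]
    intro h
    apply huv
    rw [← hx, ← hy]
    field_simp at h
    linear_combination h

/-- the auxiliary vector -/
theorem aux {J : Mat m} (hJ : J.transpose = J) (hdet : J.det ≠ 0)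
    {v u : Fin m → ℂ} (hv : B J v v ≠ 0) (hu : B J u u ≠ 0)
    (huv : B J u v ^ 2 = B J u u * B J v v) :
    rf J u = rf J v ∨ ∃ w, B J w w ≠ 0 ∧ B J w v ^ 2 ≠ B J w w * B J v v ∧
      B J u w ^ 2 ≠ B J u u * B J w w := by
  set l := B J u v / B J v v with hl
  set u' : Fin m → ℂ := u + (-l) • v with hu'
  have hlv : l * B J v v = B J u v := by rw [hl]; field_simp
  have hvu : B J v u = B J u v := B_symm hJ _ _
  have e1 : B J u' v = 0 := by
    rw [hu', B_add_left, B_smul_left]
    linear_combination (-1 : ℂ) * hlv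
  have e2 : B J u' u = 0 := by
    rw [hu', B_add_left, B_smul_left, hvu]
    apply mul_right_cancel₀ hv
    linear_combination (-1 : ℂ) * huv - B J u v * hlv
  have e3 : B J u' u' = 0 := by
    have : B J u' u' = B J u' u + (-l) * B J u' v := by
      conv_lhs => rw [hu', B_add_right, B_smul_right, ← hu']
    rw [this, e1, e2]
    ring
  have hu2 : u = u' + l • v := by rw [hu']; module
  by_cases h0 : u' = 0
  · -- `u` is proportional to `v`
    have hl0 : l ≠ 0 := by
      intro hl0
      apply hu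
      rw [hu2, h0, hl0]
      simp [B]
    left
    rw [hu2, h0, zero_add, rf_smul J hl0]
  right
  -- an auxiliary vector
  obtain ⟨w0, hw0⟩ : ∃ w0, B J w0 u' ≠ 0 := by
    by_contra hcon
    push Not at hcon
    apply h0
    have h5 : J.mulVec u' = 0 := by
      funext i
      have := hcon (Pi.single i 1)
      simpa [B] using this
    exact Matrix.eq_zero_of_mulVec_eq_zero hdet h5
  have e4 : B J v u' = 0 := by rw [B_symm hJ]; exact e1
  obtain ⟨w1, e5, e6⟩ : ∃ w1, B J w1 u' = 1 ∧ B J w1 v = 0 := by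
    refine ⟨(B J w0 u')⁻¹ • (w0 + (-(B J w0 v / B J v v)) • v), ?_, ?_⟩
    · rw [B_smul_left, B_add_left, B_smul_left, e4, mul_zero, add_zero]
      exact inv_mul_cancel₀ hw0
    · rw [B_smul_left, B_add_left, B_smul_left]
      have : B J w0 v + -(B J w0 v / B J v v) * B J v v = 0 := by
        field_simp
        ring
      rw [this, mul_zero]
  set k : ℂ := 2 / B J u u with hk
  set s : ℂ := (k - B J w1 w1) / 2 with hs'
  obtain ⟨w, hw⟩ : ∃ w, w = w1 + s • u' := ⟨_, rfl⟩
  have e7 : B J w v = 0 := by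
    rw [hw, B_add_left, B_smul_left, e6, e1]
    ring
  have e8 : B J w w = k := by
    rw [hw, B_add_left, B_add_right, B_smul_left, B_add_right, B_smul_right, B_smul_right, e3, e5,
      B_symm hJ u' w1, e5, hs']
    ring
  have e9 : B J w u = 1 := by
    have : B J w u' = 1 := by
      rw [hw, B_add_left, B_smul_left, e5, e3]
      ring
    rw [hu2, B_add_right, B_smul_right, e7, this]
    ring
  have hk0 : k ≠ 0 := by
    rw [hk]
    exact div_ne_zero two_ne_zero hu
  have hku : B J u u * k = 2 := by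
    rw [hk]
    field_simp
  refine ⟨w, by rw [e8]; exact hk0, ?_, ?_⟩
  · rw [e7, e8]
    intro h
    have : k * B J v v = 0 := by rw [← h]; ring
    exact (mul_ne_zero hk0 hv) this
  · rw [e8, hku, B_symm hJ u w, e9]
    norm_num

theorem pair {J : Mat m} (hJ : J.transpose = J) (hdet : J.det ≠ 0) {G : Submonoid (Mat m)}
    (hG : Rot J G) {v u : Fin m → ℂ} (hv : B J v v ≠ 0) (hu : B J u u ≠ 0) :
    rf J u * rf J v ∈ G := by
  by_cases huv : B J u v ^ 2 = B J u u * B J v v
  swap
  · exact pair2 hJ hG hv hu huv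
  rcases aux hJ hdet hv hu huv with h | ⟨w, h1, h2, h3⟩
  · rw [h, rf_sq' J hv]
    exact G.one_mem
  · have h4 : rf J u * rf J v = (rf J u * rf J w) * (rf J w * rf J v) := by
      rw [mul_assoc, ← mul_assoc (rf J w), rf_sq' J h1, one_mul]
    rw [h4]
    exact G.mul_mem (pair2 hJ hG h1 hu h3) (pair2 hJ hG hv h1 h2)

end GSO_

open GSO_ in
theorem p_GSO : T_GSO := by
  intro m J g _ hJ hdet hg hgd G hG
  have hgen := MUM.p_OGEN m J g hJ hdet hg
  have hG' : Rot J G := hG
  have key : ∀ h ∈ Submonoid.closure {T | ∃ u : Fin m → ℂ, u ⬝ᵥ J.mulVec u ≠ 0 ∧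
      T = MUM.rf J u}, (h.det = 1 ∧ h ∈ G) ∨ (h.det = -1 ∧ ∀ u : Fin m → ℂ,
      u ⬝ᵥ J.mulVec u ≠ 0 → h * MUM.rf J u ∈ G) := by
    intro h hh
    induction hh using Submonoid.closure_induction_right with
    | one => left; exact ⟨Matrix.det_one, G.one_mem⟩
    | mul_right x hx y hy ih =>
      obtain ⟨w, hw, rfl⟩ := hy
      have hd : (MUM.rf J w).det = -1 := det_rf J hw
      rcases ih with ⟨h1, h2⟩ | ⟨h1, h2⟩
      · right
        refine ⟨by rw [Matrix.det_mul, h1, hd]; norm_num, fun u hu => ?_⟩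
        rw [mul_assoc]
        exact G.mul_mem h2 (pair hJ hdet hG' hu hw)
      · left
        exact ⟨by rw [Matrix.det_mul, h1, hd]; norm_num, h2 w hw⟩
  rcases key g hgen with ⟨_, h⟩ | ⟨h, _⟩
  · exact h
  · exfalso
    rw [hgd] at h
    norm_num at h

end Pool.Agent.DRG
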