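import Mathlib
import Pool.Agent.DRG.Targets
import Pool.Agent.DRG.H21Tools

/-!
# HOMG: a relation between two entries gives a contradiction
-/

set_option autoImplicit false

open Matrix

namespace Pool.Agent.DRG

namespace HOMG_

open H21_

variable {m : ℕ}

/-- orthonormal vectors, the first orthogonal to `u`, the second not -/
theorem exists_pair {J : Matrix (Fin m) (Fin m) ℂ} (hJ : Jᵀ = J) (hdet : J.det ≠ 0)
    (hm : 3 ≤ m) {u : Fin m → ℂ} (hu : u ≠ 0) :
    ∃ x y, B J x x = 1 ∧ B J y y = 1 ∧ B J x y = 0 ∧ B J x u = 0 ∧ B J y u ≠ 0 := by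
  by_cases huu : B J u u = 0
  · -- `u` is isotropic
    obtain ⟨z0, hz0⟩ : ∃ z, B J z u ≠ 0 := by
      by_contra hcon
      push Not at hcon
      exact hu (eq_zero_of hdet hcon)
    obtain ⟨z, hz⟩ : ∃ z, B J z u = 1 :=
      ⟨(B J z0 u)⁻¹ • z0, by rw [B_smul_left]; exact inv_mul_cancel₀ hz0⟩
    have huz : B J u z = 1 := by rw [B_symm hJ]; exact hz
    -- a nonisotropic vector orthogonal to `u`
    obtain ⟨x, hx, hxu⟩ : ∃ x, B J x x = 1 ∧ B J x u = 0 := by
      by_contra hcon
      push Not at hcon
      let W : Submodule ℂ (Fin m → ℂ) :=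
        { carrier := {x | B J x u = 0}
          add_mem' := fun {a b} ha hb => by
            simp only [Set.mem_ofPred_eq] at ha hb ⊢
            rw [B_add_left, ha, hb, add_zero]
          zero_mem' := by simp [B]
          smul_mem' := fun c x hx => by
            simp only [Set.mem_ofPred_eq] at hx ⊢
            rw [B_smul_left, hx, mul_zero] }
      have hW : ∀ x, x ∈ W ↔ B J x u = 0 := fun x => Iff.rfl
      have hiso : ∀ x ∈ W, B J x x = 0 := by
        intro x hx
        by_contra hne
        obtain ⟨s, _, hs⟩ := exists_unit J hne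
        exact hcon (s • x) hs (by rw [B_smul_left, (hW x).1 hx, mul_zero])
      have hpol := polar hJ W hiso
      have hproj : ∀ w, w - B J w u • z ∈ W := fun w => by
        rw [hW, B_sub_left, B_smul_left, hz, mul_one, sub_self]
      have hW1 : ∀ x ∈ W, x = B J x z • u := by
        intro x hx
        have h0 : x - B J x z • u = 0 := by
          apply eq_zero_of hdet
          intro w
          have h1 := hpol _ (hproj w) x hx
          rw [B_sub_left, B_smul_left] at h1
          rw [B_sub_right, B_smul_right, B_symm hJ x z]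
          linear_combination h1
        exact sub_eq_zero.mp h0
      have h1 : (1 : Matrix (Fin m) (Fin m) ℂ) = O J z u + O J u z - B J z z • O J u u := by
        apply ext_mulVec
        intro w
        rw [Matrix.one_mulVec, Matrix.sub_mulVec, Matrix.add_mulVec, Matrix.smul_mulVec, O_mulVec,
          O_mulVec, O_mulVec]
        have h2 := hW1 _ (hproj w)
        rw [B_sub_left, B_smul_left] at h2
        have h3 : w = B J w u • z + (B J w z - B J w u * B J z z) • u := by
          rw [← h2]; abel
        rw [B_symm hJ u w, B_symm hJ z w]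
        conv_lhs => rw [h3]
        module
      have h2 := congrArg Matrix.trace h1
      rw [Matrix.trace_sub, Matrix.trace_add, Matrix.trace_smul, O_trace, O_trace, O_trace, hz, huz,
        huu, Matrix.trace_one, Fintype.card_fin, smul_zero, sub_zero] at h2
      have h3 : (m : ℂ) = ((2 : ℕ) : ℂ) := by rw [h2]; norm_num
      have h4 : m = 2 := by exact_mod_cast h3
      omega
    have hux : B J u x = 0 := by rw [B_symm hJ]; exact hxu
    set y0 : Fin m → ℂ := z - B J x z • x with hy0
    have h1 : B J x y0 = 0 := by rw [hy0, B_sub_right, B_smul_right, hx, mul_one, sub_self]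
    have h2 : B J y0 u = 1 := by rw [hy0, B_sub_left, B_smul_left, hxu, mul_zero, sub_zero, hz]
    have h3 : B J u y0 = 1 := by rw [B_symm hJ]; exact h2
    refine ⟨x, y0 + ((1 - B J y0 y0) / 2) • u, hx, ?_, ?_, hxu, ?_⟩
    · rw [B_add_left, B_add_right, B_add_right, B_smul_left, B_smul_left, B_smul_right,
        B_smul_right, h2, h3, huu]
      ring
    · rw [B_add_right, B_smul_right, h1, hxu, mul_zero, add_zero]
    · rw [B_add_left, B_smul_left, h2, huu, mul_zero, add_zero]
      exact one_ne_zero
  · obtain ⟨s, hs0, hs⟩ := exists_unit J huu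
    obtain ⟨x, hx, hsx⟩ := exists_orth1 hJ hdet (by omega) hs
    rw [B_smul_left] at hsx
    have hux : B J u x = 0 := (mul_eq_zero.mp hsx).resolve_left hs0
    refine ⟨x, s • u, hx, hs, ?_, ?_, ?_⟩
    · rw [B_smul_right, B_symm hJ, hux, mul_zero]
    · rw [B_symm hJ]; exact hux
    · rw [B_smul_left]
      exact mul_ne_zero hs0 huu

end HOMG_

open HOMG_ H21_ in
theorem p_HOMG : T_HOMG := by
  classical
  intro m S D hSy hBD hp
  obtain ⟨hsym, hunit, hm⟩ := hSy
  set E := DRB.toC S.E with hEdef
  set J := E⁻¹ with hJdef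
  have hJ : Jᵀ = J := inv_symm hsym
  have hdet : J.det ≠ 0 := inv_det hunit
  have hEdet : IsUnit E.det := (Matrix.isUnit_iff_isUnit_det E).1 hunit
  -- `Φ` is invertible
  have hΦdet : S.Φ.det ≠ 0 := by
    intro h0
    have h1 := congrArg Matrix.det S.rel
    rw [Matrix.det_mul, Matrix.det_mul, h0, zero_mul, zero_mul, Matrix.det_smul] at h1
    have h2 : S.κ ^ Fintype.card (Fin m) * E.det ≠ 0 :=
      mul_ne_zero (pow_ne_zero _ S.hκ) hEdet.ne_zero
    exact h2 h1.symm
  let k : Fin m := ⟨0, S.hm⟩
  obtain ⟨a, ha⟩ : ∃ a, S.Φ k a ≠ 0 := by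
    by_contra hcon
    push Not at hcon
    exact hΦdet (Matrix.det_eq_zero_of_row_eq_zero k hcon)
  set u : Fin m → ℂ := fun j => S.Φ j a with hu
  have huk : u k ≠ 0 := ha
  have hu0 : u ≠ 0 := fun h => huk (by rw [h]; rfl)
  obtain ⟨x, y, hx, hy, hxy, hxu, hyu⟩ := exists_pair hJ hdet hm hu0
  set A := MUM.wd J x y with hA
  have hA3 : A * A * A = -A := MUM.OREF_.wd_cube hJ hx hy hxy
  have hgmem : ∀ t, MUM.OREF_.gam A t ∈ DRB.Sp E := by
    intro t
    apply isometry_mem hunit
    rw [← hJdef, hA, MUM.OREF_.gam_transpose_mul hJ x y t, Matrix.mul_assoc, ← hA]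
    have h1 := MUM.OREF_.gam_inv hA3 (-t)
    rw [neg_neg] at h1
    rw [h1, Matrix.mul_one]
  -- the ratios are locally constant
  have hratio : ∀ i, (A *ᵥ u) i * u k = u i * (A *ᵥ u) k := by
    intro i
    obtain ⟨p, hmon, hdeg, hroot⟩ := hp i k a ha
    set e := p.natDegree with he
    set P : MvPolynomial (Fin m × Fin m) ℚ := ∑ q ∈ Finset.range (e + 1),
      MvPolynomial.C (p.coeff q) * (MvPolynomial.X (i, a) ^ q * MvPolynomial.X (k, a) ^ (e - q))
      with hP
    have hPdeg : P.totalDegree ≤ D := by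
      refine (MvPolynomial.totalDegree_finsetSum _ _).trans ?_
      apply Finset.sup_le
      intro q hq
      have hqe : q ≤ e := Nat.lt_succ_iff.1 (Finset.mem_range.1 hq)
      refine (MvPolynomial.totalDegree_mul _ _).trans ?_
      rw [MvPolynomial.totalDegree_C, zero_add]
      refine (MvPolynomial.totalDegree_mul _ _).trans ?_
      rw [MvPolynomial.totalDegree_X_pow, MvPolynomial.totalDegree_X_pow]
      omega
    have hPval : ∀ M : Matrix (Fin m) (Fin m) ℂ, M k a ≠ 0 →
        MvPolynomial.aeval (fun p => M p.1 p.2) P =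
          M k a ^ e * Polynomial.aeval (M i a / M k a) p := by
      intro M hM
      rw [hP, map_sum, Polynomial.aeval_eq_sum_range, Finset.mul_sum]
      apply Finset.sum_congr rfl
      intro q hq
      have hqe : q ≤ e := Nat.lt_succ_iff.1 (Finset.mem_range.1 hq)
      rw [map_mul, map_mul, map_pow, map_pow, MvPolynomial.aeval_X, MvPolynomial.aeval_X,
        MvPolynomial.algHom_C, Algebra.smul_def, div_pow]
      have h1 : M k a ^ e = M k a ^ (e - q) * M k a ^ q := by
        rw [← pow_add]; congr 1; omega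
      show _ = _
      rw [h1]
      have h2 : M k a ^ q ≠ 0 := pow_ne_zero _ hM
      field_simp
    have hP0 : MvPolynomial.aeval (fun p => S.Φ p.1 p.2) P = 0 := by
      rw [hPval _ ha, hroot, mul_zero]
    have hall := hBD P hPdeg hP0
    -- the functions
    set f : Fin m → ℂ → ℂ := fun j t => (MUM.OREF_.gam A t * S.Φ) j a with hf
    have hfu : ∀ j t, f j t = ∑ b, MUM.OREF_.gam A t j b * u b := fun j t => by
      rw [hf]
      simp only [Matrix.mul_apply, hu]
    have hfd : ∀ j, HasDerivAt (f j) ((A *ᵥ u) j) 0 := by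
      intro j
      have h1 : HasDerivAt (fun t => ∑ b, MUM.OREF_.gam A t j b * u b)
          (∑ b, (MUM.OREF_.gam A 0 * A) j b * u b) 0 := by
        refine HasDerivAt.fun_sum fun b _ => ?_
        exact (MUM.OREF_.gam_deriv hA3 0 j b).mul_const _
      rw [MUM.OREF_.gam_zero, Matrix.one_mul] at h1
      have h2 : f j = fun t => ∑ b, MUM.OREF_.gam A t j b * u b := funext (hfu j)
      rw [h2]
      exact h1
    have hf0 : ∀ j, f j 0 = u j := fun j => by
      rw [hf]
      simp only [MUM.OREF_.gam_zero, Matrix.one_mul, hu]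
    have hfk : ∀ᶠ t in nhds (0 : ℂ), f k t ≠ 0 := by
      have h1 := (hfd k).continuousAt
      exact h1.eventually_ne (by rw [hf0]; exact huk)
    have hp0 : p.map (algebraMap ℚ ℂ) ≠ 0 := by
      rw [Ne, Polynomial.map_eq_zero_iff (algebraMap ℚ ℂ).injective]
      exact hmon.ne_zero
    set R : Finset ℂ := (p.map (algebraMap ℚ ℂ)).roots.toFinset with hR
    have hmemR : ∀ᶠ t in nhds (0 : ℂ), f i t / f k t ∈ R := by
      filter_upwards [hfk] with t ht
      have h1 := hall (MUM.OREF_.gam A t) (hgmem t)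
      rw [hPval _ ht] at h1
      have h2 := (mul_eq_zero.1 h1).resolve_left (pow_ne_zero _ ht)
      rw [hR, Multiset.mem_toFinset, Polynomial.mem_roots hp0, Polynomial.IsRoot.def,
        Polynomial.eval_map, ← Polynomial.aeval_def]
      exact h2
    have hcont : ContinuousAt (fun t => f i t / f k t) 0 :=
      (hfd i).continuousAt.div (hfd k).continuousAt (by rw [hf0]; exact huk)
    have hconst : ∀ᶠ t in nhds (0 : ℂ), f i t / f k t = u i / u k := by
      have hopen : IsOpen (((R.erase (u i / u k) : Finset ℂ) : Set ℂ)ᶜ) :=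
        (Finset.isClosed _).isOpen_compl
      have hmem : f i 0 / f k 0 ∈ (((R.erase (u i / u k) : Finset ℂ) : Set ℂ)ᶜ) := by
        rw [hf0, hf0]
        simp
      have h1 := hcont.eventually (hopen.mem_nhds hmem)
      filter_upwards [h1, hmemR] with t ht1 ht2
      by_contra hne
      exact ht1 (Finset.mem_coe.mpr (Finset.mem_erase.mpr ⟨hne, ht2⟩))
    have heq : (fun t => f i t * u k) =ᶠ[nhds 0] fun t => u i * f k t := by
      filter_upwards [hconst, hfk] with t ht1 ht2
      rw [div_eq_div_iff ht2 huk] at ht1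
      exact ht1
    have hd1 : HasDerivAt (fun t => f i t * u k) ((A *ᵥ u) i * u k) 0 := (hfd i).mul_const _
    have hd2 : HasDerivAt (fun t => u i * f k t) (u i * (A *ᵥ u) k) 0 := (hfd k).const_mul _
    exact hd1.unique (hd2.congr_of_eventuallyEq heq)
  -- `u` is an eigenvector of `A`
  have hAu : A *ᵥ u = B J y u • x := by
    have h1 := MUM.OREF_.wd_mulVec J x y u
    have h2 : MUM.OREF_.B J x u = 0 := hxu
    rw [h2, zero_smul, sub_zero] at h1
    exact h1
  have hxu' : x = ((A *ᵥ u) k / u k / B J y u) • u := by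
    have h1 : A *ᵥ u = ((A *ᵥ u) k / u k) • u := by
      funext i
      rw [Pi.smul_apply, smul_eq_mul, div_mul_eq_mul_div, eq_div_iff huk, hratio i]
      ring
    have h2 : B J y u • x = ((A *ᵥ u) k / u k) • u := by rw [← hAu]; exact h1
    have h3 : x = (B J y u)⁻¹ • (B J y u • x) := by
      rw [smul_smul, inv_mul_cancel₀ hyu, one_smul]
    rw [h2, smul_smul] at h3
    rw [h3]
    congr 1
    field_simp
  obtain ⟨c, hc⟩ : ∃ c : ℂ, x = c • u := ⟨_, hxu'⟩
  have h1 : B J x x = 0 := by
    calc B J x x = B J x (c • u) := by rw [← hc]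
      _ = 0 := by rw [B_smul_right, hxu, mul_zero]
  rw [hx] at h1
  exact one_ne_zero h1

end Pool.Agent.DRG
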