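import Pool.Agent.DRG.Targets

/-!
# DRG: MAIN, relations of bounded degree exclude finite groups
-/

set_option autoImplicit false

open Matrix

namespace Pool.Agent.DRG

open Pool.Agent.DRB (cx im toC TI tpow dtpow tens dtens Ix Fam tot Sp gsp Pres Fs Bad)

namespace MAIN_

lemma isUnit_Q {m : ℕ} (S : FinSys m) : IsUnit (toC S.Q) := by
  have h1 : IsUnit (S.κ • toC S.E).det := by
    rw [Matrix.det_smul]
    have h2 : IsUnit (toC S.E).det := (Matrix.isUnit_iff_isUnit_det _).1 S.hE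
    exact (IsUnit.pow _ (isUnit_iff_ne_zero.2 S.hκ)).mul h2
  rw [← S.rel, Matrix.det_mul, Matrix.det_mul] at h1
  exact (Matrix.isUnit_iff_isUnit_det _).2
    (isUnit_of_mul_isUnit_right (isUnit_of_mul_isUnit_left h1))

/-- the system of `DRB` -/
noncomputable def conv {m : ℕ} (S : FinSys m) (h : DRB.Alt (toC S.E)) : DRB.FinSys m where
  κ := S.κ
  Q := S.Q
  E := S.E
  Φ := S.Φ
  F := S.F
  hm := S.hm
  hκ := S.hκ
  hE := h
  hQ := isUnit_Q S
  rel := S.rel
  one_mem := S.one_mem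
  mul_mem := S.mul_mem
  inv_mem := S.inv_mem
  sp_mem := S.sp_mem
  sig_mem := S.sig_mem
  sig_phi := S.sig_phi

end MAIN_

open MAIN_ in
/-- MAIN: relations of bounded degree exclude finite groups. -/
theorem p_MAIN (h0 : DRB.T_MAIN) (h1 : T_CARD) (h2 : T_MINP) (h3 : T_HOMG) : T_MAIN := by
  intro m
  obtain ⟨D0, hD0⟩ := h0 m
  obtain ⟨J, hJ⟩ := h1 m
  refine ⟨max D0 (max 2 J), fun S hOk hS => ?_⟩
  rcases hOk with hA | hSy
  · refine hD0 (conv S hA) ?_
    intro P hP
    exact hS P (hP.trans (le_max_left _ _))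
  · have hS2 : BD1 2 S := fun P hP =>
      hS P (hP.trans ((le_max_left _ _).trans (le_max_right _ _)))
    have hS3 : BD1 (max 2 J) S := fun P hP => hS P (hP.trans (le_max_right _ _))
    refine h3 m S (max 2 J) hSy hS3 fun i k a hk => ?_
    obtain ⟨p, hp, hpd, hp0⟩ := h2 m S i k a hk
    exact ⟨p, hp, hpd.trans ((hJ S hSy hS2).trans (le_max_right _ _)), hp0⟩

end Pool.Agent.DRG
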