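import Mathlib
import Pool.Agent.DRG.Targets
import Pool.Agent.HEP.FINH

/-!
# MIX: relations of bounded degree for mixed products of families
-/

set_option autoImplicit false

namespace Pool.Agent.DRG

open Pool.Agent.LEG

namespace MIX_

/-- indices of the constants -/
abbrev Cn (k : ℕ) {n : ℕ} (κ : Fin n → ℕ) : Type := Fin k ⊕ ((l : Fin n) × Fin (κ l))

/-- the renaming of the variables of one factor -/
def rho {k n k' : ℕ} {κ M : Fin n → ℕ} (E : Cn k κ ≃ Fin k') (l : Fin n) :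
    Fin (κ l) ⊕ Option (Fin (M l)) → Fin k' ⊕ GFam.Vr M :=
  Sum.elim (fun a => Sum.inl (E (Sum.inr ⟨l, a⟩))) (fun o => Sum.inr ⟨l, o⟩)

/-- the substitution -/
noncomputable def FF {k n k' : ℕ} {κ M m : Fin n → ℕ} (E : Cn k κ ≃ Fin k')
    (S : ∀ l, Fin (m l) × Fin (m l) → MvPolynomial (Fin (κ l) ⊕ Option (Fin (M l))) ℤ) :
    Fin k ⊕ Var m → MvPolynomial (Fin k' ⊕ GFam.Vr M) ℤ
  | .inl j => MvPolynomial.X (.inl (E (.inl j)))
  | .inr p => MvPolynomial.rename (rho E p.1) (S p.1 p.2)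

theorem FF_deg {k n k' : ℕ} {κ M m : Fin n → ℕ} (E : Cn k κ ≃ Fin k')
    (S : ∀ l, Fin (m l) × Fin (m l) → MvPolynomial (Fin (κ l) ⊕ Option (Fin (M l))) ℤ)
    (d : ℕ) (hd : 1 ≤ d) (hS : ∀ l p, (S l p).totalDegree ≤ d) (x : Fin k ⊕ Var m) :
    (FF E S x).totalDegree ≤ d := by
  rcases x with j | p
  · unfold FF
    rw [MvPolynomial.totalDegree_X]
    exact hd
  · unfold FF
    exact (MvPolynomial.totalDegree_rename_le _ _).trans (hS _ _)

theorem FF_eval {k n k' : ℕ} {κ M m : Fin n → ℕ} (E : Cn k κ ≃ Fin k')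
    (S : ∀ l, Fin (m l) × Fin (m l) → MvPolynomial (Fin (κ l) ⊕ Option (Fin (M l))) ℤ)
    (θ : Fin k → ℂ) (w : ∀ l, Fin (κ l) → ℂ) (v : GFam.Vr M → ℂ) (u : Var m → ℂ)
    (hu : ∀ p : Var m, u p = MvPolynomial.aeval (Sum.elim (w p.1) (fun o => v ⟨p.1, o⟩))
      (S p.1 p.2)) (P : MvPolynomial (Fin k ⊕ Var m) ℤ) :
    MvPolynomial.aeval (Sum.elim (fun j => (Sum.elim θ (fun q : (l : Fin n) × Fin (κ l) =>
      w q.1 q.2) : Cn k κ → ℂ) (E.symm j)) v) (MvPolynomial.aeval (FF E S) P) =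
      MvPolynomial.aeval (Sum.elim θ u) P := by
  have h1 : ((MvPolynomial.aeval (R := ℤ) (Sum.elim (fun j => (Sum.elim θ
      (fun q : (l : Fin n) × Fin (κ l) => w q.1 q.2) : Cn k κ → ℂ) (E.symm j)) v)).comp
      (MvPolynomial.aeval (FF E S))) = MvPolynomial.aeval (Sum.elim θ u) := by
    apply MvPolynomial.algHom_ext
    intro x
    rcases x with j | p
    · simp [FF]
    · simp only [AlgHom.coe_comp, Function.comp_apply, MvPolynomial.aeval_X, Sum.elim_inr]
      rw [hu]
      simp only [FF]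
      rw [MvPolynomial.aeval_rename]
      congr 1
      congr 1
      funext y
      rcases y with a | o <;> simp [rho]
  rw [← h1]
  rfl

end MIX_

open MIX_ in
theorem p_MIX (h : GFam.T_GFIN) : T_MIX := by
  classical
  intro n k D m Y V hfam
  choose M κ N0 f w S hG hsys hY hV using hfam
  -- a bound for the degrees
  obtain ⟨d, hd1, hd⟩ : ∃ d : ℕ, 1 ≤ d ∧ ∀ l p, (S l p).totalDegree ≤ d := by
    refine ⟨1 + ∑ l, ∑ p, (S l p).totalDegree, Nat.le_add_right _ _, fun l p => ?_⟩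
    have h1 : (S l p).totalDegree ≤ ∑ p, (S l p).totalDegree :=
      Finset.single_le_sum (f := fun p => (S l p).totalDegree) (fun _ _ => Nat.zero_le _)
        (Finset.mem_univ p)
    have h2 : ∑ p, (S l p).totalDegree ≤ ∑ l, ∑ p, (S l p).totalDegree :=
      Finset.single_le_sum (f := fun l => ∑ p, (S l p).totalDegree) (fun _ _ => Nat.zero_le _)
        (Finset.mem_univ l)
    omega
  obtain ⟨K0, hK0, hcount⟩ := h n (Fintype.card (Cn k κ)) (d * D) M f hG hsys
  set E : Cn k κ ≃ Fin (Fintype.card (Cn k κ)) := Fintype.equivFin _ with hE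
  refine ⟨K0 + n * (∑ l, N0 l), hK0.trans (Nat.le_add_right _ _), fun T θ hT => ?_⟩
  refine HEP.FINH_.count n (∑ l, N0 l) K0 T hK0 hT _ _ (fun N hN => hN.1) (fun N hN => hN.1) ?_
    (hcount T hT (fun j => (Sum.elim θ (fun q : (l : Fin n) × Fin (κ l) =>
      w q.1 q.2) : Cn k κ → ℂ) (E.symm j)))
  rintro N ⟨hN, X, P, hX, hPD, hP0, X', hX', hPX⟩ hbig
  have hNl : ∀ l, N0 l ≤ N l := fun l =>
    (Finset.single_le_sum (f := N0) (fun i _ => Nat.zero_le _) (Finset.mem_univ l)).trans (hbig l)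
  refine ⟨hN, MvPolynomial.aeval (FF E S) P, ?_, ?_, ?_⟩
  · exact (HEP.FINH_.totalDegree_aeval_le _ d (FF_deg E S d hd1 hd) P).trans
      (Nat.mul_le_mul_left _ hPD)
  · rw [FF_eval E S θ w _ (fun p : Var m => X p.1 p.2.1 p.2.2) _ P, hP0]
    intro p
    exact hY p.1 (N p.1) (hNl p.1) (X p.1) (hX p.1) p.2
  · intro hmem
    apply hPX
    choose v hvR hvX using fun l => hV l (N l) (hNl l) (X' l) (hX' l)
    set v' : GFam.Vr M → ℂ := fun p => v p.1 p.2 with hv'
    have hvan : ∀ Q ∈ Ideal.span (GFam.FRel f N), MvPolynomial.eval v' Q = 0 := by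
      intro Q hQ
      have hle : Ideal.span (GFam.FRel f N) ≤ RingHom.ker (MvPolynomial.eval v') := by
        rw [Ideal.span_le]
        rintro Q ⟨i, R, hR, rfl⟩
        have h11 := hvR i R hR
        rw [SetLike.mem_coe, RingHom.mem_ker, MvPolynomial.hom_eval₂]
        have h14 : (MvPolynomial.eval v').comp ((MvPolynomial.C.comp (algebraMap ℚ ℂ)).comp
            (Polynomial.evalRingHom (1 / (N i : ℚ)))) =
            (algebraMap ℚ ℂ).comp (Polynomial.evalRingHom (1 / (N i : ℚ))) := by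
          refine RingHom.ext fun q => ?_
          change MvPolynomial.eval v' (MvPolynomial.C _) = _
          rw [MvPolynomial.eval_C]
          rfl
        rw [h14]
        refine Eq.trans ?_ h11
        congr 1
        funext l
        change MvPolynomial.eval v' (MvPolynomial.X _) = _
        rw [MvPolynomial.eval_X]
      exact hle hQ
    have h9 := hvan _ hmem
    have h10 := FF_eval E S θ w v' (fun p : Var m => X' p.1 p.2.1 p.2.2) (by
      intro p
      exact hvX p.1 p.2) P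
    rw [← h10, ← h9]
    have h13 : (MvPolynomial.eval v').comp (MvPolynomial.aeval (R := ℤ)
        (Sum.elim (fun j => MvPolynomial.C ((Sum.elim θ (fun q : (l : Fin n) × Fin (κ l) =>
          w q.1 q.2) : Cn k κ → ℂ) (E.symm j))) MvPolynomial.X)).toRingHom =
        (MvPolynomial.aeval (R := ℤ) (Sum.elim (fun j => (Sum.elim θ
          (fun q : (l : Fin n) × Fin (κ l) => w q.1 q.2) : Cn k κ → ℂ) (E.symm j))
          v')).toRingHom := by
      apply MvPolynomial.ringHom_ext
      · intro r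
        simp
      · intro x
        rcases x with j | p <;> simp
    exact (congrArg (fun φ => φ (MvPolynomial.aeval (FF E S) P)) h13).symm

end Pool.Agent.DRG
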