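import Pool.Agent.DRG.Targets
import Pool.Agent.HEP.FINH

/-!
# DRG-PHE: hyperelliptic families
-/

set_option autoImplicit false

namespace Pool.Agent.DRG

open Finset Pool.Agent.LEG Pool.Agent.HEP Pool.Agent.HEP.FINH_

namespace PHE_

/-- the entries of the period matrix in terms of the fundamental solution -/
noncomputable def SS (m : ℕ) (p : Fin m × Fin m) :
    MvPolynomial (Fin (m * m) ⊕ Option (Fin (m * m))) ℤ :=
  ∑ l, MvPolynomial.X (.inr (some (finProdFinEquiv (p.1, l)))) *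
    MvPolynomial.X (.inl (finProdFinEquiv (l, p.2)))

/-- the constants -/
noncomputable def ww {m : ℕ} (w0 : Matrix (Fin m) (Fin m) ℂ) (q : Fin (m * m)) : ℂ :=
  w0 (finProdFinEquiv.symm q).1 (finProdFinEquiv.symm q).2

theorem ww_apply {m : ℕ} (w0 : Matrix (Fin m) (Fin m) ℂ) (i j : Fin m) :
    ww w0 (finProdFinEquiv (i, j)) = w0 i j := by
  unfold ww
  rw [Equiv.symm_apply_apply]

theorem SS_eval {m : ℕ} (w0 : Matrix (Fin m) (Fin m) ℂ) (v : Option (Fin (m * m)) → ℂ)
    (p : Fin m × Fin m) : MvPolynomial.aeval (Sum.elim (ww w0) v) (SS m p) =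
      ∑ l, v (some (finProdFinEquiv (p.1, l))) * w0 l p.2 := by
  unfold SS
  rw [map_sum]
  refine Finset.sum_congr rfl fun l _ => ?_
  rw [map_mul, MvPolynomial.aeval_X, MvPolynomial.aeval_X, Sum.elim_inr, Sum.elim_inl, ww_apply]

end PHE_

open PHE_ in
/-- PHE: hyperelliptic families. -/
theorem p_PHE (h1 : HEP.T_FUN) (h2 : HEP.T_UNI) (h3 : HEP.T_SQI) (h4 : HEP.T_FG)
    (h5 : HEP.T_FODE) (h6 : HEP.T_ALGID) : T_PHE := by
  intro g h hg h0 he
  obtain ⟨e, hmono, hprod⟩ := he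
  obtain ⟨a, C, hS⟩ := h3 h h0
  have hHD : HD (2 * g) h e a C := ⟨by omega, even_two_mul _, hmono, hprod, hS⟩
  obtain ⟨w0, N0, hdet, hN0, hmain⟩ := h1 (2 * g) h e a C hHD
  refine ⟨(2 * g) * (2 * g), (2 * g) * (2 * g), N0, ff h a, ww w0, SS (2 * g),
    fun i => h4 h a C hS _ _, sys h5 h6 h e a C hmono hprod hS, ?_, ?_⟩
  · rintro N hN X ⟨b, hb1, hb2, hb3⟩ p
    obtain ⟨b', hb'mono, hb'prod, hb'per, -⟩ := hmain N hN
    have hbb : b = b' := h2 _ _ _ hb1 hb'mono (hb2.symm.trans hb'prod)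
    rw [SS_eval, hb3, hbb, hb'per]
    refine Finset.sum_congr rfl fun l _ => ?_
    change _ = (ev (ff h a (finProdFinEquiv (p.1, l))) (1 / (N : ℝ)) : ℂ) * _
    rw [ff_apply]
  · intro N hN X hX
    obtain ⟨b', -, -, -, hrel⟩ := hmain N hN
    refine ⟨fun o => o.elim 0 (fun q => (X * w0⁻¹) (finProdFinEquiv.symm q).1
      (finProdFinEquiv.symm q).2), ?_, ?_⟩
    · intro R hR
      have h8 := hrel (MvPolynomial.rename finProdFinEquiv.symm R) (by
        unfold Frel
        rw [MvPolynomial.eval₂_rename]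
        exact hR) X hX
      rw [MvPolynomial.eval₂_rename] at h8
      exact h8
    · intro p
      rw [SS_eval]
      have hunit : IsUnit w0.det := isUnit_iff_ne_zero.2 hdet
      have h11 : X = (X * w0⁻¹) * w0 := by
        rw [Matrix.mul_assoc, Matrix.nonsing_inv_mul _ hunit, Matrix.mul_one]
      have h12 := congrFun (congrFun h11 p.1) p.2
      rw [Matrix.mul_apply] at h12
      rw [h12]
      refine Finset.sum_congr rfl fun l _ => ?_
      change _ = (X * w0⁻¹) (finProdFinEquiv.symm (finProdFinEquiv (p.1, l))).1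
        (finProdFinEquiv.symm (finProdFinEquiv (p.1, l))).2 * _
      rw [Equiv.symm_apply_apply]

end Pool.Agent.DRG
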