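import Mathlib
import Pool.Agent.DRG.Targets
import Pool.Agent.MUM.FIN

/-!
# PHG: hypergeometric families
-/

set_option autoImplicit false

open Matrix Finset

namespace Pool.Agent.DRG

namespace PHG_

/-- the constants: the logarithm of `c` and the inverse factorials -/
noncomputable def w (m : ℕ) (c : ℚ) : Fin (m + 1) → ℂ :=
  Fin.cons (Complex.log (c : ℂ)) (fun r : Fin m => (((r : ℕ).factorial : ℂ))⁻¹)

/-- the polynomials expressing the entries -/
noncomputable def S (m e : ℕ) (p : Fin m × Fin m) :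
    MvPolynomial (Fin (m + 1) ⊕ Option (Fin (m * m))) ℤ :=
  ∑ i : Fin m, MvPolynomial.X (.inr (some (finProdFinEquiv (p.1, i)))) *
    (if (i : ℕ) ≤ p.2 then
      (MvPolynomial.X (.inl 0) - MvPolynomial.C (e : ℤ) * MvPolynomial.X (.inr none)) ^
        ((p.2 : ℕ) - i) *
      MvPolynomial.X (.inl (Fin.succ ⟨(p.2 : ℕ) - i, by
        have h1 := p.2.2
        omega⟩)) else 0)

theorem S_eval (m e : ℕ) (c : ℚ) (v : Option (Fin (m * m)) → ℂ) (p : Fin m × Fin m) :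
    MvPolynomial.aeval (Sum.elim (w m c) v) (S m e p) =
      ∑ i : Fin m, v (some (finProdFinEquiv (p.1, i))) *
        MUM.eN m (Complex.log (c : ℂ) - (e : ℂ) * v none) i p.2 := by
  unfold S
  rw [map_sum]
  refine sum_congr rfl fun i _ => ?_
  rw [map_mul, MvPolynomial.aeval_X, Sum.elim_inr]
  congr 1
  unfold MUM.eN
  rw [Matrix.of_apply]
  split_ifs with h
  · rw [map_mul, map_pow, map_sub, map_mul, MvPolynomial.aeval_X, MvPolynomial.aeval_X,
      MvPolynomial.aeval_X, Sum.elim_inl, Sum.elim_inr, Sum.elim_inl, MvPolynomial.aeval_C,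
      div_eq_mul_inv]
    rw [w, Fin.cons_zero, Fin.cons_succ]
    norm_num
  · rw [map_zero]

end PHG_

open PHG_ in
/-- PHG -/
theorem p_PHG (h1 : MUM.T_PBG) (h2 : MUM.T_PBO) (h3 : MUM.T_PBR) (h4 : MUM.T_PBV)
    (h5 : MUM.T_GS) (h6 : MUM.T_AN) (h7 : MUM.T_NJ) : T_PHG := by
  intro m α c e hs hc he
  set f : Fin (m * m) → PowerSeries ℚ := fun p =>
    MUM.pb c e (MUM.Sf α (finProdFinEquiv.symm p).1 (finProdFinEquiv.symm p).2) with hf
  have hfa : ∀ (a i : Fin m), f (finProdFinEquiv (a, i)) = MUM.pb c e (MUM.Sf α a i) := by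
    intro a i
    rw [hf]
    simp only [Equiv.symm_apply_apply]
  obtain ⟨N0, hN0⟩ : ∃ N0 : ℕ, ∀ N : ℕ, N0 ≤ N → 1 ≤ N ∧ |(c : ℝ)| < (N : ℝ) ^ e := by
    refine ⟨⌈|(c : ℝ)|⌉₊ + 1, fun N hN => ?_⟩
    have h9 : 1 ≤ N := (Nat.le_add_left 1 _).trans hN
    refine ⟨h9, ?_⟩
    have h10 : (⌈|(c : ℝ)|⌉₊ : ℝ) + 1 ≤ N := by exact_mod_cast hN
    have h11 := Nat.le_ceil |(c : ℝ)|
    have h12 : (N : ℝ) ≤ (N : ℝ) ^ e :=
      le_self_pow₀ (by exact_mod_cast h9) (by omega)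
    linarith
  refine ⟨m * m, m + 1, N0, f, w m c, S m e, ?_, ?_, ?_, ?_⟩
  · intro p
    exact h1 _ _ _ he (h5 m α (fun i => ⟨hs.pos i, hs.lt i⟩) _ _)
  · obtain ⟨T, A, hT, hA, hH⟩ := h2 m α c e hs hc he
    exact ⟨T, fun p q => A (finProdFinEquiv.symm p) (finProdFinEquiv.symm q), hT,
      fun p q => hA _ _, MUM.FIN_.sys hH⟩
  · intro N hN X hX p
    rw [Set.mem_ofPred_eq] at hX
    obtain ⟨h9, h10⟩ := hN0 N hN
    rw [S_eval, hX]
    change (MUM.Sv α _ * MUM.eN m _) p.1 p.2 = _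
    rw [Matrix.mul_apply]
    refine sum_congr rfl fun i _ => ?_
    change MUM.Sv α ((c : ℂ) / (N : ℂ) ^ e) p.1 i * _ =
      ((LEG.ev (f (finProdFinEquiv (p.1, i))) (1 / (N : ℝ)) : ℝ) : ℂ) *
        MUM.eN m (Complex.log (c : ℂ) - (e : ℂ) * ((Real.log N : ℝ) : ℂ)) i p.2
    rw [hfa, h4 _ _ _ _ he h9, ← MUM.FIN_.log_eq c hc N e h9]
    rfl
  · intro N hN X hX
    rw [Set.mem_ofPred_eq] at hX
    obtain ⟨h9, h10⟩ := hN0 N hN
    obtain ⟨g, hgJ, hgS⟩ := MUM.FIN_.transp h7 (Complex.log ((c : ℂ) / (N : ℂ) ^ e))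
      ((h6 m α hs).2.2.1 ((c : ℂ) / (N : ℂ) ^ e) (by
        have h11 : (0 : ℝ) < (N : ℝ) ^ e := by positivity
        rw [Metric.mem_ball, dist_zero_right, norm_div, norm_pow, Complex.norm_natCast,
          div_lt_one h11]
        have h12 : ‖((c : ℚ) : ℂ)‖ = |(c : ℝ)| := by
          rw [← Complex.ofReal_ratCast, Complex.norm_real, Real.norm_eq_abs]
        rw [h12]
        exact h10)) hX
    set s : ℂ := Complex.log ((c : ℂ) / (N : ℂ) ^ e) with hsdef
    refine ⟨fun o => o.elim ((Real.log N : ℝ) : ℂ) (fun l =>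
      (X * MUM.eN m (-s)) (finProdFinEquiv.symm l).1 (finProdFinEquiv.symm l).2), ?_, ?_⟩
    · intro R hR
      have h11 := h3 m α c e hs hc he (MvPolynomial.rename finProdFinEquiv.symm R) (by
        rw [MvPolynomial.eval₂_rename]
        exact hR) g hgJ N h9 h10
      rw [MvPolynomial.eval₂_rename, hgS] at h11
      exact h11
    · intro p
      rw [S_eval]
      obtain ⟨hJ0, hJadd, -⟩ := h7 m
      have h11 : X = (X * MUM.eN m (-s)) * MUM.eN m s := by
        rw [Matrix.mul_assoc, hJadd, neg_add_cancel, hJ0, Matrix.mul_one]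
      have h12 := congrFun (congrFun h11 p.1) p.2
      rw [Matrix.mul_apply] at h12
      rw [h12]
      refine sum_congr rfl fun i _ => ?_
      change _ = (X * MUM.eN m (-s)) (finProdFinEquiv.symm (finProdFinEquiv (p.1, i))).1
        (finProdFinEquiv.symm (finProdFinEquiv (p.1, i))).2 *
        MUM.eN m (Complex.log (c : ℂ) - (e : ℂ) * ((Real.log N : ℝ) : ℂ)) i p.2
      rw [Equiv.symm_apply_apply, ← MUM.FIN_.log_eq c hc N e h9]

end Pool.Agent.DRG
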