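import Pool.Agent.DRG.Targets

/-!
# Riemann's relations as a matrix identity
-/

set_option autoImplicit false

open Matrix

namespace Pool.Agent.DRG

open Pool.Agent.DRB (cx im toC TI tpow dtpow tens dtens Ix Fam tot Sp gsp Pres Fs Bad)

namespace RIE_

/-- the sum in the relations -/
noncomputable def S {m : ℕ} (P : Polynomial ℂ) (X : Matrix (Fin m) (Fin m) ℂ) (j k : Fin m) : ℂ :=
  ∑ a : Fin m, ∑ c : Fin m, (((a : ℕ) : ℂ) - ((c : ℕ) : ℂ)) / 2 *
    P.coeff ((a : ℕ) + c + 2) * X a j * X c k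

theorem S_anti {m : ℕ} (P : Polynomial ℂ) (X : Matrix (Fin m) (Fin m) ℂ) (j k : Fin m) :
    S P X k j = -S P X j k := by
  unfold S
  rw [Finset.sum_comm, ← Finset.sum_neg_distrib]
  refine Finset.sum_congr rfl fun a _ => ?_
  rw [← Finset.sum_neg_distrib]
  refine Finset.sum_congr rfl fun c _ => ?_
  rw [Nat.add_comm (c : ℕ) (a : ℕ)]
  ring

theorem S_self {m : ℕ} (P : Polynomial ℂ) (X : Matrix (Fin m) (Fin m) ℂ) (j : Fin m) :
    S P X j j = 0 := by
  have h := S_anti P X j j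
  have h2 : (2 : ℂ) * S P X j j = 0 := by linear_combination h
  have h3 : (2 : ℂ) ≠ 0 := two_ne_zero
  exact (mul_eq_zero.1 h2).resolve_left h3

theorem entry (g : ℕ) (P : Polynomial ℚ) (X : MUM.Mat (2 * g)) (j k : Fin (2 * g)) :
    (Xᵀ * toC (Bh g P) * X) j k = S (P.map (algebraMap ℚ ℂ)) X j k := by
  unfold S
  rw [Matrix.mul_apply, Finset.sum_comm]
  refine Finset.sum_congr rfl fun c _ => ?_
  rw [Matrix.mul_apply, Finset.sum_mul]
  refine Finset.sum_congr rfl fun a _ => ?_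
  rw [Matrix.transpose_apply, Polynomial.coeff_map]
  have h : toC (Bh g P) a c = (((a : ℕ) : ℂ) - ((c : ℕ) : ℂ)) / 2 *
      (algebraMap ℚ ℂ) (P.coeff ((a : ℕ) + c + 2)) := by
    show (((((a : ℕ) : ℚ) - ((c : ℕ) : ℚ)) / 2 * P.coeff ((a : ℕ) + c + 2) : ℚ) : ℂ) = _
    rw [eq_ratCast]
    push_cast
    ring
  rw [h]
  ring

end RIE_

open RIE_ in
theorem p_RIE : T_RIE := by
  intro g P X
  have hR : HEP.Riem (P.map (algebraMap ℚ ℂ)) X ↔ ∀ j k : Fin (2 * g), j < k →
      S (P.map (algebraMap ℚ ℂ)) X j k =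
        if (k : ℕ) = j + 1 then (-1) ^ ((j : ℕ) + 1) * (Real.pi : ℂ) else 0 := Iff.rfl
  rw [hR]
  have hJ : ∀ j k : Fin (2 * g), Jh g j k =
      (if (k : ℕ) = j + 1 then (-1) ^ ((j : ℕ) + 1) * (Real.pi : ℂ) else 0) -
        (if (j : ℕ) = k + 1 then (-1) ^ ((k : ℕ) + 1) * (Real.pi : ℂ) else 0) := fun j k => rfl
  constructor
  · intro h
    ext j k
    rw [entry, hJ]
    rcases lt_trichotomy j k with hjk | hjk | hjk
    · have h1 : ¬ (j : ℕ) = k + 1 := by
        have : (j : ℕ) < k := hjk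
        omega
      rw [h j k hjk, if_neg h1, sub_zero]
    · subst hjk
      rw [S_self, if_neg (by omega), sub_zero]
    · have h1 : ¬ (k : ℕ) = j + 1 := by
        have : (k : ℕ) < j := hjk
        omega
      rw [S_anti, h k j hjk, if_neg h1, zero_sub]
  · intro h j k hjk
    have h1 : ¬ (j : ℕ) = k + 1 := by
      have : (j : ℕ) < k := hjk
      omega
    rw [← entry, h, hJ, if_neg h1, sub_zero]

end Pool.Agent.DRG
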