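import Mathlib
import Pool.Agent.DRG.Targets
import Pool.Agent.DRG.H21Tools

/-!
# SCAO: commutative spaces of matrices stable under the orthogonal group are scalar
-/

set_option autoImplicit false

open Matrix

namespace Pool.Agent.DRG

namespace SCAO_

open H21_

variable {m : ℕ}

theorem O_mul (J : Matrix (Fin m) (Fin m) ℂ) (a b c d : Fin m → ℂ) :
    O J a b * O J c d = B J b c • O J a d := by
  apply ext_mulVec
  intro x
  rw [← Matrix.mulVec_mulVec, O_mulVec, O_mulVec, Matrix.smul_mulVec, O_mulVec, B_smul_right,
    smul_smul, mul_comm]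

/-- the double difference -/
theorem dd {J : Matrix (Fin m) (Fin m) ℂ} (hJ : Jᵀ = J) (X : Matrix (Fin m) (Fin m) ℂ)
    {v w : Fin m → ℂ} (hv : B J v v = 1) (hw : B J w w = 1) (hvw : B J v w = 0) :
    (X - MUM.rf J v * X * MUM.rf J v) -
      MUM.rf J w * (X - MUM.rf J v * X * MUM.rf J v) * MUM.rf J w =
    (4 : ℂ) • (B J v (X.mulVec w) • O J v w + B J w (X.mulVec v) • O J w v) := by
  have hwv : B J w v = 0 := by rw [B_symm hJ]; exact hvw
  apply ext_mulVec
  intro x
  simp only [Matrix.sub_mulVec, ← Matrix.mulVec_mulVec, Matrix.smul_mulVec, Matrix.add_mulVec,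
    O_mulVec, rf_mulVec, hv, hw, Matrix.mulVec_sub, Matrix.mulVec_smul, B_sub_right,
    B_smul_right, hvw, hwv, div_one]
  module

end SCAO_

open SCAO_ H21_ in
theorem p_SCAO : T_SCAO := by
  intro m E hE U hstab hcomm X hX
  obtain ⟨hsym, hunit, hm⟩ := hE
  set J := E⁻¹ with hJdef
  have hJ : Jᵀ = J := inv_symm hsym
  have hdet : J.det ≠ 0 := inv_det hunit
  -- conjugation by reflections
  have hconj : ∀ v, B J v v ≠ 0 → ∀ Y ∈ U, MUM.rf J v * Y * MUM.rf J v ∈ U := by
    intro v hv Y hY
    have h1 := hstab Y hY (MUM.rf J v) (rf_mem hsym hunit hv)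
    have h2 : (MUM.rf J v)⁻¹ = MUM.rf J v := Matrix.inv_eq_right_inv (rf_sq J hv)
    rwa [h2] at h1
  have hdd : ∀ v w, B J v v = 1 → B J w w = 1 → B J v w = 0 →
      B J v (X.mulVec w) • O J v w + B J w (X.mulVec v) • O J w v ∈ U := by
    intro v w hv hw hvw
    have hv0 : B J v v ≠ 0 := by rw [hv]; exact one_ne_zero
    have hw0 : B J w w ≠ 0 := by rw [hw]; exact one_ne_zero
    have h1 : X - MUM.rf J v * X * MUM.rf J v ∈ U := U.sub_mem hX (hconj v hv0 X hX)
    have h2 := U.sub_mem h1 (hconj w hw0 _ h1)
    rw [dd hJ X hv hw hvw] at h2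
    exact (U.smul_mem_iff (by norm_num : (4 : ℂ) ≠ 0)).mp h2
  by_cases hall : ∀ v w, B J v v = 1 → B J w w = 1 → B J v w = 0 → B J w (X.mulVec v) = 0
  · -- `X` is scalar
    have hvec : ∀ v, B J v v = 1 → X.mulVec v = B J v (X.mulVec v) • v := by
      intro v hv
      obtain ⟨w', hw'1, hw'2⟩ := exists_orth1 hJ hdet (by omega) hv
      have horth : ∀ w, B J v w = 0 → B J w (X.mulVec v) = 0 := by
        intro w hvw
        by_cases hww : B J w w = 0
        · -- `w` is isotropic: use `w + t w'`
          have hsum : ∀ t : ℂ, t ≠ 0 → 2 * B J w w' + t ≠ 0 → B J w (X.mulVec v) = 0 := by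
            intro t ht ht2
            have hq : B J (w + t • w') (w + t • w') ≠ 0 := by
              rw [B_add_left, B_add_right, B_add_right, B_smul_left, B_smul_left, B_smul_right,
                B_smul_right, hww, hw'1, B_symm hJ w' w]
              intro h0
              apply mul_ne_zero ht ht2
              linear_combination h0
            obtain ⟨s, hs0, hs⟩ := exists_unit J hq
            have h1 := hall v (s • (w + t • w')) hv hs (by
              rw [B_smul_right, B_add_right, B_smul_right, hvw, hw'2]; ring)
            have h2 := hall v w' hv hw'1 hw'2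
            rw [B_smul_left, B_add_left, B_smul_left, h2, mul_zero, add_zero] at h1
            exact (mul_eq_zero.mp h1).resolve_left hs0
          by_cases h1 : 2 * B J w w' + 1 = 0
          · refine hsum (-1) (by norm_num) ?_
            intro h2
            have : (2 : ℂ) = 0 := by linear_combination h1 - h2
            norm_num at this
          · exact hsum 1 one_ne_zero h1
        · obtain ⟨s, hs0, hs⟩ := exists_unit J hww
          have h1 := hall v (s • w) hv hs (by rw [B_smul_right, hvw, mul_zero])
          rw [B_smul_left] at h1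
          exact (mul_eq_zero.mp h1).resolve_left hs0
      have hz : X.mulVec v - B J v (X.mulVec v) • v = 0 := by
        apply eq_zero_of hdet
        intro y
        have h1 := horth (y - B J v y • v) (by
          rw [B_sub_right, B_smul_right, hv, mul_one, sub_self])
        rw [B_sub_left, B_smul_left] at h1
        rw [B_sub_right, B_smul_right, B_symm hJ y v]
        linear_combination h1
      exact sub_eq_zero.mp hz
    -- some unit vector
    obtain ⟨v, hv⟩ : ∃ v, B J v v = 1 := by
      by_contra hcon
      push Not at hcon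
      have hiso : ∀ x, B J x x = 0 := by
        intro x
        by_contra hne
        obtain ⟨s, _, hs⟩ := exists_unit J hne
        exact hcon _ hs
      have hpol := polar hJ ⊤ (fun x _ => hiso x)
      have hzero : ∀ y : Fin m → ℂ, y = 0 := fun y =>
        eq_zero_of hdet fun x => hpol x trivial y trivial
      have := congrFun (hzero (Pi.single ⟨0, by omega⟩ 1)) ⟨0, by omega⟩
      simp at this
    set c := B J v (X.mulVec v) with hc
    refine ⟨c, ?_⟩
    -- unit vectors orthogonal to `v` have the same eigenvalue
    have hw : ∀ w, B J w w = 1 → B J v w = 0 → X.mulVec w = c • w := by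
      intro w hww hvw
      have hwv : B J w v = 0 := by rw [B_symm hJ]; exact hvw
      have h1 := hvec w hww
      set μ := B J w (X.mulVec w) with hμ
      have hq : B J (v + (1 / 2 : ℂ) • w) (v + (1 / 2 : ℂ) • w) ≠ 0 := by
        rw [B_add_left, B_add_right, B_add_right, B_smul_left, B_smul_left, B_smul_right,
          B_smul_right, hv, hww, hvw, hwv]
        norm_num
      obtain ⟨s, hs0, hs⟩ := exists_unit J hq
      have h2 := hvec _ hs
      rw [Matrix.mulVec_smul, Matrix.mulVec_add, Matrix.mulVec_smul, hvec v hv, ← hc, h1] at h2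
      set ν := B J (s • (v + (1 / 2 : ℂ) • w)) (s • (c • v + (1 / 2 : ℂ) • μ • w)) with hν
      have h3 := congrArg (B J v) h2
      have h4 := congrArg (B J w) h2
      simp only [B_smul_right, B_add_right, hv, hww, hvw, hwv, mul_zero, mul_one, add_zero,
        zero_add] at h3 h4
      have h5 : c = ν := by
        have : s * (c - ν) = 0 := by linear_combination h3
        exact sub_eq_zero.mp ((mul_eq_zero.mp this).resolve_left hs0)
      have h6 : μ = ν := by
        have : s * (μ - ν) = 0 := by linear_combination 2 * h4
        exact sub_eq_zero.mp ((mul_eq_zero.mp this).resolve_left hs0)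
      rw [h1, h6, ← h5]
    have hw' : ∀ w, B J w w ≠ 0 → B J v w = 0 → X.mulVec w = c • w := by
      intro w hww hvw
      obtain ⟨s, hs0, hs⟩ := exists_unit J hww
      have h1 := hw (s • w) hs (by rw [B_smul_right, hvw, mul_zero])
      rw [Matrix.mulVec_smul, smul_comm c s w] at h1
      exact smul_right_injective _ hs0 h1
    have hw'' : ∀ w, B J v w = 0 → X.mulVec w = c • w := by
      intro w hvw
      by_cases hww : B J w w = 0
      · obtain ⟨w', hw'1, hw'2⟩ := exists_orth1 hJ hdet (by omega) hv
        have h2 := hw w' hw'1 hw'2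
        have hsum : ∀ t : ℂ, t ≠ 0 → 2 * B J w w' + t ≠ 0 → X.mulVec w = c • w := by
          intro t ht ht2
          have hq : B J (w + t • w') (w + t • w') ≠ 0 := by
            rw [B_add_left, B_add_right, B_add_right, B_smul_left, B_smul_left, B_smul_right,
              B_smul_right, hww, hw'1, B_symm hJ w' w]
            intro h0
            apply mul_ne_zero ht ht2
            linear_combination h0
          have h1 := hw' _ hq (by rw [B_add_right, B_smul_right, hvw, hw'2]; ring)
          rw [Matrix.mulVec_add, Matrix.mulVec_smul, h2] at h1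
          have h3 : X.mulVec w = c • (w + t • w') - t • c • w' := by rw [← h1]; abel
          rw [h3]
          module
        by_cases h1 : 2 * B J w w' + 1 = 0
        · refine hsum (-1) (by norm_num) ?_
          intro h2
          have : (2 : ℂ) = 0 := by linear_combination h1 - h2
          norm_num at this
        · exact hsum 1 one_ne_zero h1
      · exact hw' w hww hvw
    apply ext_mulVec
    intro x
    have h1 := hw'' (x - B J v x • v) (by
      rw [B_sub_right, B_smul_right, hv, mul_one, sub_self])
    rw [Matrix.mulVec_sub, Matrix.mulVec_smul, hvec v hv, ← hc] at h1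
    rw [Matrix.smul_mulVec, Matrix.one_mulVec]
    have h2 : X.mulVec x = c • (x - B J v x • v) + B J v x • c • v := by rw [← h1]; abel
    rw [h2]
    module
  · -- contradiction
    exfalso
    push Not at hall
    obtain ⟨v, w, hv, hw, hvw, hne⟩ := hall
    have hwv : B J w v = 0 := by rw [B_symm hJ]; exact hvw
    set al := B J w (X.mulVec v) with hal
    set be := B J v (X.mulVec w) with hbe
    have hT : be • O J v w + al • O J w v ∈ U := hdd v w hv hw hvw
    -- exchange of `v` and `w`
    have hq1 : B J (v - w) (v - w) ≠ 0 := by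
      rw [B_sub_left, B_sub_right, B_sub_right, hv, hw, hvw, hwv]; norm_num
    have hT' : be • O J w v + al • O J v w ∈ U := by
      have h1 := hconj (v - w) hq1 _ hT
      rw [Matrix.mul_add, Matrix.add_mul, Matrix.mul_smul, Matrix.mul_smul, Matrix.smul_mul,
        Matrix.smul_mul, rf_conj_O hJ hq1, rf_conj_O hJ hq1] at h1
      have e1 : (MUM.rf J (v - w)).mulVec v = w := by
        rw [rf_mulVec, B_sub_left, B_sub_left, B_sub_right, B_sub_right, hv, hw, hvw, hwv]
        module
      have e2 : (MUM.rf J (v - w)).mulVec w = v := by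
        rw [rf_mulVec, B_sub_left, B_sub_left, B_sub_right, B_sub_right, hv, hw, hvw, hwv]
        module
      rwa [e1, e2] at h1
    obtain ⟨x, hx, hvx, hwx⟩ := exists_orth2 hJ hdet hm hv hw hvw
    have hxv : B J x v = 0 := by rw [B_symm hJ]; exact hvx
    have hxw : B J x w = 0 := by rw [B_symm hJ]; exact hwx
    have hq2 : B J (w - x) (w - x) ≠ 0 := by
      rw [B_sub_left, B_sub_right, B_sub_right, hw, hx, hwx, hxw]; norm_num
    have hT'' : be • O J v x + al • O J x v ∈ U := by
      have h1 := hconj (w - x) hq2 _ hT
      rw [Matrix.mul_add, Matrix.add_mul, Matrix.mul_smul, Matrix.mul_smul, Matrix.smul_mul,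
        Matrix.smul_mul, rf_conj_O hJ hq2, rf_conj_O hJ hq2] at h1
      have e1 : (MUM.rf J (w - x)).mulVec v = v := by
        rw [rf_mulVec, B_sub_left, B_sub_left, B_sub_right, B_sub_right, hw, hx, hwx, hxw, hwv, hxv]
        module
      have e2 : (MUM.rf J (w - x)).mulVec w = x := by
        rw [rf_mulVec, B_sub_left, B_sub_left, B_sub_right, B_sub_right, hw, hx, hwx, hxw]
        module
      rwa [e1, e2] at h1
    -- the two commutation relations
    have h1 := congrArg (fun M : Matrix (Fin m) (Fin m) ℂ => B J v (M.mulVec v))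
      (hcomm _ hT _ hT')
    simp only [← Matrix.mulVec_mulVec, Matrix.add_mulVec, Matrix.smul_mulVec, O_mulVec,
      Matrix.mulVec_add, Matrix.mulVec_smul, B_add_right, B_smul_right, hv, hw, hvw, hwv] at h1
    have h2 := congrArg (fun M : Matrix (Fin m) (Fin m) ℂ => B J w (M.mulVec x))
      (hcomm _ hT _ hT'')
    simp only [← Matrix.mulVec_mulVec, Matrix.add_mulVec, Matrix.smul_mulVec, O_mulVec,
      Matrix.mulVec_add, Matrix.mulVec_smul, B_add_right, B_smul_right, hv, hw, hvw, hwv, hx,
      hvx, hwx, hxv, hxw] at h2
    have h3 : al * be = 0 := by linear_combination h2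
    have h4 : be = 0 := (mul_eq_zero.mp h3).resolve_left hne
    rw [h4] at h1
    have h5 : al * al = 0 := by linear_combination -h1
    exact hne (mul_self_eq_zero.mp h5)

end Pool.Agent.DRG
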