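import Pool.Agent.DRG.Targets

/-!
# DRB-STAB: subspaces stable under the finite group are stable under the symplectic group
-/

set_option autoImplicit false

open Matrix

namespace Pool.Agent.DRG

open Pool.Agent.DRB (cx im toC TI tpow dtpow tens dtens Ix Fam tot Sp gsp Pres Fs Bad)

namespace STAB_

/-- a linear projection onto a subspace -/
theorem exists_proj {V : Type} [AddCommGroup V] [Module ℂ V] (U : Submodule ℂ V) :
    ∃ p0 : V →ₗ[ℂ] V, (∀ X, p0 X ∈ U) ∧ ∀ X ∈ U, p0 X = X := by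
  obtain ⟨g, hg⟩ := LinearMap.exists_leftInverse_of_injective U.subtype U.ker_subtype
  refine ⟨U.subtype ∘ₗ g, fun X => (g X).2, fun X hX => ?_⟩
  have h := congrArg (fun l => l ⟨X, hX⟩) hg
  simp only [LinearMap.comp_apply, Submodule.subtype_apply, LinearMap.id_apply] at h
  simp only [LinearMap.comp_apply, Submodule.subtype_apply]
  rw [h]

/-- the average of an operator over a finite set of matrices -/
noncomputable def avg {m : ℕ} (F : Finset (Matrix (Fin m) (Fin m) ℂ))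
    (e : Matrix (Fin m) (Fin m) ℂ →ₗ[ℂ] Matrix (Fin m) (Fin m) ℂ) :
    Matrix (Fin m) (Fin m) ℂ →ₗ[ℂ] Matrix (Fin m) (Fin m) ℂ :=
  (F.card : ℂ)⁻¹ • ∑ f ∈ F, (LinearMap.mulLeft ℂ f⁻¹ ∘ₗ LinearMap.mulRight ℂ f) ∘ₗ e ∘ₗ
    (LinearMap.mulLeft ℂ f ∘ₗ LinearMap.mulRight ℂ f⁻¹)

theorem avg_apply {m : ℕ} (F : Finset (Matrix (Fin m) (Fin m) ℂ))
    (e : Matrix (Fin m) (Fin m) ℂ →ₗ[ℂ] Matrix (Fin m) (Fin m) ℂ)
    (X : Matrix (Fin m) (Fin m) ℂ) :
    avg F e X = (F.card : ℂ)⁻¹ • ∑ f ∈ F, f⁻¹ * e (f * X * f⁻¹) * f := by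
  unfold avg
  rw [LinearMap.smul_apply, LinearMap.sum_apply]
  congr 1
  refine Finset.sum_congr rfl fun f _ => ?_
  simp only [LinearMap.comp_apply, LinearMap.mulLeft_apply, LinearMap.mulRight_apply,
    Matrix.mul_assoc]

/-- the average commutes with the conjugations -/
theorem avg_conj {m : ℕ} (F : Finset (Matrix (Fin m) (Fin m) ℂ))
    (hmul : ∀ f ∈ F, ∀ g ∈ F, f * g ∈ F) (hinv : ∀ f ∈ F, IsUnit f ∧ f⁻¹ ∈ F)
    (e : Matrix (Fin m) (Fin m) ℂ →ₗ[ℂ] Matrix (Fin m) (Fin m) ℂ) (g : Matrix (Fin m) (Fin m) ℂ)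
    (hg : g ∈ F) (X : Matrix (Fin m) (Fin m) ℂ) :
    avg F e (g * X * g⁻¹) = g * avg F e X * g⁻¹ := by
  have hdg : IsUnit g.det := (Matrix.isUnit_iff_isUnit_det _).1 (hinv g hg).1
  have h1 : g⁻¹ * g = 1 := Matrix.nonsing_inv_mul _ hdg
  have h2 : g * g⁻¹ = 1 := Matrix.mul_nonsing_inv _ hdg
  rw [avg_apply, avg_apply, Matrix.mul_smul, Matrix.smul_mul]
  congr 1
  rw [Finset.mul_sum, Finset.sum_mul]
  refine Finset.sum_nbij' (fun f => f * g) (fun f => f * g⁻¹) ?_ ?_ ?_ ?_ ?_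
  · intro f hf
    exact hmul f hf g hg
  · intro f hf
    exact hmul f hf _ (hinv g hg).2
  · intro f _
    show f * g * g⁻¹ = f
    rw [Matrix.mul_assoc, h2, Matrix.mul_one]
  · intro f _
    show f * g⁻¹ * g = f
    rw [Matrix.mul_assoc, h1, Matrix.mul_one]
  · intro f _
    show f⁻¹ * e (f * (g * X * g⁻¹) * f⁻¹) * f =
      g * ((f * g)⁻¹ * e (f * g * X * (f * g)⁻¹) * (f * g)) * g⁻¹
    rw [Matrix.mul_inv_rev]
    have e1 : f * (g * X * g⁻¹) * f⁻¹ = f * g * X * (g⁻¹ * f⁻¹) := by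
      simp only [Matrix.mul_assoc]
    rw [e1]
    have e2 : g * (g⁻¹ * f⁻¹ * e (f * g * X * (g⁻¹ * f⁻¹)) * (f * g)) * g⁻¹ =
        (g * g⁻¹) * f⁻¹ * e (f * g * X * (g⁻¹ * f⁻¹)) * f * (g * g⁻¹) := by
      simp only [Matrix.mul_assoc]
    rw [e2, h2, Matrix.mul_one, Matrix.one_mul]

end STAB_

open STAB_ in
theorem p_STAB (h1 : T_COMM) : T_STAB := by
  intro m S hBD U hU h hh X hX
  obtain ⟨p0, hp0, hp1⟩ := exists_proj U
  have hcard : (S.F.card : ℂ) ≠ 0 := by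
    have : S.F.card ≠ 0 := Finset.card_ne_zero_of_mem S.one_mem
    exact_mod_cast this
  have hconj : ∀ f ∈ S.F, ∀ Z ∈ U, f⁻¹ * Z * f ∈ U := by
    intro f hf Z hZ
    have hdf : IsUnit f.det := (Matrix.isUnit_iff_isUnit_det _).1 (S.inv_mem f hf).1
    have h2 := hU f⁻¹ (S.inv_mem f hf).2 Z hZ
    rwa [Matrix.nonsing_inv_nonsing_inv _ hdf] at h2
  have hin : ∀ Z, avg S.F p0 Z ∈ U := by
    intro Z
    rw [avg_apply]
    exact U.smul_mem _ (U.sum_mem fun f hf => hconj f hf _ (hp0 _))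
  have hid : ∀ Z ∈ U, avg S.F p0 Z = Z := by
    intro Z hZ
    rw [avg_apply]
    have h3 : ∀ f ∈ S.F, f⁻¹ * p0 (f * Z * f⁻¹) * f = Z := by
      intro f hf
      have hdf : IsUnit f.det := (Matrix.isUnit_iff_isUnit_det _).1 (S.inv_mem f hf).1
      rw [hp1 _ (hU f hf Z hZ)]
      have e1 : f⁻¹ * (f * Z * f⁻¹) * f = (f⁻¹ * f) * Z * (f⁻¹ * f) := by
        simp only [Matrix.mul_assoc]
      rw [e1, Matrix.nonsing_inv_mul _ hdf, Matrix.one_mul, Matrix.mul_one]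
    rw [Finset.sum_congr rfl h3, Finset.sum_const, ← Nat.cast_smul_eq_nsmul ℂ, smul_smul,
      inv_mul_cancel₀ hcard, one_smul]
  have h4 := h1 m S hBD (avg S.F p0)
    (fun f hf Z => avg_conj S.F S.mul_mem S.inv_mem p0 f hf Z) h hh X
  rw [hid X hX] at h4
  rw [← h4]
  exact hin _

end Pool.Agent.DRG
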