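import Pool.Agent.DRG.Targets
import Pool.Agent.MUM.OGEN

/-!
# TRVO: a stable subspace with a nonscalar element contains the orthogonal Lie algebra
-/

set_option autoImplicit false

open Matrix

namespace Pool.Agent.DRG

namespace TRVO_

open Pool.Agent.DRB (Fam Sp gsp)
open Pool.Agent.MUM (Mat wd rf)
open Pool.Agent.MUM.OGEN_ (bl bl_add_left bl_add_right bl_sub_left bl_sub_right bl_symm rf_mulVec
  rf_form rf_sq)

variable {m : ℕ}

theorem bl_smul_left (J : Mat m) (c : ℂ) (x y : Fin m → ℂ) : bl J (c • x) y = c * bl J x y := by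
  simp [bl]

theorem bl_smul_right (J : Mat m) (c : ℂ) (x y : Fin m → ℂ) : bl J x (c • y) = c * bl J x y := by
  simp [bl, mulVec_smul]

theorem wd_add_right (J : Mat m) (x y z : Fin m → ℂ) : wd J x (y + z) = wd J x y + wd J x z := by
  simp only [wd, vecMulVec_add, add_vecMulVec]
  noncomm_ring

theorem wd_add_left (J : Mat m) (x y z : Fin m → ℂ) : wd J (x + y) z = wd J x z + wd J y z := by
  simp only [wd, vecMulVec_add, add_vecMulVec]
  noncomm_ring

theorem wd_smul_right (J : Mat m) (c : ℂ) (x y : Fin m → ℂ) : wd J x (c • y) = c • wd J x y := by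
  simp only [wd, vecMulVec_smul, smul_vecMulVec, ← smul_sub, Matrix.smul_mul]

theorem wd_smul_left (J : Mat m) (c : ℂ) (x y : Fin m → ℂ) : wd J (c • x) y = c • wd J x y := by
  simp only [wd, vecMulVec_smul, smul_vecMulVec, ← smul_sub, Matrix.smul_mul]

theorem wd_self (J : Mat m) (x : Fin m → ℂ) : wd J x x = 0 := by
  simp [wd]

theorem wd_swap (J : Mat m) (x y : Fin m → ℂ) : wd J x y = - wd J y x := by
  simp only [wd]
  noncomm_ring

/-- two polynomials of degree at most one and two have a common non-root -/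
theorem exists_ne (a0 a1 b0 b1 b2 : ℂ) (ha : a0 ≠ 0 ∨ a1 ≠ 0) (hb : b0 ≠ 0 ∨ b1 ≠ 0 ∨ b2 ≠ 0) :
    ∃ t : ℂ, a0 + a1 * t ≠ 0 ∧ b0 + b1 * t + b2 * t ^ 2 ≠ 0 := by
  by_contra hcon
  push Not at hcon
  set P : Polynomial ℂ := Polynomial.C a0 + Polynomial.C a1 * Polynomial.X with hP
  set Q : Polynomial ℂ := Polynomial.C b0 + Polynomial.C b1 * Polynomial.X +
    Polynomial.C b2 * Polynomial.X ^ 2 with hQ
  have hPQ : P * Q = 0 := by
    apply Polynomial.funext
    intro t
    rw [Polynomial.eval_mul, Polynomial.eval_zero]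
    by_cases h : a0 + a1 * t = 0
    · have : P.eval t = 0 := by simp [hP, h]
      rw [this, zero_mul]
    · have : Q.eval t = 0 := by
        have := hcon t h
        simp only [hQ, Polynomial.eval_add, Polynomial.eval_C, Polynomial.eval_mul,
          Polynomial.eval_X, Polynomial.eval_pow]
        exact this
      rw [this, mul_zero]
  rcases mul_eq_zero.1 hPQ with h | h
  · have h0 : P.coeff 0 = a0 := by simp [hP]
    have h1 : P.coeff 1 = a1 := by simp [hP]
    rw [h] at h0 h1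
    rcases ha with ha | ha
    · exact ha (by rw [← h0]; simp)
    · exact ha (by rw [← h1]; simp)
  · have h0 : Q.coeff 0 = b0 := by simp [hQ]
    have h1 : Q.coeff 1 = b1 := by simp [hQ, Polynomial.coeff_X_pow, Polynomial.coeff_C]
    have h2 : Q.coeff 2 = b2 := by simp [hQ, Polynomial.coeff_X, Polynomial.coeff_C]
    rw [h] at h0 h1 h2
    rcases hb with hb | hb | hb
    · exact hb (by rw [← h0]; simp)
    · exact hb (by rw [← h1]; simp)
    · exact hb (by rw [← h2]; simp)

/-- conjugation of `wd` -/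
theorem conj_wd {J : Mat m} (hJ : Jᵀ = J) {u : Fin m → ℂ} (hu : bl J u u ≠ 0)
    (x y : Fin m → ℂ) :
    rf J u * wd J x y * rf J u = wd J (rf J u *ᵥ x) (rf J u *ᵥ y) := by
  have h1 := rf_sq J u hu
  have h2 := rf_form J hJ u hu
  have h3 : J * rf J u = (rf J u)ᵀ * J := by
    calc J * rf J u = ((rf J u)ᵀ * J * rf J u) * rf J u := by rw [h2]
      _ = (rf J u)ᵀ * J * (rf J u * rf J u) := by noncomm_ring
      _ = (rf J u)ᵀ * J := by rw [h1, Matrix.mul_one]
  have h4 : ∀ a b : Fin m → ℂ, vecMulVec (rf J u *ᵥ a) (rf J u *ᵥ b) =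
      rf J u * vecMulVec a b * (rf J u)ᵀ := by
    intro a b
    rw [Matrix.mul_vecMulVec, Matrix.vecMulVec_mul, Matrix.vecMul_transpose]
  simp only [wd]
  rw [h4, h4]
  calc rf J u * ((vecMulVec x y - vecMulVec y x) * J) * rf J u
      = rf J u * (vecMulVec x y - vecMulVec y x) * (J * rf J u) := by noncomm_ring
    _ = rf J u * (vecMulVec x y - vecMulVec y x) * ((rf J u)ᵀ * J) := by rw [h3]
    _ = _ := by noncomm_ring

/-- reflections are isometries -/
theorem rf_mem {E : Mat m} (hE : Eᵀ = E) (hu : IsUnit E) {u : Fin m → ℂ}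
    (hq : bl E⁻¹ u u ≠ 0) : rf E⁻¹ u ∈ Sp E ∧ (rf E⁻¹ u)⁻¹ = rf E⁻¹ u := by
  have hJ : (E⁻¹)ᵀ = E⁻¹ := by rw [Matrix.transpose_nonsing_inv, hE]
  have hdet : IsUnit E.det := (Matrix.isUnit_iff_isUnit_det E).1 hu
  have h1 := rf_sq E⁻¹ u hq
  have h2 := rf_form E⁻¹ hJ u hq
  set R := rf E⁻¹ u with hR
  have h3 : E⁻¹ * R = Rᵀ * E⁻¹ := by
    calc E⁻¹ * R = (Rᵀ * E⁻¹ * R) * R := by rw [h2]
      _ = Rᵀ * E⁻¹ * (R * R) := by noncomm_ring
      _ = Rᵀ * E⁻¹ := by rw [h1, Matrix.mul_one]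
  have h1t : Rᵀ * Rᵀ = 1 := by
    rw [← Matrix.transpose_mul, h1, Matrix.transpose_one]
  refine ⟨?_, Matrix.inv_eq_right_inv h1⟩
  show R * E * Rᵀ = E
  calc R * E * Rᵀ = (E * E⁻¹) * (R * E * Rᵀ) := by
        rw [Matrix.mul_nonsing_inv E hdet, Matrix.one_mul]
    _ = E * ((E⁻¹ * R) * E * Rᵀ) := by noncomm_ring
    _ = E * (Rᵀ * (E⁻¹ * E) * Rᵀ) := by rw [h3]; noncomm_ring
    _ = E := by rw [Matrix.nonsing_inv_mul E hdet, Matrix.mul_one, h1t, Matrix.mul_one]

/-- a nonzero symmetric form has a nonisotropic vector -/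
theorem exists_noniso {J : Mat m} (hJ : Jᵀ = J) (hdet : IsUnit J.det) (hm : 0 < m) :
    ∃ u : Fin m → ℂ, bl J u u ≠ 0 := by
  by_contra hcon
  push Not at hcon
  have h0 : ∀ x y, bl J x y = 0 := by
    intro x y
    have h := hcon (x + y)
    rw [bl_add_left, bl_add_right, bl_add_right, hcon x, hcon y, bl_symm J hJ y x] at h
    have : 2 * bl J x y = 0 := by linear_combination h
    simpa using this
  have hJ0 : J = 0 := by
    ext i j
    have := h0 (Pi.single i 1) (Pi.single j 1)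
    simpa [bl] using this
  haveI : Nonempty (Fin m) := ⟨⟨0, hm⟩⟩
  rw [hJ0, Matrix.det_zero] at hdet
  exact not_isUnit_zero hdet

/-- nondegeneracy -/
theorem exists_bl_ne {J : Mat m} (hdet : IsUnit J.det) {a : Fin m → ℂ} (ha : a ≠ 0) :
    ∃ z : Fin m → ℂ, bl J z a ≠ 0 := by
  by_contra hcon
  push Not at hcon
  apply ha
  have h1 : J *ᵥ a = 0 := by
    ext i
    have := hcon (Pi.single i 1)
    simpa [bl] using this
  calc a = (J⁻¹ * J) *ᵥ a := by rw [Matrix.nonsing_inv_mul J hdet, Matrix.one_mulVec]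
    _ = J⁻¹ *ᵥ (J *ᵥ a) := by rw [Matrix.mulVec_mulVec]
    _ = 0 := by rw [h1, Matrix.mulVec_zero]

/-- the conjugate of a skew map by a reflection -/
theorem conj_skew {J Z : Mat m} (hZ : J * Z = -(Zᵀ * J)) {u : Fin m → ℂ}
    (hBu : bl J u (Z *ᵥ u) = 0) :
    rf J u * Z * rf J u - Z = -((2 / bl J u u) • wd J (Z *ᵥ u) u) := by
  have e1 : vecMulVec u u * J * Z = -(vecMulVec u (Z *ᵥ u) * J) := by
    rw [Matrix.mul_assoc, hZ, Matrix.mul_neg, ← Matrix.mul_assoc, Matrix.vecMulVec_mul,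
      Matrix.vecMul_transpose]
  have e2 : Z * (vecMulVec u u * J) = vecMulVec (Z *ᵥ u) u * J := by
    rw [← Matrix.mul_assoc, Matrix.mul_vecMulVec]
  have e3 : vecMulVec u u * J * Z * (vecMulVec u u * J) = 0 := by
    have : vecMulVec u u * J * Z * (vecMulVec u u * J) =
        vecMulVec u u * (J * Z * vecMulVec u u) * J := by noncomm_ring
    rw [this, Matrix.mul_vecMulVec, Matrix.vecMulVec_mul_vecMulVec]
    have h0 : u ⬝ᵥ (J * Z) *ᵥ u = 0 := by
      rw [← Matrix.mulVec_mulVec]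
      exact hBu
    rw [h0]
    simp
  unfold rf wd
  have h1 : u ⬝ᵥ J.mulVec u = bl J u u := rfl
  rw [h1]
  set α : ℂ := 2 / bl J u u with hα
  have h2 : (1 - α • (vecMulVec u u * J)) * Z * (1 - α • (vecMulVec u u * J)) - Z =
      -(α • (vecMulVec u u * J * Z)) - α • (Z * (vecMulVec u u * J)) +
      (α * α) • (vecMulVec u u * J * Z * (vecMulVec u u * J)) := by
    simp only [sub_mul, mul_sub, one_mul, mul_one, Matrix.smul_mul, Matrix.mul_smul, smul_smul]
    abel
  rw [h2, e3, e1, e2, smul_zero, add_zero, smul_neg, neg_neg, sub_mul, smul_sub, neg_sub]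

/-- the key step -/
theorem core {E : Mat m} (hE : Eᵀ = E) (hu : IsUnit E) (hm : 3 ≤ m)
    (U : Submodule ℂ (Mat m)) (X : Mat m)
    (hst : ∀ A ∈ U, ∀ u : Fin m → ℂ, bl E⁻¹ u u ≠ 0 → rf E⁻¹ u * A * rf E⁻¹ u ∈ U)
    (hX : ∀ u : Fin m → ℂ, bl E⁻¹ u u ≠ 0 → rf E⁻¹ u * X * rf E⁻¹ u - X ∈ U)
    (hg : X ∈ gsp E) (hns : ¬ ∃ c : ℂ, X = c • 1) (x y : Fin m → ℂ) : wd E⁻¹ x y ∈ U := by
  have hdetE : IsUnit E.det := (Matrix.isUnit_iff_isUnit_det E).1 hu
  obtain ⟨c, hc⟩ := hg
  set J : Mat m := E⁻¹ with hJdef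
  have hJ : Jᵀ = J := by rw [hJdef, Matrix.transpose_nonsing_inv, hE]
  have hJE : J * E = 1 := Matrix.nonsing_inv_mul E hdetE
  have hEJ : E * J = 1 := Matrix.mul_nonsing_inv E hdetE
  have hdet : IsUnit J.det := by
    rw [← Matrix.isUnit_iff_isUnit_det]
    exact ⟨⟨J, E, hJE, hEJ⟩, rfl⟩
  set Z : Mat m := X - (c / 2) • 1 with hZdef
  have hZE : Z * E + E * Zᵀ = 0 := by
    have : Z * E + E * Zᵀ = (X * E + E * Xᵀ) - c • E := by
      rw [hZdef, Matrix.transpose_sub, Matrix.transpose_smul, Matrix.transpose_one, sub_mul,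
        mul_sub, Matrix.smul_mul, Matrix.mul_smul, Matrix.one_mul, Matrix.mul_one]
      have : c • E = (c / 2) • E + (c / 2) • E := by
        rw [← add_smul]; congr 1; ring
      rw [this]
      abel
    rw [this, hc, sub_self]
  have hZ : J * Z = -(Zᵀ * J) := by
    have h1 : J * (Z * E + E * Zᵀ) * J = 0 := by rw [hZE]; simp
    have h2 : J * (Z * E + E * Zᵀ) * J = J * Z * (E * J) + (J * E) * Zᵀ * J := by noncomm_ring
    rw [h2, hEJ, hJE, Matrix.mul_one, Matrix.one_mul] at h1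
    exact eq_neg_of_add_eq_zero_left h1
  have hBv : ∀ v, bl J v (Z *ᵥ v) = 0 := by
    intro v
    have h1 : bl J v (Z *ᵥ v) = -bl J (Z *ᵥ v) v := by
      unfold bl
      rw [Matrix.mulVec_mulVec, hZ, Matrix.neg_mulVec, dotProduct_neg, ← Matrix.mulVec_mulVec,
        Matrix.dotProduct_mulVec v, Matrix.vecMul_transpose]
    rw [bl_symm J hJ (Z *ᵥ v) v] at h1
    have : 2 * bl J v (Z *ᵥ v) = 0 := by linear_combination h1
    simpa using this
  have hZ0 : Z ≠ 0 := by
    intro h0
    exact hns ⟨c / 2, by rw [← sub_eq_zero]; exact h0⟩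
  -- step 0
  obtain ⟨w0, hw0⟩ := exists_noniso hJ hdet (by omega)
  obtain ⟨u, huq, hZu⟩ : ∃ u : Fin m → ℂ, bl J u u ≠ 0 ∧ Z *ᵥ u ≠ 0 := by
    by_contra hcon
    have hcon' : ∀ u : Fin m → ℂ, bl J u u ≠ 0 → Z *ᵥ u = 0 := by
      intro u h1
      by_contra h2
      exact hcon ⟨u, h1, h2⟩
    apply hZ0
    apply Matrix.ext_of_mulVec_single
    intro i
    rw [Matrix.zero_mulVec]
    set v : Fin m → ℂ := Pi.single i 1 with hv
    obtain ⟨t, ht1, ht2⟩ := exists_ne 0 1 (bl J v v) (2 * bl J v w0) (bl J w0 w0)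
      (Or.inr one_ne_zero) (Or.inr (Or.inr hw0))
    have h1 : bl J (v + t • w0) (v + t • w0) = bl J v v + 2 * bl J v w0 * t +
        bl J w0 w0 * t ^ 2 := by
      rw [bl_add_left, bl_add_right, bl_add_right, bl_smul_left, bl_smul_left, bl_smul_right,
        bl_smul_right, bl_symm J hJ w0 v]
      ring
    have h2 := hcon' (v + t • w0) (by rw [h1]; exact ht2)
    rw [Matrix.mulVec_add, Matrix.mulVec_smul, hcon' w0 hw0, smul_zero, add_zero] at h2
    exact h2
  set a : Fin m → ℂ := Z *ᵥ u with ha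
  have hua : bl J u a = 0 := hBv u
  -- step 1
  have hau : wd J a u ∈ U := by
    have h1 := hX u huq
    have h2 : rf J u * X * rf J u - X = rf J u * Z * rf J u - Z := by
      rw [hZdef, mul_sub, sub_mul, Matrix.mul_smul, Matrix.smul_mul, Matrix.mul_one,
        rf_sq J u huq]
      abel
    rw [h2, conj_skew hZ (hBv u)] at h1
    have h3 : (2 / bl J u u) ≠ 0 := div_ne_zero two_ne_zero huq
    have h4 := U.smul_mem (2 / bl J u u)⁻¹ (U.neg_mem h1)
    rwa [neg_neg, smul_smul, inv_mul_cancel₀ h3, one_smul] at h4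
  have hua' : wd J u a ∈ U := by
    rw [wd_swap]
    exact U.neg_mem hau
  -- step 2
  have hmove : ∀ w p q : Fin m → ℂ, bl J w w ≠ 0 → wd J p q ∈ U →
      wd J (rf J w *ᵥ p) (rf J w *ᵥ q) ∈ U := by
    intro w p q hw hpq
    have := hst _ hpq w hw
    rwa [conj_wd hJ hw] at this
  have s2 : ∀ w, bl J w w ≠ 0 → bl J w u = 0 → bl J w a ≠ 0 → wd J u w ∈ U := by
    intro w hw hwu hwa
    have h1 := hmove w u a hw hua'
    rw [rf_mulVec, rf_mulVec, hwu] at h1
    simp only [mul_zero, zero_div, zero_smul, sub_zero] at h1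
    have h2 : wd J u a - wd J u (a - (2 * bl J w a / bl J w w) • w) =
        (2 * bl J w a / bl J w w) • wd J u w := by
      rw [sub_eq_add_neg a, wd_add_right, ← neg_smul, wd_smul_right, neg_smul]
      abel
    have h3 := U.sub_mem hua' h1
    rw [h2] at h3
    have h4 : (2 * bl J w a / bl J w w) ≠ 0 := div_ne_zero (mul_ne_zero two_ne_zero hwa) hw
    have h5 := U.smul_mem (2 * bl J w a / bl J w w)⁻¹ h3
    rwa [smul_smul, inv_mul_cancel₀ h4, one_smul] at h5
  obtain ⟨z, hz1, hz2, hz3⟩ : ∃ z, bl J z z ≠ 0 ∧ bl J z u = 0 ∧ bl J z a ≠ 0 := by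
    obtain ⟨z0, hz0⟩ := exists_bl_ne hdet hZu
    set z1 : Fin m → ℂ := z0 - (bl J z0 u / bl J u u) • u with hz1
    have h1u : bl J z1 u = 0 := by
      rw [hz1, bl_sub_left, bl_smul_left, div_mul_cancel₀ _ huq, sub_self]
    have h1a : bl J z1 a ≠ 0 := by
      rw [hz1, bl_sub_left, bl_smul_left, hua, mul_zero, sub_zero]
      exact hz0
    obtain ⟨t, ht1, ht2⟩ := exists_ne (bl J z1 a) (bl J a a) (bl J z1 z1) (2 * bl J z1 a)
      (bl J a a) (Or.inl h1a) (Or.inr (Or.inl (mul_ne_zero two_ne_zero h1a)))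
    refine ⟨z1 + t • a, ?_, ?_, ?_⟩
    · have : bl J (z1 + t • a) (z1 + t • a) = bl J z1 z1 + 2 * bl J z1 a * t +
          bl J a a * t ^ 2 := by
        rw [bl_add_left, bl_add_right, bl_add_right, bl_smul_left, bl_smul_left, bl_smul_right,
          bl_smul_right, bl_symm J hJ a z1]
        ring
      rw [this]
      exact ht2
    · rw [bl_add_left, bl_smul_left, h1u, bl_symm J hJ a u, hua, mul_zero, add_zero]
    · have : bl J (z1 + t • a) a = bl J z1 a + bl J a a * t := by
        rw [bl_add_left, bl_smul_left]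
        ring
      rw [this]
      exact ht1
  have s2' : ∀ y, bl J y u = 0 → wd J u y ∈ U := by
    intro y hyu
    obtain ⟨t, ht1, ht2⟩ := exists_ne (bl J y a) (bl J z a) (bl J y y) (2 * bl J y z)
      (bl J z z) (Or.inr hz3) (Or.inr (Or.inr hz1))
    have h1 : wd J u (y + t • z) ∈ U := by
      apply s2
      · have : bl J (y + t • z) (y + t • z) = bl J y y + 2 * bl J y z * t +
            bl J z z * t ^ 2 := by
          rw [bl_add_left, bl_add_right, bl_add_right, bl_smul_left, bl_smul_left, bl_smul_right,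
            bl_smul_right, bl_symm J hJ z y]
          ring
        rw [this]
        exact ht2
      · rw [bl_add_left, bl_smul_left, hyu, hz2, mul_zero, add_zero]
      · have : bl J (y + t • z) a = bl J y a + bl J z a * t := by
          rw [bl_add_left, bl_smul_left]
          ring
        rw [this]
        exact ht1
    have h2 := s2 z hz1 hz2 hz3
    have h3 := U.sub_mem h1 (U.smul_mem t h2)
    rwa [wd_add_right, wd_smul_right, add_sub_cancel_right] at h3
  have s2'' : ∀ y, wd J u y ∈ U := by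
    intro y
    have h1 := s2' (y - (bl J y u / bl J u u) • u) (by
      rw [bl_sub_left, bl_smul_left, div_mul_cancel₀ _ huq, sub_self])
    have h2 : wd J u (y - (bl J y u / bl J u u) • u) = wd J u y := by
      rw [sub_eq_add_neg, ← neg_smul, wd_add_right, wd_smul_right, wd_self, smul_zero, add_zero]
    rwa [h2] at h1
  -- step 3
  have s3 : ∀ w, bl J w w ≠ 0 → bl J w u ≠ 0 → ∀ y, wd J w y ∈ U := by
    intro w hw hwu y
    have h1 := hmove w u (rf J w *ᵥ y) hw (s2'' _)
    rw [Matrix.mulVec_mulVec, rf_sq J w hw, Matrix.one_mulVec, rf_mulVec] at h1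
    have h2 : wd J u y - wd J (u - (2 * bl J w u / bl J w w) • w) y =
        (2 * bl J w u / bl J w w) • wd J w y := by
      rw [sub_eq_add_neg u, wd_add_left, ← neg_smul, wd_smul_left, neg_smul]
      abel
    have h3 := U.sub_mem (s2'' y) h1
    rw [h2] at h3
    have h4 : (2 * bl J w u / bl J w w) ≠ 0 := div_ne_zero (mul_ne_zero two_ne_zero hwu) hw
    have h5 := U.smul_mem (2 * bl J w u / bl J w w)⁻¹ h3
    rwa [smul_smul, inv_mul_cancel₀ h4, one_smul] at h5
  obtain ⟨t, ht1, ht2⟩ := exists_ne (bl J x u) (bl J u u) (bl J x x) (2 * bl J x u)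
    (bl J u u) (Or.inr huq) (Or.inr (Or.inr huq))
  have h1 : wd J (x + t • u) y ∈ U := by
    apply s3
    · have : bl J (x + t • u) (x + t • u) = bl J x x + 2 * bl J x u * t +
          bl J u u * t ^ 2 := by
        rw [bl_add_left, bl_add_right, bl_add_right, bl_smul_left, bl_smul_left, bl_smul_right,
          bl_smul_right, bl_symm J hJ u x]
        ring
      rw [this]
      exact ht2
    · have : bl J (x + t • u) u = bl J x u + bl J u u * t := by
        rw [bl_add_left, bl_smul_left]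
        ring
      rw [this]
      exact ht1
  have h3 := U.sub_mem h1 (U.smul_mem t (s2'' y))
  rwa [wd_add_left, wd_smul_left, add_sub_cancel_right] at h3

end TRVO_

open Pool.Agent.DRB (Fam Sp gsp) in
open TRVO_ in
theorem p_TRVO : T_TRVO := by
  intro r k n d E l0 hSy U hU p hp hg hns x y
  obtain ⟨hE, hu, hm⟩ := hSy
  set U' : Submodule ℂ (Matrix (Fin (d l0)) (Fin (d l0)) ℂ) :=
    { carrier := {A | ((0 : Fin r → ℂ), (0 : Matrix (Fin k) (Fin k) ℂ),
        (Pi.single l0 A : Fam d)) ∈ U}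
      add_mem' := by
        intro A B hA hB
        have := U.add_mem hA hB
        simp only [Set.mem_ofPred_eq]
        convert this using 1
        simp [Pi.single_add]
      zero_mem' := by
        simp only [Set.mem_ofPred_eq]
        convert U.zero_mem using 1
        simp
      smul_mem' := by
        intro c A hA
        have := U.smul_mem c hA
        simp only [Set.mem_ofPred_eq]
        convert this using 1
        simp [Pi.single_smul] } with hU'
  have hmem : ∀ A, A ∈ U' ↔ ((0 : Fin r → ℂ), (0 : Matrix (Fin k) (Fin k) ℂ),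
        (Pi.single l0 A : Fam d)) ∈ U := fun A => Iff.rfl
  have key := core (E := E l0) hE hu hm U' (p.2.2 l0) ?_ ?_ hg hns x y
  · exact key
  · intro A hA u hq
    obtain ⟨h1, h2⟩ := rf_mem hE hu hq
    have h3 := hU _ ((hmem A).1 hA) _ h1
    rw [h2] at h3
    rw [hmem]
    convert h3 using 3
    ext l : 1
    by_cases hl : l = l0
    · subst hl
      simp
    · simp [hl]
  · intro u hq
    obtain ⟨h1, h2⟩ := rf_mem hE hu hq
    have h3 := U.sub_mem (hU _ hp _ h1) hp
    rw [h2] at h3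
    rw [hmem]
    convert h3 using 1
    refine Prod.ext ?_ (Prod.ext ?_ ?_)
    · simp
    · simp
    · funext l
      by_cases hl : l = l0
      · subst hl
        simp
      · simp [hl]

end Pool.Agent.DRG
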