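import Pool.Agent.DRG.EXPC
import Pool.Agent.DRG.GSO
import Pool.Agent.DRG.TRVO
import Pool.Agent.DRG.SCAO
import Pool.Agent.DRG.HOMG
import Pool.Agent.DRG.DICH
import Pool.Agent.DRG.MIX
import Pool.Agent.DRG.PHG
import Pool.Agent.DRG.PHE
import Pool.Agent.DRG.RIE
import Pool.Agent.DRG.DRM
import Pool.Agent.DRG.ADST
import Pool.Agent.DRG.FGRP
import Pool.Agent.DRG.FSIG
import Pool.Agent.DRG.FALG
import Pool.Agent.DRG.COMR
import Pool.Agent.DRG.COMM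
import Pool.Agent.DRG.STAB
import Pool.Agent.DRG.CARD
import Pool.Agent.DRG.MINP
import Pool.Agent.DRG.MAIN
import Pool.Agent.DRG.CORE
import Pool.Agent.DRG.Fam
import Pool.Agent.DRB.All
import Pool.Agent.HEP.All
import Pool.Agent.MUM.All

/-!
# Sub-de Rham-Betti structures, mixed families: assembly
-/

set_option autoImplicit false

namespace Pool.Agent.DRG

theorem a_ADST : T_ADST := p_ADST DRB.p_TCNJ DRB.p_CXA DRB.p_RATL DRB.p_LINR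

theorem a_DICH : T_DICH :=
  p_DICH a_ADST DRB.a_TRVS DRB.p_TVSP DRB.p_TEXP DRB.p_GENT DRB.p_TMUL DRB.p_LINR p_EXPC p_GSO
    p_TRVO

theorem a_FGRP : T_FGRP := p_FGRP DRB.p_TMUL DRB.p_SIGL

theorem a_FSIG : T_FSIG := p_FSIG DRB.p_TMUL DRB.p_SIGL

theorem a_FALG : T_FALG := p_FALG DRB.p_TDER DRB.p_DRVL DRB.p_DERQ

theorem a_COMR : T_COMR := p_COMR DRB.p_FIXQ

theorem a_COMM : T_COMM := p_COMM a_COMR DRB.p_FIXQ

theorem a_STAB : T_STAB := p_STAB a_COMM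

theorem a_CARD : T_CARD := p_CARD DRB.a_JORD a_STAB p_SCAO

theorem a_MINP : T_MINP := p_MINP DRB.p_FIXQ

theorem a_MAIN : T_MAIN := p_MAIN DRB.a_MAIN a_CARD a_MINP p_HOMG

theorem a_CORE : T_CORE := p_CORE a_DICH a_FGRP a_FSIG a_FALG DRB.a_FFIN a_MAIN DRB.p_TMUL

theorem a_MIX : T_MIX := p_MIX GFam.gfin

theorem a_PHG : T_PHG :=
  p_PHG MUM.p_PBG MUM.a_PBO MUM.a_PBR MUM.p_PBV MUM.a_GS MUM.a_AN MUM.a_NJ

theorem a_PHE : T_PHE := p_PHE HEP.a_FUN HEP.p_UNI HEP.p_SQI HEP.a_FG HEP.a_FODE HEP.p_ALGID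

theorem a_DRM : T_DRM := p_DRM a_CORE a_MIX

end Pool.Agent.DRG
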