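import Pool.Agent.DRG.Targets

/-!
# DRB: COMM, operators commuting with `F` commute with the symplectic group
-/

set_option autoImplicit false

open Matrix

namespace Pool.Agent.DRG

open Pool.Agent.DRB (cx im toC TI tpow dtpow tens dtens Ix Fam tot Sp gsp Pres Fs Bad)
open Pool.Agent.DRB (T_FIXQ)

namespace COMM_

variable {m : ℕ}

/-- the average of an operator over a finite set of matrices -/
noncomputable def avg (F : Finset (Matrix (Fin m) (Fin m) ℂ))
    (e : Matrix (Fin m) (Fin m) ℂ →ₗ[ℂ] Matrix (Fin m) (Fin m) ℂ) :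
    Matrix (Fin m) (Fin m) ℂ →ₗ[ℂ] Matrix (Fin m) (Fin m) ℂ where
  toFun X := ((F.card : ℂ))⁻¹ • ∑ f ∈ F, f⁻¹ * e (f * X * f⁻¹) * f
  map_add' X Y := by
    rw [← smul_add, ← Finset.sum_add_distrib]
    congr 1
    refine Finset.sum_congr rfl fun f _ => ?_
    rw [Matrix.mul_add, Matrix.add_mul, map_add, Matrix.mul_add, Matrix.add_mul]
  map_smul' c X := by
    simp only [RingHom.id_apply, Matrix.mul_smul, Matrix.smul_mul, map_smul,
      ← Finset.smul_sum]
    exact smul_comm _ _ _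

theorem avg_apply (F : Finset (Matrix (Fin m) (Fin m) ℂ))
    (e : Matrix (Fin m) (Fin m) ℂ →ₗ[ℂ] Matrix (Fin m) (Fin m) ℂ)
    (X : Matrix (Fin m) (Fin m) ℂ) :
    avg F e X = ((F.card : ℂ))⁻¹ • ∑ f ∈ F, f⁻¹ * e (f * X * f⁻¹) * f := rfl

/-- matrix units of the space of operators -/
noncomputable def un (p q : Fin m × Fin m) :
    Matrix (Fin m) (Fin m) ℂ →ₗ[ℂ] Matrix (Fin m) (Fin m) ℂ where
  toFun X := X q.1 q.2 • Matrix.single p.1 p.2 (1 : ℂ)
  map_add' X Y := by rw [Matrix.add_apply, add_smul]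
  map_smul' c X := by
    rw [RingHom.id_apply, Matrix.smul_apply, smul_eq_mul, mul_smul]

theorem un_apply (p q : Fin m × Fin m) (X : Matrix (Fin m) (Fin m) ℂ) :
    un p q X = X q.1 q.2 • Matrix.single p.1 p.2 (1 : ℂ) := rfl

theorem eq_sum (X : Matrix (Fin m) (Fin m) ℂ) :
    X = ∑ q : Fin m × Fin m, X q.1 q.2 • Matrix.single q.1 q.2 (1 : ℂ) := by
  rw [Fintype.sum_prod_type]
  conv_lhs => rw [Matrix.matrix_eq_sum_single X]
  refine Finset.sum_congr rfl fun i _ => Finset.sum_congr rfl fun j _ => ?_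
  rw [Matrix.smul_single, smul_eq_mul, mul_one]

theorem eq_sum_un (b : Matrix (Fin m) (Fin m) ℂ →ₗ[ℂ] Matrix (Fin m) (Fin m) ℂ)
    (X : Matrix (Fin m) (Fin m) ℂ) :
    b X = ∑ p : Fin m × Fin m, ∑ q : Fin m × Fin m,
      (b (Matrix.single q.1 q.2 (1 : ℂ))) p.1 p.2 • un p q X := by
  conv_lhs => rw [eq_sum X, map_sum]
  rw [Finset.sum_comm]
  refine Finset.sum_congr rfl fun q _ => ?_
  rw [map_smul]
  conv_lhs => rw [eq_sum (b (Matrix.single q.1 q.2 (1 : ℂ))), Finset.smul_sum]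
  refine Finset.sum_congr rfl fun p _ => ?_
  rw [un_apply, smul_comm]

theorem map_mul' (σ : ℂ ≃+* ℂ) (X Y : Matrix (Fin m) (Fin m) ℂ) :
    (X * Y).map σ = X.map σ * Y.map σ := by
  have := Matrix.map_mul (L := X) (M := Y) (f := (σ : ℂ →+* ℂ))
  exact this

theorem map_inv' (σ : ℂ ≃+* ℂ) (X : Matrix (Fin m) (Fin m) ℂ) (hX : IsUnit X) :
    (X⁻¹).map σ = (X.map σ)⁻¹ := by
  symm
  apply Matrix.inv_eq_left_inv
  rw [← map_mul', Matrix.nonsing_inv_mul X ((Matrix.isUnit_iff_isUnit_det X).mp hX)]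
  ext i j
  rw [Matrix.map_apply]
  by_cases h : i = j
  · subst h; simp
  · simp [h]

theorem un_map (σ : ℂ ≃+* ℂ) (p q : Fin m × Fin m) (X : Matrix (Fin m) (Fin m) ℂ) :
    (un p q X).map σ = un p q (X.map σ) := by
  ext i j
  rw [un_apply, un_apply, Matrix.map_apply, Matrix.smul_apply, Matrix.smul_apply,
    Matrix.map_apply, smul_eq_mul, smul_eq_mul, map_mul]
  congr 1
  rw [Matrix.single_apply]
  split_ifs <;> simp

end COMM_

open COMM_ in
theorem p_COMM (h1 : T_COMR) (h2 : T_FIXQ) : T_COMM := by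
  intro m S hS b hb h hh X
  have hu : ∀ f ∈ S.F, f * f⁻¹ = 1 ∧ f⁻¹ * f = 1 := by
    intro f hf
    have hd := (Matrix.isUnit_iff_isUnit_det f).mp (S.inv_mem f hf).1
    exact ⟨Matrix.mul_nonsing_inv f hd, Matrix.nonsing_inv_mul f hd⟩
  have hc0 : ((S.F.card : ℕ) : ℂ) ≠ 0 := by
    have : S.F.card ≠ 0 := Finset.card_ne_zero_of_mem S.one_mem
    exact_mod_cast this
  -- the averages commute with `F`
  have hcomm : ∀ (e : Matrix (Fin m) (Fin m) ℂ →ₗ[ℂ] Matrix (Fin m) (Fin m) ℂ),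
      ∀ g ∈ S.F, ∀ X, avg S.F e (g * X * g⁻¹) = g * avg S.F e X * g⁻¹ := by
    intro e g hg X
    rw [avg_apply, avg_apply, Matrix.mul_smul, Matrix.smul_mul, Finset.mul_sum, Finset.sum_mul]
    congr 1
    refine Finset.sum_bij' (fun f _ => f * g) (fun f _ => f * g⁻¹) ?_ ?_ ?_ ?_ ?_
    · intro f hf
      exact S.mul_mem f hf g hg
    · intro f hf
      exact S.mul_mem f hf _ (S.inv_mem g hg).2
    · intro f _
      rw [Matrix.mul_assoc, (hu g hg).1, Matrix.mul_one]
    · intro f _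
      rw [Matrix.mul_assoc, (hu g hg).2, Matrix.mul_one]
    · intro f _
      have e1 : (f * g)⁻¹ = g⁻¹ * f⁻¹ := Matrix.mul_inv_rev f g
      have e2 : f * (g * X * g⁻¹) * f⁻¹ = f * g * X * (f * g)⁻¹ := by
        rw [e1]; simp only [Matrix.mul_assoc]
      rw [e2, e1]
      have e3 : g * (g⁻¹ * f⁻¹ * e (f * g * X * (g⁻¹ * f⁻¹)) * (f * g)) * g⁻¹ =
          (g * g⁻¹) * (f⁻¹ * e (f * g * X * (g⁻¹ * f⁻¹)) * f) * (g * g⁻¹) := by
        simp only [Matrix.mul_assoc]
      rw [e3, (hu g hg).1, Matrix.one_mul, Matrix.mul_one]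
  -- the averages of the matrix units are rational
  have hrat : ∀ p q : Fin m × Fin m, ∀ X : Matrix (Fin m) (Fin m) ℚ,
      ∃ Y : Matrix (Fin m) (Fin m) ℚ, avg S.F (un p q) (toC X) = toC Y := by
    intro p q X
    have hfix : ∀ σ : ℂ ≃+* ℂ, (avg S.F (un p q) (toC X)).map σ = avg S.F (un p q) (toC X) := by
      intro σ
      have hXσ : (toC X).map σ = toC X := by
        ext i j
        simp
      have hinj : Function.Injective
          (fun f : Matrix (Fin m) (Fin m) ℂ => f.map (σ : ℂ → ℂ)) :=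
        Matrix.map_injective σ.injective
      have himg : S.F.image (fun f => f.map (σ : ℂ → ℂ)) = S.F := by
        apply Finset.eq_of_subset_of_card_le
        · intro f hf
          rw [Finset.mem_image] at hf
          obtain ⟨g, hg, rfl⟩ := hf
          exact S.sig_mem σ g hg
        · rw [Finset.card_image_of_injective _ hinj]
      have e1 : (avg S.F (un p q) (toC X)).map σ = ((S.F.card : ℂ))⁻¹ •
          ∑ f ∈ S.F, (f.map σ)⁻¹ * un p q (f.map σ * toC X * (f.map σ)⁻¹) * f.map σ := by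
        rw [avg_apply]
        ext i j
        rw [Matrix.map_apply, Matrix.smul_apply, Matrix.smul_apply, smul_eq_mul, smul_eq_mul,
          map_mul, map_inv₀, map_natCast, Matrix.sum_apply, Matrix.sum_apply, map_sum]
        congr 1
        refine Finset.sum_congr rfl fun f hf => ?_
        rw [← Matrix.map_apply (f := (σ : ℂ → ℂ)), map_mul', map_mul', un_map, map_mul', map_mul',
          map_inv' σ f (S.inv_mem f hf).1, hXσ]
      rw [e1, avg_apply]
      congr 1
      conv_rhs => rw [← himg]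
      rw [Finset.sum_image fun x _ y _ hxy => hinj hxy]
    have hex : ∀ i j, ∃ y : ℚ, avg S.F (un p q) (toC X) i j = (y : ℂ) := by
      intro i j
      apply h2
      intro σ
      have := congrFun (congrFun (hfix σ) i) j
      rw [Matrix.map_apply] at this
      exact this
    choose Y hY using hex
    refine ⟨Matrix.of Y, ?_⟩
    ext i j
    rw [hY]
    simp
  have hav : ∀ p q : Fin m × Fin m, ∀ X, avg S.F (un p q) (h * X * h⁻¹) =
      h * avg S.F (un p q) X * h⁻¹ := fun p q =>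
    h1 m S hS (avg S.F (un p q)) (hrat p q) (hcomm (un p q)) h hh
  -- decomposition of `b`
  have hdec : ∀ X, b X = ∑ p : Fin m × Fin m, ∑ q : Fin m × Fin m,
      (b (Matrix.single q.1 q.2 (1 : ℂ))) p.1 p.2 • avg S.F (un p q) X := by
    intro X
    have e1 : b X = avg S.F b X := by
      rw [avg_apply]
      have e2 : ∑ f ∈ S.F, f⁻¹ * b (f * X * f⁻¹) * f = ∑ f ∈ S.F, b X := by
        refine Finset.sum_congr rfl fun f hf => ?_
        rw [hb f hf]
        have e3 : f⁻¹ * (f * b X * f⁻¹) * f = (f⁻¹ * f) * b X * (f⁻¹ * f) := by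
          simp only [Matrix.mul_assoc]
        rw [e3, (hu f hf).2, Matrix.one_mul, Matrix.mul_one]
      rw [e2, Finset.sum_const, ← Nat.cast_smul_eq_nsmul ℂ, smul_smul, inv_mul_cancel₀ hc0,
        one_smul]
    rw [e1, avg_apply]
    have e4 : ∀ f ∈ S.F, f⁻¹ * b (f * X * f⁻¹) * f = ∑ p : Fin m × Fin m, ∑ q : Fin m × Fin m,
        (b (Matrix.single q.1 q.2 (1 : ℂ))) p.1 p.2 • (f⁻¹ * un p q (f * X * f⁻¹) * f) := by
      intro f _
      rw [eq_sum_un b (f * X * f⁻¹), Finset.mul_sum, Finset.sum_mul]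
      refine Finset.sum_congr rfl fun p _ => ?_
      rw [Finset.mul_sum, Finset.sum_mul]
      refine Finset.sum_congr rfl fun q _ => ?_
      rw [Matrix.mul_smul, Matrix.smul_mul]
    rw [Finset.sum_congr rfl e4, Finset.sum_comm, Finset.smul_sum]
    refine Finset.sum_congr rfl fun p _ => ?_
    rw [Finset.sum_comm, Finset.smul_sum]
    refine Finset.sum_congr rfl fun q _ => ?_
    rw [avg_apply, ← Finset.smul_sum, smul_comm]
  rw [hdec (h * X * h⁻¹), hdec X, Finset.mul_sum, Finset.sum_mul]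
  refine Finset.sum_congr rfl fun p _ => ?_
  rw [Finset.mul_sum, Finset.sum_mul]
  refine Finset.sum_congr rfl fun q _ => ?_
  rw [hav, Matrix.mul_smul, Matrix.smul_mul]

end Pool.Agent.DRG
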