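import Pool.Agent.DRG.Targets
import Pool.Agent.DRB.TCNJ
import Pool.Agent.DRB.TMUL

set_option autoImplicit false

/-!
# Sub-de Rham-Betti structures (MP_5d33ca_ag): EXPC, one-parameter groups
-/

open Matrix

namespace Pool.Agent.DRG

open Pool.Agent.DRB (cx im toC TI tpow dtpow tens dtens Ix Fam tot Sp gsp Pres Fs Bad)

namespace EXPC_

variable {I : Type} [Fintype I] [DecidableEq I]

/-- derivative of a tensor power along a curve -/
theorem der_tpow (b : ℕ) (γ : ℂ → Matrix I I ℂ) (X : Matrix I I ℂ) (t : ℂ)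
    (h : ∀ i j, HasDerivAt (fun s => γ s i j) ((γ t * X) i j) t) (F G : Fin b → I) :
    HasDerivAt (fun s => tpow b (γ s) F G) ((tpow b (γ t) * dtpow b X) F G) t := by
  have h1 : (tpow b (γ t) * dtpow b X) F G =
      ∑ u : Fin b, (∏ s ∈ Finset.univ.erase u, γ t (F s) (G s)) • (γ t * X) (F u) (G u) := by
    rw [DRB.TCNJ_.tpow_mul_dtpow, Matrix.sum_apply]
    refine Finset.sum_congr rfl fun u _ => ?_
    rw [DRB.TCNJ_.PM_update_apply, smul_eq_mul, mul_comm]
  rw [h1]
  exact HasDerivAt.fun_finsetProd (u := Finset.univ) fun u _ => h (F u) (G u)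

/-- derivative of the entries of `tens` along a curve -/
theorem der_tens (r : ℕ) (a : Fin r → ℕ) (γ : ℂ → Matrix I I ℂ) (X : Matrix I I ℂ) (t : ℂ)
    (h : ∀ i j, HasDerivAt (fun s => γ s i j) ((γ t * X) i j) t) (p q : TI I a) :
    HasDerivAt (fun s => tens a 1 (γ s) p q) ((tens a 1 (γ t) * dtens a 0 X) p q) t := by
  unfold tens dtens
  rw [← Matrix.blockDiagonal'_mul]
  obtain ⟨i, F⟩ := p
  obtain ⟨j, G⟩ := q
  by_cases hij : i = j
  · subst hij
    simp only [Matrix.blockDiagonal'_apply_eq, Pi.one_apply, Pi.zero_apply, zero_smul, zero_add,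
      one_smul]
    exact der_tpow (a i) γ X t h F G
  · simp only [Matrix.blockDiagonal'_apply_ne _ _ _ hij]
    exact hasDerivAt_const _ _

/-- derivative of the image of a vector -/
theorem der_vec (r : ℕ) (a : Fin r → ℕ) (γ : ℂ → Matrix I I ℂ) (X : Matrix I I ℂ) (t : ℂ)
    (h : ∀ i j, HasDerivAt (fun s => γ s i j) ((γ t * X) i j) t) (v : TI I a → ℂ)
    (p : TI I a) :
    HasDerivAt (fun s => (tens a 1 (γ s) *ᵥ v) p)
      ((tens a 1 (γ t) *ᵥ (dtens a 0 X *ᵥ v)) p) t := by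
  rw [Matrix.mulVec_mulVec]
  simp only [Matrix.mulVec, dotProduct]
  exact HasDerivAt.fun_sum fun q _ => (der_tens r a γ X t h p q).mul_const (v q)

/-- derivative of a linear functional of the image of a vector -/
theorem der_fun (r : ℕ) (a : Fin r → ℕ) (γ : ℂ → Matrix I I ℂ) (X : Matrix I I ℂ) (t : ℂ)
    (h : ∀ i j, HasDerivAt (fun s => γ s i j) ((γ t * X) i j) t)
    (φ : (TI I a → ℂ) →ₗ[ℂ] ℂ) (v : TI I a → ℂ) :
    HasDerivAt (fun s => φ (tens a 1 (γ s) *ᵥ v))
      (φ (tens a 1 (γ t) *ᵥ (dtens a 0 X *ᵥ v))) t := by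
  have h1 : ∀ w : TI I a → ℂ, φ w = ∑ p, w p * φ (Pi.single p 1) := by
    intro w
    conv_lhs => rw [← (Pi.basisFun ℂ (TI I a)).sum_repr w]
    rw [map_sum]
    refine Finset.sum_congr rfl fun p _ => ?_
    rw [map_smul, smul_eq_mul]
    simp
  have h2 : (fun s => φ (tens a 1 (γ s) *ᵥ v)) =
      fun s => ∑ p, (tens a 1 (γ s) *ᵥ v) p * φ (Pi.single p 1) := by
    funext s
    exact h1 _
  rw [h2, h1]
  exact HasDerivAt.fun_sum fun p _ => (der_vec r a γ X t h v p).mul_const _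

end EXPC_

open EXPC_

theorem p_EXPC : T_EXPC := by
  intro I _ _ r a γ X U h0 hd hU t v hv
  by_contra hcon
  obtain ⟨φ, hφ, hle⟩ := Submodule.exists_le_ker_of_notMem hcon
  apply hφ
  have hit : ∀ k : ℕ, ∀ w : TI I a → ℂ,
      iteratedDeriv k (fun s => φ (tens a 1 (γ s) *ᵥ w)) =
        fun s => φ (tens a 1 (γ s) *ᵥ ((fun u => dtens a 0 X *ᵥ u)^[k] w)) := by
    intro k
    induction k with
    | zero => intro w; simp
    | succ k ih =>
      intro w
      rw [iteratedDeriv_succ', Function.iterate_succ_apply]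
      have : deriv (fun s => φ (tens a 1 (γ s) *ᵥ w)) =
          fun s => φ (tens a 1 (γ s) *ᵥ (dtens a 0 X *ᵥ w)) := by
        funext s
        exact (der_fun r a γ X s (hd s) φ w).deriv
      rw [this]
      exact ih _
  have hmem : ∀ k : ℕ, ∀ w ∈ U, (fun u => dtens a 0 X *ᵥ u)^[k] w ∈ U := by
    intro k
    induction k with
    | zero => intro w hw; exact hw
    | succ k ih =>
      intro w hw
      rw [Function.iterate_succ_apply]
      exact ih _ (hU w hw)
  have hdiff : Differentiable ℂ (fun s => φ (tens a 1 (γ s) *ᵥ v)) := fun s =>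
    (der_fun r a γ X s (hd s) φ v).differentiableAt
  have h1 := Complex.taylorSeries_eq_of_entire' 0 t hdiff
  rw [← h1]
  have h2 : ∀ n : ℕ, iteratedDeriv n (fun s => φ (tens a 1 (γ s) *ᵥ v)) 0 = 0 := by
    intro n
    rw [hit n v]
    simp only [h0]
    rw [(DRB.p_TMUL I r a 1 1 1 1).2, Matrix.one_mulVec]
    exact LinearMap.mem_ker.1 (hle (hmem n v hv))
  simp [h2]

end Pool.Agent.DRG
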